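import Pool.Agent.N586.GF.Stm2
import Pool.Agent.N833.GF.CrCore

/-!
# Project SR: the Taylor coefficients of the sums of powers of consecutive integers (helper833)
-/

set_option autoImplicit false

namespace Pool.Agent.N586.GF

/-- R1 -/
theorem cr : S_CR' := by
  intro σ r K t hσ hr ht
  obtain ⟨C, A, hC, hA, M0, h0⟩ := Pool.Agent.N833.GF.core σ r K t hσ hr ht
  refine ⟨C, A, hC, hA, M0, fun M hM h hK hh => ?_⟩
  obtain ⟨i0, hi0, h1⟩ := h0 M hM h hK hh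
  refine ⟨i0, hi0, fun m hm1 hm3 => ?_⟩
  obtain ⟨c, ⟨h2, h3⟩, h4⟩ := h1 m hm1 hm3
  exact ⟨c, ⟨h2, h3⟩, h4⟩

end Pool.Agent.N586.GF
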