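import Pool.Agent.N586.GF.Stm3
import Pool.Agent.N833.GF.CrCore

/-!
# Project SR, second part: the sums of powers of nearby numbers, uniformly (helper403)
-/

set_option autoImplicit false

namespace Pool.Agent.N586.GF

open Finset Filter Topology
open Pool.Agent.N833.GF

/-- powers of `exp ((log M) ^ β)` are smaller than powers of `M` -/
theorem cr2_pow {β κ : ℝ} (hβ : β < 1) (hκ : 0 < κ) (m : ℕ) :
    ∀ᶠ M : ℕ in atTop, (Real.exp ((Real.log M) ^ β)) ^ m ≤ (M : ℝ) ^ κ := by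
  have hlog : Tendsto (fun N : ℕ => Real.log (N : ℝ)) atTop atTop :=
    Real.tendsto_log_atTop.comp tendsto_natCast_atTop_atTop
  have h3 := ((tendsto_rpow_atTop (sub_pos.2 hβ)).comp hlog).eventually_ge_atTop ((m : ℝ) / κ)
  filter_upwards [h3, hlog.eventually_gt_atTop 0, eventually_ge_atTop 1] with N h4 h5 h6
  have hN : (0 : ℝ) < N := by exact_mod_cast h6
  have h7 : (Real.log (N : ℝ)) = (Real.log N) ^ (1 - β) * (Real.log N) ^ β := by
    rw [← Real.rpow_add h5, sub_add_cancel, Real.rpow_one]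
  have h8 : (m : ℝ) ≤ κ * (Real.log N) ^ (1 - β) := by
    have : (m : ℝ) / κ ≤ (Real.log N) ^ (1 - β) := h4
    rw [div_le_iff₀ hκ] at this
    linarith
  rw [← Real.exp_nat_mul, Real.rpow_def_of_pos hN, Real.exp_le_exp]
  have h9 : 0 ≤ (Real.log (N : ℝ)) ^ β := by positivity
  calc (m : ℝ) * (Real.log N) ^ β ≤ (κ * (Real.log N) ^ (1 - β)) * (Real.log N) ^ β :=
        mul_le_mul_of_nonneg_right h8 h9
    _ = Real.log N * κ := by
        conv_rhs => rw [h7]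
        ring

/-- constants are smaller than powers of `M` -/
theorem cr2_const {κ : ℝ} (hκ : 0 < κ) (c : ℝ) : ∀ᶠ M : ℕ in atTop, c ≤ (M : ℝ) ^ κ :=
  ((tendsto_rpow_atTop hκ).comp tendsto_natCast_atTop_atTop).eventually_ge_atTop c

/-- the thresholds -/
theorem cr2_M0 (σ β : ℝ) (r : ℕ) (hβ : β < 1) : ∃ M0 : ℕ, ∀ M : ℕ, M0 ≤ M → 1 ≤ (M : ℝ) ∧
    Real.exp ((Real.log M) ^ β) ≤ M ∧ (1 + |σ|) * ((M : ℝ) ^ (4 / 5 : ℝ) / M) ≤ 1 / 2 ∧
    (∀ K : ℝ, 0 ≤ K → K ≤ Real.exp ((Real.log M) ^ β) →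
      r * K * (|σ| + Real.log M + r) * (Real.exp ((Real.log M) ^ β)) ^ (r + 1) * 2 ^ |σ| / M ≤
        1 / 2 ∧
      3 ^ |σ| * (r * K) * (|σ| + r + 1) ^ r * (Real.exp ((Real.log M) ^ β)) ^ r * 2 ^ |σ| ≤
        (M : ℝ) ^ (1 / 500 : ℝ)) := by
  obtain ⟨M1, hM1⟩ := exists_M0 σ r 1 1
  have hlog : Tendsto (fun N : ℕ => Real.log (N : ℝ)) atTop atTop :=
    Real.tendsto_log_atTop.comp tendsto_natCast_atTop_atTop
  have ev := ((((((cr2_pow hβ (by norm_num : (0 : ℝ) < 1) 1).and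
    (cr2_pow hβ (by norm_num : (0 : ℝ) < 1 / 4) (r + 2))).and
    (cr2_pow hβ (by norm_num : (0 : ℝ) < 1 / 1000) (r + 1))).and
    (cr2_const (by norm_num : (0 : ℝ) < 1 / 1000)
      (3 ^ |σ| * r * (|σ| + r + 1) ^ r * 2 ^ |σ|))).and
    (cr2_const (by norm_num : (0 : ℝ) < 1 / 4) (2 * r * (|σ| + 4 + r) * 2 ^ |σ|))).and
    (cr2_const (by norm_num : (0 : ℝ) < 1 / 4) 1)).and (eventually_ge_atTop (max M1 1))
  obtain ⟨M0, hM0⟩ := eventually_atTop.1 ev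
  refine ⟨M0, fun M hM => ?_⟩
  obtain ⟨⟨⟨⟨⟨⟨h1, h2⟩, h3⟩, h4⟩, h5⟩, h6⟩, h7⟩ := hM0 M hM
  have hM1' := hM1 M ((le_max_left _ _).trans h7)
  have hM1'' : (1 : ℝ) ≤ M := hM1'.1
  have hMp : (0 : ℝ) < M := by linarith
  have hσ0 := abs_nonneg σ
  have hr0 : (0 : ℝ) ≤ r := Nat.cast_nonneg r
  set T : ℝ := Real.exp ((Real.log M) ^ β) with hT
  have hT0 : 0 < T := Real.exp_pos _
  have hlM : 0 ≤ Real.log M := Real.log_nonneg hM1''
  refine ⟨hM1'.1, ?_, hM1'.2.2.1, fun K hK0 hKT => ⟨?_, ?_⟩⟩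
  · rw [pow_one, Real.rpow_one] at h1
    exact h1
  · -- `log M ≤ 4 M ^ (1 / 4)`
    have e1 : Real.log M ≤ 4 * (M : ℝ) ^ (1 / 4 : ℝ) := by
      have := Real.log_le_rpow_div hMp.le (by norm_num : (0 : ℝ) < 1 / 4)
      linarith
    have e2 : |σ| + Real.log M + r ≤ (|σ| + 4 + r) * (M : ℝ) ^ (1 / 4 : ℝ) := by
      nlinarith
    have e3 : (M : ℝ) = (M : ℝ) ^ (1 / 4 : ℝ) * (M : ℝ) ^ (1 / 4 : ℝ) * (M : ℝ) ^ (1 / 4 : ℝ) *
        (M : ℝ) ^ (1 / 4 : ℝ) := by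
      rw [← Real.rpow_add hMp, ← Real.rpow_add hMp, ← Real.rpow_add hMp]
      norm_num
    have hlr : 0 ≤ |σ| + Real.log M + r := by positivity
    set Q : ℝ := (M : ℝ) ^ (1 / 4 : ℝ) with hQ
    have hQ0 : 0 < Q := by linarith
    rw [div_le_iff₀ hMp]
    have e4 : K * T ^ (r + 1) ≤ Q := by
      refine le_trans ?_ h2
      rw [pow_succ' T (r + 1)]
      exact mul_le_mul_of_nonneg_right hKT (by positivity)
    calc r * K * (|σ| + Real.log M + r) * T ^ (r + 1) * 2 ^ |σ|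
        = (K * T ^ (r + 1)) * (r * 2 ^ |σ|) * (|σ| + Real.log M + r) := by ring
      _ ≤ Q * (r * 2 ^ |σ|) * ((|σ| + 4 + r) * Q) :=
          mul_le_mul (mul_le_mul_of_nonneg_right e4 (by positivity)) e2 hlr (by positivity)
      _ = (2 * r * (|σ| + 4 + r) * 2 ^ |σ|) * (Q * Q) / 2 := by ring
      _ ≤ Q * (Q * Q) / 2 := by
          have := mul_le_mul_of_nonneg_right h5 (by positivity : 0 ≤ Q * Q)
          linarith
      _ ≤ 1 / 2 * M := by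
          have e5 : Q * (Q * Q) ≤ M := by
            rw [e3]
            have : 0 ≤ Q * Q * Q := by positivity
            nlinarith
          linarith
  · have e1 : (M : ℝ) ^ (1 / 500 : ℝ) = (M : ℝ) ^ (1 / 1000 : ℝ) * (M : ℝ) ^ (1 / 1000 : ℝ) := by
      rw [← Real.rpow_add hMp]
      norm_num
    rw [e1]
    calc 3 ^ |σ| * (r * K) * (|σ| + r + 1) ^ r * T ^ r * 2 ^ |σ|
        = (3 ^ |σ| * r * (|σ| + r + 1) ^ r * 2 ^ |σ|) * (K * T ^ r) := by ring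
      _ ≤ (3 ^ |σ| * r * (|σ| + r + 1) ^ r * 2 ^ |σ|) * T ^ (r + 1) := by
          refine mul_le_mul_of_nonneg_left ?_ (by positivity)
          rw [pow_succ' T r]
          exact mul_le_mul_of_nonneg_right hKT (by positivity)
      _ ≤ _ := mul_le_mul h4 h3 (by positivity) (by positivity)

theorem cr2 : S_CR2 := by
  intro σ β r hσ hβ0 hβ1 hr
  obtain ⟨d, hd0, hd1, hd⟩ := exists_dist hσ
  have hr0 : (1 : ℝ) ≤ r := by exact_mod_cast hr
  have hσ0 := abs_nonneg σ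
  set A : ℝ := (1 + r) * (-Real.log d) + 1 + (r + |σ| + 1) * Real.log 3 +
    Real.log (2 * r.factorial) with hA
  have hld : 0 ≤ -Real.log d := by
    have := Real.log_nonpos hd0.le hd1
    linarith
  have hl3 : 0 ≤ Real.log 3 := Real.log_nonneg (by norm_num)
  have hf1 : (1 : ℝ) ≤ r.factorial := by exact_mod_cast Nat.one_le_of_lt (Nat.factorial_pos r)
  have hlf : 0 ≤ Real.log (2 * r.factorial) := Real.log_nonneg (by linarith)
  have hA0 : 0 ≤ A := by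
    rw [hA]
    positivity
  have hC1 : 1 ≤ (1 + |σ|) * 2 ^ r := by
    have : (1 : ℝ) ≤ 2 ^ r := one_le_pow₀ (by norm_num)
    nlinarith
  obtain ⟨M0, hM0⟩ := cr2_M0 σ β r hβ1
  refine ⟨(1 + |σ|) * 2 ^ r, A, hC1, hA0, M0, fun M hM t h ht htT hhT hh => ?_⟩
  obtain ⟨hM1, hTM, hMb, hMc⟩ := hM0 M hM
  have hM0' : (0 : ℝ) < M := by linarith
  set T : ℝ := Real.exp ((Real.log M) ^ β) with hT
  have hT1 : 1 ≤ T := by
    rw [hT, Real.one_le_exp_iff]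
    have := Real.log_nonneg hM1
    positivity
  have hKT : ((⌊T⌋₊ : ℕ) : ℝ) ≤ T := Nat.floor_le (by linarith)
  obtain ⟨hMc1, hMc2⟩ := hMc _ (Nat.cast_nonneg _) hKT
  have hK : ∀ j, |h j| ≤ ((⌊T⌋₊ : ℕ) : ℤ) := by
    intro j
    rw [Int.abs_eq_natAbs, Int.ofNat_le]
    refine Nat.le_floor ?_
    rw [Nat.cast_natAbs, Int.cast_abs]
    exact hhT j
  classical
  have hex := exists_ps ht hh
  let i0 := Nat.find hex
  obtain ⟨hi0, hS⟩ : i0 < r ∧ ∑ j, h j * (t j : ℤ) ^ i0 ≠ 0 := Nat.find_spec hex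
  have hmin : ∀ l < i0, Sp t h l = 0 := by
    intro l hl
    have h1 := Nat.find_min hex hl
    have h2 : ∑ j, h j * (t j : ℤ) ^ l = 0 := by
      by_contra h3
      exact h1 ⟨by omega, h3⟩
    have h4 : Sp t h l = ((∑ j, h j * (t j : ℤ) ^ l : ℤ) : ℝ) := by
      rw [Sp]
      push_cast
      rfl
    rw [h4, h2, Int.cast_zero]
  have hS1 : 1 ≤ |Sp t h i0| := by
    have h4 : Sp t h i0 = ((∑ j, h j * (t j : ℤ) ^ i0 : ℤ) : ℝ) := by
      rw [Sp]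
      push_cast
      rfl
    rw [h4]
    exact_mod_cast Int.one_le_abs hS
  refine ⟨i0, hi0, fun x hx1 hx3 => ?_⟩
  have hE1 : 1 ≤ (M : ℝ) ^ (1 / 500 : ℝ) := Real.one_le_rpow hM1 (by norm_num)
  refine ⟨fun k => bn σ k * (M : ℝ) ^ i0 * (x / M) ^ (σ - k) * Gs t h x (σ - k),
    ⟨fun k => ?_, fun k hk1 hk => ?_⟩, fun y hy0 hy => ?_⟩
  · -- the upper bound
    refine (upper hi0 hK hM0' hx1 hx3 hT1 htT hTM hmin k).trans ?_
    rw [pow_succ]
    calc ((1 + |σ|) * 2 ^ r) ^ k * (3 ^ |σ| * (r * (⌊T⌋₊ : ℕ)) * (|σ| + r + 1) ^ r * T ^ r *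
          2 ^ |σ|) ≤ ((1 + |σ|) * 2 ^ r) ^ k * (M : ℝ) ^ (1 / 500 : ℝ) :=
          mul_le_mul_of_nonneg_left hMc2 (by positivity)
      _ = (M : ℝ) ^ (1 / 500 : ℝ) * (((1 + |σ|) * 2 ^ r) ^ k * 1) := by ring
      _ ≤ (M : ℝ) ^ (1 / 500 : ℝ) * (((1 + |σ|) * 2 ^ r) ^ k * ((1 + |σ|) * 2 ^ r)) :=
          mul_le_mul_of_nonneg_left (mul_le_mul_of_nonneg_left hC1 (by positivity)) (by positivity)
  · refine ((lower2 (σ := σ) (r := r) hd0 hd1 hk1).trans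
      (lower1 hi0 hK hM1 hx1 hx3 hT1 htT hTM hmin hS1 hd0 hd1 hd hMc1 hk)).trans ?_
    exact le_mul_of_one_le_left (abs_nonneg _) hE1
  · refine series t h i0 hM0' hx1 hy0 (le_trans ?_ hMb)
    exact mul_le_mul_of_nonneg_left (div_le_div_of_nonneg_right hy hM0'.le) (by positivity)

end Pool.Agent.N586.GF
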