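import Pool.Agent.N586.GF.FinR

/-!
# Projects GF and SR: from boxes to digit matrices, and from one base to all bases
-/

set_option autoImplicit false

namespace Pool.Agent.N586.GF

open Finset Real Filter

/-- the word of the `k` digits in base `b` of `y` which follow the first `n` digits after the point,
read as an integer between `0` and `b ^ k - 1` -/
noncomputable def word (b k n : ℕ) (y : ℝ) : ℕ :=
  ⌊(b : ℝ) ^ k * Int.fract ((b : ℝ) ^ n * y)⌋₊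

/-- in every base `2 ≤ b ≤ B` every `r × k` digit matrix (row `j` is the word `D j` of `y j`) occurs
`N / b ^ (k r)` times, up to `ε N + E`, at the `N` places `s, …, s + N - 1`, for every window with
`L₀ ≤ s` and `s + N ≤ L` -/
def NormalIn {r : ℕ} (B : ℕ) (L₀ L ε E : ℝ) (y : Fin r → ℝ) : Prop :=
  ∀ (b k s N : ℕ) (D : Fin r → ℕ), 2 ≤ b → b ≤ B → 1 ≤ k → (∀ j, D j < b ^ k) →
    L₀ ≤ s → (s : ℝ) + N ≤ L →
    |(({i : ℕ | i < N ∧ ∀ j, word b k (s + i) (y j) = D j}.ncard : ℕ) : ℝ) -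
      N / ((b : ℝ) ^ k) ^ r| ≤ ε * N + E

lemma word_iff {b k n D : ℕ} (hb : 2 ≤ b) (y : ℝ) :
    word b k n y = D ↔ ((D : ℝ) / (b : ℝ) ^ k ≤ Int.fract ((b : ℝ) ^ n * y) ∧
      Int.fract ((b : ℝ) ^ n * y) < ((D : ℝ) + 1) / (b : ℝ) ^ k) := by
  have hbR : (2 : ℝ) ≤ b := by exact_mod_cast hb
  have hbk : (0 : ℝ) < (b : ℝ) ^ k := by positivity
  have h0 : 0 ≤ (b : ℝ) ^ k * Int.fract ((b : ℝ) ^ n * y) :=
    mul_nonneg hbk.le (Int.fract_nonneg _)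
  rw [word, Nat.floor_eq_iff h0, div_le_iff₀ hbk, lt_div_iff₀ hbk, mul_comm]

/-- digit matrices from boxes, one base -/
theorem words_of_eqB {r : ℕ} {ε E : ℝ} {s0 N1 b : ℕ} (hb : 2 ≤ b) {Y : Fin r → ℝ}
    (h : EqB ε E s0 N1 (fun n j => (b : ℝ) ^ n * Y j)) (k s N : ℕ) (D : Fin r → ℕ)
    (hD : ∀ j, D j < b ^ k) (hs : s0 ≤ s) (hN : s + N ≤ N1) :
    |(({i : ℕ | i < N ∧ ∀ j, word b k (s + i) (Y j) = D j}.ncard : ℕ) : ℝ) -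
      N / ((b : ℝ) ^ k) ^ r| ≤ ε * N + E := by
  classical
  have hbR : (2 : ℝ) ≤ b := by exact_mod_cast hb
  have hbk : (0 : ℝ) < (b : ℝ) ^ k := by positivity
  have h1 := h s N (fun j => (D j : ℝ) / (b : ℝ) ^ k) (fun j => ((D j : ℝ) + 1) / (b : ℝ) ^ k)
    hs hN (fun j => by positivity)
    (fun j => div_le_div_of_nonneg_right (by linarith) hbk.le)
    (fun j => by
      rw [div_le_one hbk]
      have := hD j
      exact_mod_cast this)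
  have h2 : {i : ℕ | i < N ∧ ∀ j, word b k (s + i) (Y j) = D j} =
      (((Finset.range N).filter (fun n => ∀ j, (D j : ℝ) / (b : ℝ) ^ k ≤
        Int.fract ((b : ℝ) ^ (s + n) * Y j) ∧
        Int.fract ((b : ℝ) ^ (s + n) * Y j) < ((D j : ℝ) + 1) / (b : ℝ) ^ k) : Finset ℕ) : Set ℕ) := by
    ext i
    simp only [Set.mem_ofPred_eq, Finset.coe_filter, Finset.mem_range]
    refine and_congr_right fun _ => forall_congr' fun j => word_iff hb _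
  have h3 : ∏ j : Fin r, (((D j : ℝ) + 1) / (b : ℝ) ^ k - (D j : ℝ) / (b : ℝ) ^ k) =
      1 / ((b : ℝ) ^ k) ^ r := by
    have h4 : ∀ j : Fin r, ((D j : ℝ) + 1) / (b : ℝ) ^ k - (D j : ℝ) / (b : ℝ) ^ k =
        1 / (b : ℝ) ^ k := fun j => by ring
    simp only [h4, Finset.prod_const, Finset.card_univ, Fintype.card_fin]
    rw [one_div_pow]
  rw [h2, Set.ncard_coe_finset]
  simp only [h3, mul_one_div] at h1
  exact h1

/-- all bases -/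
theorem normalIn_of {r : ℕ} {B : ℕ} {L₀ L ε E : ℝ} {Y : Fin r → ℝ} {C : ℕ → ℝ} {l : ℝ}
    (hC : ∀ b, 2 ≤ b → b ≤ B → C b * l ≤ L₀)
    (h : ∀ b, 2 ≤ b → b ≤ B → EqB ε E ⌈C b * l⌉₊ ⌊L⌋₊ (fun n j => (b : ℝ) ^ n * Y j)) :
    NormalIn B L₀ L ε E Y := by
  intro b k s N D hb hbB hk hD hs hN
  refine words_of_eqB hb (h b hb hbB) k s N D hD ?_ ?_
  · exact Nat.ceil_le.2 ((hC b hb hbB).trans hs)
  · exact Nat.le_floor (by push_cast; exact hN)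

/-- GF, all bases -/
theorem gf_all (hS : S_SUM) (hM : S_SMB) (r : ℕ) (hr : 1 ≤ r) (α β : ℝ)
    (F : Fin r → ℝ → ℝ) (hF : Indep α β F) (δ : ℝ) (hδ : 0 < δ) (hδ2 : δ < 1 / 2) (B : ℕ)
    (ε : ℝ) (hε : 0 < ε) : ∃ C : ℝ, 0 < C ∧ ∃ q0 : ℕ, ∀ q : ℕ, q0 ≤ q →
      ∀ α' β' : ℝ, α ≤ α' → β' ≤ β → (q : ℝ) ^ (4 / 5 : ℝ) ≤ (β' - α') * q →
      (({a : ℤ | α' ≤ (a : ℝ) / q ∧ (a : ℝ) / q ≤ β' ∧ ¬ NormalIn B (C * log q)
        ((log q) ^ (1 + δ)) ε (ε * log q) (fun j => F j ((a : ℝ) / q))}.ncard : ℕ) : ℝ) ≤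
        C * ((β' - α') * q) * (log q) ^ (δ - 1) := by
  classical
  have h0 : ∀ b : ℕ, ∃ (C : ℝ) (q0 : ℕ), 0 < C ∧ (2 ≤ b → ∀ q : ℕ, q0 ≤ q →
      ∀ α' β' : ℝ, α ≤ α' → β' ≤ β → (q : ℝ) ^ (4 / 5 : ℝ) ≤ (β' - α') * q →
      (({a : ℤ | α' ≤ (a : ℝ) / q ∧ (a : ℝ) / q ≤ β' ∧ ¬ EqB ε (ε * log q) ⌈C * log q⌉₊
        ⌊(log q) ^ (1 + δ)⌋₊ (fun n j => (b : ℝ) ^ n * F j ((a : ℝ) / q))}.ncard : ℕ) : ℝ) ≤
        C * ((β' - α') * q) * (log q) ^ (δ - 1)) := by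
    intro b
    by_cases hb : 2 ≤ b
    · obtain ⟨C, hC, q0, h⟩ := gf_main hS hM r hr α β F hF δ hδ hδ2 b hb ε hε
      exact ⟨C, q0, hC, fun _ => h⟩
    · exact ⟨1, 0, one_pos, fun h => absurd h hb⟩
  choose C q0 hC h using h0
  set S : Finset ℕ := Finset.Icc 2 B with hS'
  have hCb : ∀ b ∈ S, C b ≤ 1 + ∑ b ∈ S, C b := fun b hb => by
    have := single_le_sum (f := C) (fun i _ => (hC i).le) hb
    linarith
  have hqb : ∀ b ∈ S, q0 b ≤ 1 + ∑ b ∈ S, q0 b := fun b hb => by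
    have := single_le_sum (f := q0) (fun i _ => Nat.zero_le _) hb
    omega
  have hCpos : 0 < 1 + ∑ b ∈ S, C b := by
    have := sum_nonneg (s := S) (f := C) fun i _ => (hC i).le
    linarith
  refine ⟨1 + ∑ b ∈ S, C b, hCpos, 1 + ∑ b ∈ S, q0 b, fun q hq α' β' h1 h2 h3 => ?_⟩
  have hq1 : 1 ≤ q := by omega
  have hqR : (1 : ℝ) ≤ q := by exact_mod_cast hq1
  have hlog : 0 ≤ log (q : ℝ) := Real.log_nonneg hqR
  have hfin : {a : ℤ | α' ≤ (a : ℝ) / q ∧ (a : ℝ) / q ≤ β'}.Finite := by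
    refine (Set.finite_Icc ⌈α' * q⌉ ⌊β' * q⌋).subset ?_
    rintro a ⟨h4, h5⟩
    rw [le_div_iff₀ (by linarith)] at h4
    rw [div_le_iff₀ (by linarith)] at h5
    rw [Set.mem_Icc, Int.ceil_le, Int.le_floor]
    exact ⟨h4, h5⟩
  have hsub : {a : ℤ | α' ≤ (a : ℝ) / q ∧ (a : ℝ) / q ≤ β' ∧ ¬ NormalIn B
      ((1 + ∑ b ∈ S, C b) * log q)
        ((log q) ^ (1 + δ)) ε (ε * log q) (fun j => F j ((a : ℝ) / q))} ⊆
      ⋃ b ∈ S, {a : ℤ | α' ≤ (a : ℝ) / q ∧ (a : ℝ) / q ≤ β' ∧ ¬ EqB ε (ε * log q) ⌈C b * log q⌉₊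
        ⌊(log q) ^ (1 + δ)⌋₊ (fun n j => (b : ℝ) ^ n * F j ((a : ℝ) / q))} := by
    rintro a ⟨h4, h5, h6⟩
    by_contra hcon
    apply h6
    refine normalIn_of (C := C) (l := log q) (fun b hb hbB => ?_) (fun b hb hbB => ?_)
    · exact mul_le_mul_of_nonneg_right (hCb b (Finset.mem_Icc.2 ⟨hb, hbB⟩)) hlog
    · by_contra h7
      apply hcon
      simp only [Set.mem_iUnion]
      exact ⟨b, Finset.mem_Icc.2 ⟨hb, hbB⟩, h4, h5, h7⟩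
  have hfin2 : (⋃ b ∈ S, {a : ℤ | α' ≤ (a : ℝ) / q ∧ (a : ℝ) / q ≤ β' ∧ ¬ EqB ε (ε * log q)
      ⌈C b * log q⌉₊ ⌊(log q) ^ (1 + δ)⌋₊ (fun n j => (b : ℝ) ^ n * F j ((a : ℝ) / q))}).Finite := by
    refine hfin.subset ?_
    intro a ha
    simp only [Set.mem_iUnion] at ha
    obtain ⟨b, _, h4, h5, _⟩ := ha
    exact ⟨h4, h5⟩
  have h8 : 0 ≤ (log (q : ℝ)) ^ (δ - 1) := Real.rpow_nonneg hlog _
  calc (({a : ℤ | α' ≤ (a : ℝ) / q ∧ (a : ℝ) / q ≤ β' ∧ ¬ NormalIn B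
      ((1 + ∑ b ∈ S, C b) * log q)
        ((log q) ^ (1 + δ)) ε (ε * log q) (fun j => F j ((a : ℝ) / q))}.ncard : ℕ) : ℝ)
      ≤ (((⋃ b ∈ S, {a : ℤ | α' ≤ (a : ℝ) / q ∧ (a : ℝ) / q ≤ β' ∧ ¬ EqB ε (ε * log q)
        ⌈C b * log q⌉₊ ⌊(log q) ^ (1 + δ)⌋₊
        (fun n j => (b : ℝ) ^ n * F j ((a : ℝ) / q))}).ncard : ℕ) : ℝ) :=
        Nat.cast_le.2 (Set.ncard_le_ncard hsub hfin2)
    _ ≤ ((∑ b ∈ S, {a : ℤ | α' ≤ (a : ℝ) / q ∧ (a : ℝ) / q ≤ β' ∧ ¬ EqB ε (ε * log q)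
        ⌈C b * log q⌉₊ ⌊(log q) ^ (1 + δ)⌋₊
        (fun n j => (b : ℝ) ^ n * F j ((a : ℝ) / q))}.ncard : ℕ) : ℝ) :=
        Nat.cast_le.2 (Finset.set_ncard_biUnion_le _ _)
    _ = ∑ b ∈ S, (({a : ℤ | α' ≤ (a : ℝ) / q ∧ (a : ℝ) / q ≤ β' ∧ ¬ EqB ε (ε * log q)
        ⌈C b * log q⌉₊ ⌊(log q) ^ (1 + δ)⌋₊
        (fun n j => (b : ℝ) ^ n * F j ((a : ℝ) / q))}.ncard : ℕ) : ℝ) := by push_cast; rfl
    _ ≤ ∑ b ∈ S, C b * ((β' - α') * q) * (log q) ^ (δ - 1) := by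
        refine sum_le_sum fun b hb => ?_
        exact h b (Finset.mem_Icc.1 hb).1 q ((hqb b hb).trans hq) α' β' h1 h2 h3
    _ = (∑ b ∈ S, C b) * (((β' - α') * q) * (log q) ^ (δ - 1)) := by
        rw [sum_mul]
        refine sum_congr rfl fun b _ => ?_
        ring
    _ ≤ (1 + ∑ b ∈ S, C b) * (((β' - α') * q) * (log q) ^ (δ - 1)) := by
        apply mul_le_mul_of_nonneg_right (by linarith)
        apply mul_nonneg _ h8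
        exact le_trans (by positivity) h3
    _ = _ := by ring

end Pool.Agent.N586.GF
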