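import Pool.Agent.N586.GF.Stm3
import Pool.Agent.N586.JT.Stm
import Pool.Agent.Y933.KG.Nrm
import Pool.Agent.N586.GF.Words

/-!
# Projects GF and SR, second part: from small exponential sums to digit matrices with very few
exceptions, for finite families
-/

set_option autoImplicit false

namespace Pool.Agent.N586.GF

open Finset Real Filter MeasureTheory
open Pool.Agent.Y933.KD (e wd)
open Pool.Agent.Y951.TU (hat lin lin_apply unif unif_prob integral_unif real_unif)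
open Pool.Agent.N586.JT (S_BT NwT)

open Classical in
/-- all digit matrices with `k ≤ w` columns have the right frequency in all windows between `n0` and
`L` in base `b`, up to `ε N + E` -/
def NwW {r : ℕ} (b w n0 : ℕ) (L ε E : ℝ) (y : Fin r → ℝ) : Prop :=
  ∀ (k s N : ℕ) (D : Fin r → ℕ), 1 ≤ k → k ≤ w → (∀ j, D j < b ^ k) → n0 ≤ s → (s : ℝ) + N ≤ L →
    |(((Finset.range N).filter (fun i => ∀ j, wd b k (s + i) (y j) = D j)).card : ℝ) -
      N / ((b : ℝ) ^ k) ^ r| ≤ ε * N + E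

open Classical in
/-- nearly all members of a finite family with small exponential sums are jointly normal -/
theorem fam (hBT : S_BT) (b w r : ℕ) (ε : ℝ) (hb : 2 ≤ b) (hr : 1 ≤ r) (hε : 0 < ε) :
    ∃ c : ℝ, 0 < c ∧ ∃ τ0 : ℝ, ∀ τ : ℝ, τ0 ≤ τ → ∀ T : ℝ, 1 ≤ T → ∀ (I : Finset ℕ)
    (Y : ℕ → Fin r → ℝ) (n0 : ℕ), I.Nonempty →
    (∀ (n : ℕ) (h : Fin r → ℤ), (n : ℝ) ≤ T → h ≠ 0 → (∀ j, |(h j : ℝ)| ≤ Real.exp τ) →
      ‖∑ m ∈ I, e ((b : ℝ) ^ (n0 + n) * ∑ j, (h j : ℝ) * Y m j)‖ ≤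
        (I.card : ℝ) * Real.exp (-τ)) →
    ((I.filter (fun m => ¬ NwW b w n0 T ε τ (Y m))).card : ℝ) ≤
      I.card * (T * Real.exp (-(c * τ))) := by
  obtain ⟨c, hc, τ0, h⟩ := hBT b w r ε hb hr hε
  refine ⟨c, hc, τ0, fun τ hτ T hT I Y n0 hI hY => ?_⟩
  have hcard0 : (0 : ℝ) < (I.card : ℝ) := by exact_mod_cast hI.card_pos
  obtain ⟨U, hU, hPU, hx⟩ := h τ hτ T hT (unif I (fun m j => (b : ℝ) ^ n0 * Y m j))
    (unif_prob hI _) (fun n l hn hl hl2 => by
      unfold hat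
      rw [integral_unif]
      have e1 : ∑ m ∈ I, e (lin r (fun j => l j * (b : ℤ) ^ n) (fun j => (b : ℝ) ^ n0 * Y m j)) =
          ∑ m ∈ I, e ((b : ℝ) ^ (n0 + n) * ∑ j, (l j : ℝ) * Y m j) := by
        refine sum_congr rfl fun m _ => ?_
        congr 1
        rw [lin_apply, mul_sum]
        refine sum_congr rfl fun j _ => ?_
        push_cast
        rw [pow_add]
        ring
      rw [e1, norm_mul, norm_div, norm_one, Complex.norm_natCast, one_div,
        inv_mul_le_iff₀ hcard0]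
      exact hY n l hn hl hl2)
  rw [real_unif _ _ hU, div_le_iff₀ hcard0, mul_comm _ (I.card : ℝ)] at hPU
  refine le_trans ?_ hPU
  refine Nat.cast_le.2 (Finset.card_le_card fun m hm => ?_)
  rw [Finset.mem_filter] at hm ⊢
  refine ⟨hm.1, ?_⟩
  by_contra hmU
  apply hm.2
  have h1 := hx _ hmU
  intro k s N D hk hkw hD hs hsN
  obtain ⟨s', rfl⟩ : ∃ s', s = n0 + s' := ⟨s - n0, by omega⟩
  have h2 := h1 k s' N D hk hkw hD (by
    have : (s' : ℝ) ≤ ((n0 + s' : ℕ) : ℝ) := by exact_mod_cast Nat.le_add_left _ _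
    linarith)
  have h5 : (Finset.range N).filter
      (fun i => ∀ j, wd b k (s' + i) ((b : ℝ) ^ n0 * Y m j) = D j) =
      (Finset.range N).filter (fun i => ∀ j, wd b k (n0 + s' + i) (Y m j) = D j) := by
    refine Finset.filter_congr fun i _ => ?_
    refine forall_congr' fun j => ?_
    rw [Pool.Agent.Y933.KG.wd_shift, add_assoc]
  rw [← h5]
  convert h2 using 5

end Pool.Agent.N586.GF
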