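import Pool.Agent.N586.GF.Stm2
import Pool.Agent.N586.KO.Prog

/-!
# Projects GF and SR: assembly
-/

set_option autoImplicit false

namespace Pool.Agent.N586.GF

open Finset Real Filter
open Pool.Agent.Y933.KD (e wd)
open Pool.Agent.Y933.KD.VdC (ev_le)
open Pool.Agent.N586.RT (logpow log_ge)
open Pool.Agent.N586.KO (MM int_interval)

lemma EqB.mono {r : ℕ} {ε E E' : ℝ} {s0 s0' N1 N1' : ℕ} {y : ℕ → Fin r → ℝ}
    (h : EqB ε E s0 N1 y) (hE : E ≤ E') (hs : s0 ≤ s0') (hN : N1' ≤ N1) :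
    EqB ε E' s0' N1' y := fun s N u v hs' hN' hu huv hv =>
  (h s N u v (hs.trans hs') (hN'.trans hN) hu huv hv).trans (by linarith)

/-- `MM q ^ 2` is small -/
lemma MM_small {q : ℕ} (hq : 1 ≤ q) : (MM q : ℝ) ^ 2 ≤ (q : ℝ) ^ (78 / 100 : ℝ) := by
  have hq0 : (0 : ℝ) < q := by exact_mod_cast (by omega : 0 < q)
  have h1 : (MM q : ℝ) ≤ (q : ℝ) ^ (39 / 100 : ℝ) := Nat.floor_le (by positivity)
  calc (MM q : ℝ) ^ 2 ≤ ((q : ℝ) ^ (39 / 100 : ℝ)) ^ 2 := pow_le_pow_left₀ (by positivity) h1 2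
    _ = (q : ℝ) ^ (78 / 100 : ℝ) := by
      rw [← Real.rpow_natCast, ← Real.rpow_mul hq0.le]; norm_num

open Classical in
/-- the second moment method with the standard parameters -/
theorem smb_apply (hM : S_SMB) (r : ℕ) (hr : 1 ≤ r) (ε δ : ℝ) (hε : 0 < ε) (hδ : 0 < δ) :
    ∃ K : ℕ, ∃ C : ℝ, 0 < C ∧ ∃ q0 : ℕ, ∀ q : ℕ, q0 ≤ q → ∀ (I : Finset ℕ)
    (z : ℕ → ℕ → Fin r → ℝ) (s0 : ℕ), s0 ≤ ⌊(log q) ^ (1 + δ)⌋₊ →
    (∀ h : Fin r → ℤ, (∀ j, |h j| ≤ K) → h ≠ 0 → ∀ n n' : ℕ, s0 ≤ n' → n' < n →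
      n ≤ ⌊(log q) ^ (1 + δ)⌋₊ →
      ‖∑ a ∈ I, e (∑ j, (h j : ℝ) * (z a n j - z a n' j))‖ ≤ 1 / log q * (I.card : ℝ)) →
    ((I.filter (fun a => ¬ EqB ε (ε * log q) s0 ⌊(log q) ^ (1 + δ)⌋₊ (z a))).card : ℝ) ≤
      C * (I.card : ℝ) * (log q) ^ (δ - 1) := by
  obtain ⟨K, C, hC, h⟩ := hM r ε hr hε
  refine ⟨K, (C + 1) * ((4 / ε + 1) * (4 / ε + 1)), by positivity, ?_⟩
  obtain ⟨q0, hq0⟩ := eventually_atTop.1 ((log_ge (4 / ε)).and (log_ge 1))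
  refine ⟨q0, fun q hq I z s0 hs0 hz => ?_⟩
  obtain ⟨hL1, hL2⟩ := hq0 q hq
  obtain ⟨L, hL⟩ : ∃ L : ℝ, L = log q := ⟨_, rfl⟩
  rw [← hL] at hL1 hL2 hz hs0 ⊢
  have hL0 : 0 < L := by linarith
  have hεL : 4 ≤ ε * L := by
    rw [div_le_iff₀ hε] at hL1
    linarith
  set ℓ : ℕ := ⌊ε * L / 2⌋₊ with hℓ
  have hℓ1 : 1 ≤ ℓ := Nat.le_floor (by push_cast; linarith)
  have hℓu : (ℓ : ℝ) ≤ ε * L / 2 := Nat.floor_le (by positivity)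
  have hℓl : ε * L / 4 ≤ ℓ := by
    have := (Nat.lt_floor_add_one (ε * L / 2)).le
    rw [← hℓ] at this
    linarith
  have hℓ0 : (0 : ℝ) < ℓ := by exact_mod_cast (by omega : 0 < ℓ)
  set N1 : ℕ := ⌊L ^ (1 + δ)⌋₊ with hN1
  have hN1u : (N1 : ℝ) ≤ L ^ (1 + δ) := Nat.floor_le (by positivity)
  have hmain := h I z s0 N1 ℓ (1 / L) hℓ1 hs0 (by positivity) hz
  have hsub : I.filter (fun a => ¬ EqB ε (ε * L) s0 N1 (z a)) ⊆
      I.filter (fun a => ¬ EqB ε (2 * ℓ) s0 N1 (z a)) := by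
    intro a ha
    rw [Finset.mem_filter] at ha ⊢
    exact ⟨ha.1, fun h1 => ha.2 (h1.mono (by linarith) le_rfl le_rfl)⟩
  refine (Nat.cast_le.2 (card_le_card hsub)).trans (hmain.trans ?_)
  have hinv : 1 / (ℓ : ℝ) ≤ 4 / ε * (1 / L) := by
    calc 1 / (ℓ : ℝ) ≤ 1 / (ε * L / 4) := one_div_le_one_div_of_le (by positivity) hℓl
      _ = 4 / ε * (1 / L) := by field_simp
  have h1 : (N1 : ℝ) / ℓ + 1 ≤ (4 / ε + 1) * L ^ δ := by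
    have h2 : (N1 : ℝ) / ℓ ≤ 4 / ε * L ^ δ := by
      calc (N1 : ℝ) / ℓ = N1 * (1 / ℓ) := by ring
        _ ≤ L ^ (1 + δ) * (4 / ε * (1 / L)) := mul_le_mul hN1u hinv (by positivity) (by positivity)
        _ = 4 / ε * L ^ δ := by
          rw [Real.rpow_add hL0, Real.rpow_one]
          field_simp
    have h3 : 1 ≤ L ^ δ := Real.one_le_rpow hL2 hδ.le
    linarith
  have h2 : 1 / (ℓ : ℝ) + 1 / L ≤ (4 / ε + 1) * L ^ (-1 : ℝ) := by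
    rw [Real.rpow_neg_one, ← one_div]
    linarith
  have h4 : L ^ δ * L ^ (-1 : ℝ) = L ^ (δ - 1) := by
    rw [← Real.rpow_add hL0]
    rfl
  calc C * (I.card : ℝ) * ((N1 : ℝ) / ℓ + 1) * (1 / ℓ + 1 / L)
      ≤ (C + 1) * (I.card : ℝ) * ((4 / ε + 1) * L ^ δ) * ((4 / ε + 1) * L ^ (-1 : ℝ)) := by
        have h5 : C * (I.card : ℝ) ≤ (C + 1) * (I.card : ℝ) :=
          mul_le_mul_of_nonneg_right (by linarith) (Nat.cast_nonneg _)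
        have h6 : 0 ≤ C * (I.card : ℝ) := by positivity
        gcongr
    _ = (C + 1) * ((4 / ε + 1) * (4 / ε + 1)) * (I.card : ℝ) * (L ^ δ * L ^ (-1 : ℝ)) := by ring
    _ = _ := by rw [h4]

/-- common constants for finitely many combinations -/
lemma indep_common {r : ℕ} {α β : ℝ} {F : Fin r → ℝ → ℝ} (hF : Indep α β F) (K : ℕ) :
    ∃ (C A : ℝ) (k0 : ℕ), 1 ≤ C ∧ 0 ≤ A ∧ ∀ h : Fin r → ℤ, (∀ j, |h j| ≤ K) → h ≠ 0 →
    ∀ x : ℝ, α ≤ x → x ≤ β → ∃ c : ℕ → ℝ, (∀ k, |c k| ≤ C ^ (k + 1)) ∧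
      (∀ k, k0 ≤ k → Real.exp (-(A * (k : ℝ) ^ 2)) ≤ |c k|) ∧
      ∀ y : ℝ, 0 ≤ y → C * y < 1 →
        HasSum (fun k : ℕ => c k * y ^ k) (∑ j, (h j : ℝ) * F j (x + y)) := by
  classical
  have h1 : ∀ h : Fin r → ℤ, ∃ (C A : ℝ) (k0 : ℕ), 1 ≤ C ∧ 0 ≤ A ∧ (h ≠ 0 →
      ∀ x : ℝ, α ≤ x → x ≤ β → ∃ c : ℕ → ℝ, (∀ k, |c k| ≤ C ^ (k + 1)) ∧
      (∀ k, k0 ≤ k → Real.exp (-(A * (k : ℝ) ^ 2)) ≤ |c k|) ∧
      ∀ y : ℝ, 0 ≤ y → C * y < 1 →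
        HasSum (fun k : ℕ => c k * y ^ k) (∑ j, (h j : ℝ) * F j (x + y))) := by
    intro h
    by_cases hh : h = 0
    · exact ⟨1, 0, 0, le_rfl, le_rfl, fun h2 => absurd hh h2⟩
    · obtain ⟨C, A, k0, hC, hA, h2⟩ := hF h hh
      exact ⟨C, A, k0, hC, hA, fun _ => h2⟩
  choose C A k0 hC hA hP using h1
  set S : Finset (Fin r → ℤ) := Fintype.piFinset (fun _ => Finset.Icc (-(K : ℤ)) K) with hS
  refine ⟨1 + ∑ h ∈ S, C h, ∑ h ∈ S, A h, ∑ h ∈ S, k0 h, ?_, sum_nonneg fun h _ => hA h, ?_⟩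
  · have : 0 ≤ ∑ h ∈ S, C h := sum_nonneg fun h _ => zero_le_one.trans (hC h)
    linarith
  · intro h hK hh x hx1 hx2
    have hmem : h ∈ S := by
      rw [hS, Fintype.mem_piFinset]
      intro j
      rw [Finset.mem_Icc]
      exact abs_le.1 (hK j)
    have hCle : C h ≤ 1 + ∑ h ∈ S, C h := by
      have := single_le_sum (f := C) (fun i _ => zero_le_one.trans (hC i)) hmem
      linarith
    have hAle : A h ≤ ∑ h ∈ S, A h := single_le_sum (f := A) (fun i _ => hA i) hmem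
    have hkle : k0 h ≤ ∑ h ∈ S, k0 h := single_le_sum (f := k0) (fun i _ => Nat.zero_le _) hmem
    obtain ⟨c, hc1, hc2, hc3⟩ := hP h hh x hx1 hx2
    refine ⟨c, fun k => (hc1 k).trans (pow_le_pow_left₀ (zero_le_one.trans (hC h)) hCle _),
      fun k hk => le_trans ?_ (hc2 k (hkle.trans hk)), fun y hy hCy => hc3 y hy ?_⟩
    · apply Real.exp_le_exp.2
      have := mul_le_mul_of_nonneg_right hAle (by positivity : (0 : ℝ) ≤ (k : ℝ) ^ 2)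
      linarith
    · exact lt_of_le_of_lt (mul_le_mul_of_nonneg_right hCle hy) hCy

/-- bounds for the differences of powers of the base -/
lemma pow_diff {b n n' : ℕ} (hb : 2 ≤ b) (hn : n' < n) :
    (b : ℝ) ^ n' ≤ |(b : ℝ) ^ n - (b : ℝ) ^ n'| ∧ |(b : ℝ) ^ n - (b : ℝ) ^ n'| ≤ (b : ℝ) ^ n := by
  have hbR : (2 : ℝ) ≤ b := by exact_mod_cast hb
  have h1 : (b : ℝ) ^ (n' + 1) ≤ (b : ℝ) ^ n := pow_le_pow_right₀ (by linarith) hn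
  have h2 : (0 : ℝ) < (b : ℝ) ^ n' := by positivity
  rw [pow_succ] at h1
  have h3 : (b : ℝ) ^ n' * 2 ≤ (b : ℝ) ^ n' * b := mul_le_mul_of_nonneg_left hbR h2.le
  rw [abs_of_nonneg (by linarith)]
  exact ⟨by linarith, by linarith⟩

end Pool.Agent.N586.GF
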