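import Pool.Agent.N586.GF.Fin
import Pool.Agent.N586.AN.Fin3

/-!
# Project GF: assembly
-/

set_option autoImplicit false

namespace Pool.Agent.N586.GF

open Finset Real Filter
open Pool.Agent.Y933.KD (e wd)
open Pool.Agent.Y933.KD.VdC (ev_le)
open Pool.Agent.N586.RT (logpow log_ge)
open Pool.Agent.N586.KO (MM int_interval)
open Pool.Agent.N586.AN (exp_beats)

open Classical in
lemma int_count (a0 : ℤ) (B : ℕ) (P : ℤ → Prop) (S : Set ℤ)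
    (hS : ∀ a ∈ S, a0 ≤ a ∧ a ≤ a0 + B ∧ P a) :
    S.ncard ≤ ((Finset.Icc 0 B).filter (fun k : ℕ => P (a0 + k))).card := by
  have hsub : S ⊆ ((((Finset.Icc 0 B).filter (fun k : ℕ => P (a0 + k))).image
      (fun k : ℕ => a0 + (k : ℤ)) : Finset ℤ) : Set ℤ) := by
    intro a ha
    obtain ⟨h1, h2, h3⟩ := hS a ha
    rw [Finset.mem_coe, Finset.mem_image]
    refine ⟨(a - a0).toNat, ?_, ?_⟩
    · rw [Finset.mem_filter, Finset.mem_Icc]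
      refine ⟨⟨Nat.zero_le _, by omega⟩, ?_⟩
      have h4 : a0 + (((a - a0).toNat : ℕ) : ℤ) = a := by omega
      rw [h4]
      exact h3
    · show a0 + (((a - a0).toNat : ℕ) : ℤ) = a
      omega
  have h5 := Set.ncard_le_ncard hsub (Finset.finite_toSet _)
  rw [Set.ncard_coe_finset] at h5
  exact h5.trans Finset.card_image_le

/-- `b ^ n` is at least `q ^ k` for `n ≥ (k / log 2) log q` -/
lemma pow_lower {b k n : ℕ} {q : ℝ} (hb : 2 ≤ b) (hq : 0 < q) (hn : (k : ℝ) / log 2 * log q ≤ n) :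
    q ^ k ≤ (b : ℝ) ^ n := by
  have hbR : (2 : ℝ) ≤ b := by exact_mod_cast hb
  have h2 : 0 < log 2 := Real.log_pos (by norm_num)
  have h1 : (2 : ℝ) ^ n ≤ (b : ℝ) ^ n := pow_le_pow_left₀ (by norm_num) hbR n
  refine le_trans ?_ h1
  have h3 : q ^ k = Real.exp (k * log q) := by
    rw [mul_comm, Real.exp_mul, Real.exp_log hq, Real.rpow_natCast]
  have h4 : (2 : ℝ) ^ n = Real.exp (n * log 2) := by
    rw [mul_comm, Real.exp_mul, Real.exp_log (by norm_num), Real.rpow_natCast]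
  rw [h3, h4]
  apply Real.exp_le_exp.2
  calc (k : ℝ) * log q = k / log 2 * log q * log 2 := by field_simp
    _ ≤ n * log 2 := mul_le_mul_of_nonneg_right hn h2.le

lemma pow_upper {b n : ℕ} {L δ δ1 : ℝ} (hb : 2 ≤ b) (hn : (n : ℝ) ≤ L ^ (1 + δ))
    (h : log b * L ^ (1 + δ) ≤ L ^ (1 + δ1)) : (b : ℝ) ^ n ≤ Real.exp (L ^ (1 + δ1)) := by
  have hbR : (2 : ℝ) ≤ b := by exact_mod_cast hb
  have h4 : (b : ℝ) ^ n = Real.exp (n * log b) := by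
    rw [mul_comm, Real.exp_mul, Real.exp_log (by linarith), Real.rpow_natCast]
  rw [h4]
  apply Real.exp_le_exp.2
  have h5 : 0 ≤ log (b : ℝ) := Real.log_nonneg (by linarith)
  calc (n : ℝ) * log b ≤ L ^ (1 + δ) * log b := mul_le_mul_of_nonneg_right hn h5
    _ ≤ _ := by rw [mul_comm]; exact h

open Classical in
theorem gf_main (hS : S_SUM) (hM : S_SMB) (r : ℕ) (hr : 1 ≤ r) (α β : ℝ)
    (F : Fin r → ℝ → ℝ) (hF : Indep α β F) (δ : ℝ) (hδ : 0 < δ) (hδ2 : δ < 1 / 2) (b : ℕ)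
    (hb : 2 ≤ b) (ε : ℝ) (hε : 0 < ε) : ∃ C : ℝ, 0 < C ∧ ∃ q0 : ℕ, ∀ q : ℕ, q0 ≤ q →
      ∀ α' β' : ℝ, α ≤ α' → β' ≤ β → (q : ℝ) ^ (4 / 5 : ℝ) ≤ (β' - α') * q →
      (({a : ℤ | α' ≤ (a : ℝ) / q ∧ (a : ℝ) / q ≤ β' ∧ ¬ EqB ε (ε * log q) ⌈C * log q⌉₊
        ⌊(log q) ^ (1 + δ)⌋₊ (fun n j => (b : ℝ) ^ n * F j ((a : ℝ) / q))}.ncard : ℕ) : ℝ) ≤
        C * ((β' - α') * q) * (log q) ^ (δ - 1) := by
  obtain ⟨K, C1, hC1, q1, h1⟩ := smb_apply hM r hr ε δ hε hδ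
  obtain ⟨Cc, A, k0, hCc, hA, hcom⟩ := indep_common hF K
  set δ1 : ℝ := (δ + 1 / 2) / 2 with hδ1
  set β1 : ℝ := (1 / 2 - δ) / 2 with hβ1
  have hδ10 : 0 < δ1 := by rw [hδ1]; linarith
  have hβ10 : 0 < β1 := by rw [hβ1]; linarith
  obtain ⟨q2, h2⟩ := hS Cc A δ1 β1 k0 hCc hA hδ10 hβ10 (by rw [hδ1, hβ1]; linarith)
  have hlog2 : 0 < log 2 := Real.log_pos (by norm_num)
  set C0 : ℝ := ((k0 + 2 : ℕ) : ℝ) / log 2 with hC0
  have hC00 : 0 < C0 := by positivity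
  set C : ℝ := C0 + 1 + C1 * 2 with hCdef
  have hC : 0 < C := by positivity
  refine ⟨C, hC, ?_⟩
  obtain ⟨q3, hq3⟩ := eventually_atTop.1 ((((((((log_ge 1).and
    (logpow (by linarith : (1 : ℝ) < 1 + δ) (C0 + 1))).and
    (logpow (by rw [hδ1]; linarith : 1 + δ < 1 + δ1) (log b))).and
    (ev_le 800 (1 / 100) (by norm_num))).and
    (exp_beats 2 β1 hβ10)).and
    (ev_le (2 * Cc) (1 / 5) (by norm_num))).and (ev_le 2 (4 / 5) (by norm_num))).and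
    (eventually_ge_atTop 2))
  refine ⟨max (max q1 q2) q3, fun q hq α' β' hαα hββ hlen => ?_⟩
  have hqq1 : q1 ≤ q := (le_max_left _ _).trans ((le_max_left _ _).trans hq)
  have hqq2 : q2 ≤ q := (le_max_right _ _).trans ((le_max_left _ _).trans hq)
  obtain ⟨⟨⟨⟨⟨⟨⟨hL1, hLδ⟩, hLb⟩, hq80⟩, hexp⟩, hCq⟩, hqba⟩, hq2⟩ := hq3 q ((le_max_right _ _).trans hq)
  have hqR : (2 : ℝ) ≤ q := by exact_mod_cast hq2
  have hq0 : (0 : ℝ) < q := by linarith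
  have h1q := h1 q hqq1
  have h2q := h2 q hqq2
  obtain ⟨L, hL⟩ : ∃ L : ℝ, L = log q := ⟨_, rfl⟩
  rw [← hL] at hL1 hLδ hLb hexp h1q h2q ⊢
  rw [Real.rpow_one] at hLδ
  have hL0 : 0 < L := by linarith
  -- the interval
  have hqba2 : 2 ≤ β' * q - α' * q := by linarith
  obtain ⟨a0, B, hB1, hB2, hB3⟩ := int_interval (α' * q) (β' * q) hqba2
  have hcard : (((Finset.Icc 0 B).card : ℕ) : ℝ) = (B : ℝ) + 1 := by
    rw [Nat.card_Icc]; push_cast; ring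
  have hrange : ∀ k : ℕ, k ≤ B → α ≤ (((a0 + k : ℤ) : ℝ)) / q ∧ (((a0 + k : ℤ) : ℝ)) / q ≤ β := by
    intro k hk
    obtain ⟨h3, h4⟩ := (hB1 (a0 + k)).2 ⟨by omega, by omega⟩
    rw [le_div_iff₀ hq0, div_le_iff₀ hq0]
    exact ⟨(mul_le_mul_of_nonneg_right hαα hq0.le).trans h3,
      h4.trans (mul_le_mul_of_nonneg_right hββ hq0.le)⟩
  -- the exponential sums
  set s0 : ℕ := ⌈C0 * L⌉₊ with hs0
  have hs0u : (s0 : ℝ) ≤ (C0 + 1) * L := by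
    have := (Nat.ceil_lt_add_one (by positivity : 0 ≤ C0 * L)).le
    rw [← hs0] at this
    linarith
  have hs0N : s0 ≤ ⌊L ^ (1 + δ)⌋₊ := Nat.le_floor (hs0u.trans hLδ)
  have hLq : L ≤ 100 * (q : ℝ) ^ (1 / 100 : ℝ) := by
    have := Real.log_le_rpow_div hq0.le (by norm_num : (0 : ℝ) < 1 / 100)
    rw [← hL] at this
    calc L ≤ (q : ℝ) ^ (1 / 100 : ℝ) / (1 / 100) := this
      _ = 100 * (q : ℝ) ^ (1 / 100 : ℝ) := by ring
  have hMMs : 2 * (MM q : ℝ) ^ 2 ≤ 1 / (2 * L) * ((B : ℝ) + 1) := by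
    have h3 := MM_small (q := q) (by omega)
    have h4 : (q : ℝ) ^ (4 / 5 : ℝ) = (q : ℝ) ^ (78 / 100 : ℝ) * ((q : ℝ) ^ (1 / 100 : ℝ) *
        (q : ℝ) ^ (1 / 100 : ℝ)) := by
      rw [← Real.rpow_add hq0, ← Real.rpow_add hq0]; norm_num
    have h5 : 0 < (q : ℝ) ^ (1 / 100 : ℝ) := by positivity
    have h6 : 0 < (q : ℝ) ^ (78 / 100 : ℝ) := by positivity
    have h7 : 8 * L ≤ (q : ℝ) ^ (1 / 100 : ℝ) * (q : ℝ) ^ (1 / 100 : ℝ) := by
      nlinarith [hLq, hq80, h5]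
    have h8 : 2 * (MM q : ℝ) ^ 2 * (2 * L) ≤ (B : ℝ) + 1 := by
      calc 2 * (MM q : ℝ) ^ 2 * (2 * L) = (MM q : ℝ) ^ 2 * (8 * L) / 2 := by ring
        _ ≤ (q : ℝ) ^ (78 / 100 : ℝ) * ((q : ℝ) ^ (1 / 100 : ℝ) * (q : ℝ) ^ (1 / 100 : ℝ)) / 2 := by
          have := mul_le_mul h3 h7 (by positivity) h6.le
          linarith
        _ = (q : ℝ) ^ (4 / 5 : ℝ) / 2 := by rw [← h4]
        _ ≤ (B : ℝ) + 1 := by linarith
    calc 2 * (MM q : ℝ) ^ 2 = 1 / (2 * L) * (2 * (MM q : ℝ) ^ 2 * (2 * L)) := by field_simp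
      _ ≤ 1 / (2 * L) * ((B : ℝ) + 1) := mul_le_mul_of_nonneg_left h8 (by positivity)
  have hexp2 : Real.exp (-L ^ β1) ≤ 1 / (2 * L) := by
    rw [Real.exp_neg, ← one_div]
    exact one_div_le_one_div_of_le (by positivity) hexp
  have hz : ∀ h : Fin r → ℤ, (∀ j, |h j| ≤ K) → h ≠ 0 → ∀ n n' : ℕ, s0 ≤ n' → n' < n →
      n ≤ ⌊L ^ (1 + δ)⌋₊ →
      ‖∑ k ∈ Finset.Icc 0 B, e (∑ j, (h j : ℝ) * ((b : ℝ) ^ n * F j ((((a0 + k : ℤ) : ℝ)) / q) -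
        (b : ℝ) ^ n' * F j ((((a0 + k : ℤ) : ℝ)) / q)))‖ ≤ 1 / L * ((Finset.Icc 0 B).card : ℝ) := by
    intro h hK hh n n' hn' hnn hn
    obtain ⟨hθ1, hθ2⟩ := pow_diff hb hnn
    set θ : ℝ := (b : ℝ) ^ n - (b : ℝ) ^ n' with hθ
    have hnR : (n : ℝ) ≤ L ^ (1 + δ) :=
      le_trans (by exact_mod_cast hn) (Nat.floor_le (by positivity))
    have hn'R : C0 * L ≤ n' := le_trans (Nat.le_ceil _) (by exact_mod_cast hn')
    have h3 := h2q 0 B L θ (fun t => θ * ∑ j, (h j : ℝ) * F j (((a0 : ℝ) + t) / q)) le_rfl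
      ((pow_lower hb hq0 (by rw [← hL]; exact hn'R)).trans hθ1) (hθ2.trans (pow_upper hb hnR hLb))
      (by
        intro a _ ha
        obtain ⟨hx1, hx2⟩ := hrange a ha
        obtain ⟨c, hc1, hc2, hc3⟩ := hcom h hK hh _ hx1 hx2
        refine ⟨c, ⟨hc1, fun k hk _ => hc2 k hk⟩, fun y hy0 hy => ?_⟩
        have h4 : Cc * (y / q) < 1 := by
          have h5 : (q : ℝ) = (q : ℝ) ^ (4 / 5 : ℝ) * (q : ℝ) ^ (1 / 5 : ℝ) := by
            rw [← Real.rpow_add hq0]; norm_num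
          have h6 : Cc * y < q := by
            have h7 : 0 < (q : ℝ) ^ (4 / 5 : ℝ) := by positivity
            calc Cc * y ≤ Cc * (q : ℝ) ^ (4 / 5 : ℝ) := mul_le_mul_of_nonneg_left hy (by linarith)
              _ < 2 * Cc * (q : ℝ) ^ (4 / 5 : ℝ) := by nlinarith
              _ ≤ (q : ℝ) ^ (1 / 5 : ℝ) * (q : ℝ) ^ (4 / 5 : ℝ) :=
                mul_le_mul_of_nonneg_right hCq h7.le
              _ = q := by rw [mul_comm, ← h5]
          rw [← mul_div_assoc, div_lt_one hq0]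
          exact h6
        have h5 := (hc3 (y / q) (by positivity) h4).mul_left θ
        have h6 : (fun k : ℕ => θ * (c k * (y / q) ^ k)) = (fun k : ℕ => θ * c k * (y / q) ^ k) := by
          funext k; ring
        have h7 : (((a0 + a : ℤ) : ℝ)) / q + y / q = ((a0 : ℝ) + ((a : ℝ) + y)) / q := by
          push_cast
          ring
        rw [h6, h7] at h5
        exact h5)
    have h4 : ∀ k : ℕ, (∑ j, (h j : ℝ) * ((b : ℝ) ^ n * F j ((((a0 + k : ℤ) : ℝ)) / q) -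
        (b : ℝ) ^ n' * F j ((((a0 + k : ℤ) : ℝ)) / q))) =
        θ * ∑ j, (h j : ℝ) * F j (((a0 : ℝ) + k) / q) := by
      intro k
      rw [mul_sum]
      refine sum_congr rfl fun j _ => ?_
      push_cast
      ring
    simp only [h4]
    refine h3.trans ?_
    rw [hcard]
    have h5 : ((B : ℝ) + 1) * Real.exp (-L ^ β1) ≤ 1 / (2 * L) * ((B : ℝ) + 1) := by
      rw [mul_comm]
      exact mul_le_mul_of_nonneg_right hexp2 (by positivity)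
    calc 2 * (MM q : ℝ) ^ 2 + ((B : ℝ) + 1) * Real.exp (-L ^ β1)
        ≤ 1 / (2 * L) * ((B : ℝ) + 1) + 1 / (2 * L) * ((B : ℝ) + 1) := add_le_add hMMs h5
      _ = 1 / L * ((B : ℝ) + 1) := by field_simp; ring
  have hmain := h1q (Finset.Icc 0 B)
    (fun k n j => (b : ℝ) ^ n * F j ((((a0 + k : ℤ) : ℝ)) / q)) s0 hs0N hz
  have hcount := int_count a0 B (fun a : ℤ => ¬ EqB ε (ε * L) s0 ⌊L ^ (1 + δ)⌋₊
      (fun n j => (b : ℝ) ^ n * F j ((a : ℝ) / q)))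
    {a : ℤ | α' ≤ (a : ℝ) / q ∧ (a : ℝ) / q ≤ β' ∧ ¬ EqB ε (ε * L) ⌈C * L⌉₊
        ⌊L ^ (1 + δ)⌋₊ (fun n j => (b : ℝ) ^ n * F j ((a : ℝ) / q))} (by
    rintro a ⟨h3, h4, h5⟩
    rw [le_div_iff₀ hq0] at h3
    rw [div_le_iff₀ hq0] at h4
    obtain ⟨h6, h7⟩ := (hB1 a).1 ⟨h3, h4⟩
    refine ⟨h6, h7, fun h8 => h5 (h8.mono le_rfl (Nat.ceil_mono ?_) le_rfl)⟩
    apply mul_le_mul_of_nonneg_right _ hL0.le
    rw [hCdef]
    linarith)
  refine (Nat.cast_le.2 hcount).trans (le_trans (le_of_eq (by congr!)) (hmain.trans ?_))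
  rw [hcard]
  have h6 : (B : ℝ) + 1 ≤ 2 * ((β' - α') * q) := by linarith
  have h7 : 0 ≤ L ^ (δ - 1) := by positivity
  have h8 : 0 ≤ (β' - α') * q := by linarith
  calc C1 * ((B : ℝ) + 1) * L ^ (δ - 1) ≤ C1 * (2 * ((β' - α') * q)) * L ^ (δ - 1) := by gcongr
    _ = C1 * 2 * ((β' - α') * q) * L ^ (δ - 1) := by ring
    _ ≤ C * ((β' - α') * q) * L ^ (δ - 1) := by
      gcongr
      rw [hCdef]
      linarith

end Pool.Agent.N586.GF
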