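import Pool.Agent.N586.GF.FinG

/-!
# Project SR: assembly
-/

set_option autoImplicit false

namespace Pool.Agent.N586.GF

open Finset Real Filter
open Pool.Agent.Y933.KD (e wd)
open Pool.Agent.Y933.KD.VdC (ev_le)
open Pool.Agent.N586.RT (logpow log_ge)
open Pool.Agent.N586.KO (MM)
open Pool.Agent.N586.AN (exp_beats)

open Classical in
theorem sr_main (hS : S_SUM) (hM : S_SMB) (hC : S_CR') (σ : ℝ) (hσ : ∀ n : ℕ, σ ≠ n) (r : ℕ)
    (hr : 1 ≤ r) (t : Fin r → ℕ) (ht : Function.Injective t) (κ : ℝ) (hκ : 0 ≤ κ) (δ : ℝ)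
    (hδ : 0 < δ) (hδ2 : δ < 1 / 2) (b : ℕ) (hb : 2 ≤ b) (ε : ℝ) (hε : 0 < ε) :
    ∃ C : ℝ, 0 < C ∧ ∃ M0 : ℕ, ∀ M : ℕ, M0 ≤ M → ∀ lam : ℝ, (M : ℝ) ^ (-κ) ≤ |lam| →
      |lam| ≤ (M : ℝ) ^ κ → ∀ M' : ℕ, (M : ℝ) ^ (4 / 5 : ℝ) ≤ M' → M' ≤ M →
      (((Finset.Icc (M + 1) (M + M')).filter (fun m : ℕ => ¬ EqB ε (ε * log M) ⌈C * log M⌉₊
        ⌊(log M) ^ (1 + δ)⌋₊
        (fun n j => (b : ℝ) ^ n * (lam * ((m : ℝ) + t j) ^ σ)))).card : ℝ) ≤
        C * M' * (log M) ^ (δ - 1) := by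
  obtain ⟨K, C1, hC1, q1, h1⟩ := smb_apply hM r hr ε δ hε hδ
  obtain ⟨Cc, A, hCc, hA, q4, hcom⟩ := hC σ r K t hσ hr ht
  set δ1 : ℝ := (δ + 1 / 2) / 2 with hδ1
  set β1 : ℝ := (1 / 2 - δ) / 2 with hβ1
  have hδ10 : 0 < δ1 := by rw [hδ1]; linarith
  have hβ10 : 0 < β1 := by rw [hβ1]; linarith
  obtain ⟨q2, h2⟩ := hS Cc A δ1 β1 1 hCc hA hδ10 hβ10 (by rw [hδ1, hβ1]; linarith)
  have hlog2 : 0 < log 2 := Real.log_pos (by norm_num)
  set kk : ℕ := ⌈κ + |σ|⌉₊ + r + 3 with hkk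
  set C0 : ℝ := (kk : ℝ) / log 2 with hC0
  have hC00 : 0 ≤ C0 := by positivity
  set C : ℝ := C0 + 1 + C1 with hCdef
  have hCpos : 0 < C := by positivity
  refine ⟨C, hCpos, ?_⟩
  obtain ⟨q3, hq3⟩ := eventually_atTop.1 ((((((log_ge 1).and
    (logpow (by linarith : (1 : ℝ) < 1 + δ) (C0 + 1))).and
    (logpow (by rw [hδ1]; linarith : 1 + δ < 1 + δ1) (log b + (κ + |σ|)))).and
    (ev_le 400 (1 / 100) (by norm_num))).and
    (exp_beats 2 β1 hβ10)).and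
    (eventually_ge_atTop 2))
  refine ⟨max (max q1 q2) (max q3 q4), fun M hMM lam hlam1 hlam2 M' hM'1 hM'2 => ?_⟩
  have hqq1 : q1 ≤ M := (le_max_left _ _).trans ((le_max_left _ _).trans hMM)
  have hqq2 : q2 ≤ M := (le_max_right _ _).trans ((le_max_left _ _).trans hMM)
  have hqq4 : q4 ≤ M := (le_max_right _ _).trans ((le_max_right _ _).trans hMM)
  obtain ⟨⟨⟨⟨⟨hL1, hLδ⟩, hLb⟩, hq400⟩, hexp⟩, hq2⟩ :=
    hq3 M ((le_max_left _ _).trans ((le_max_right _ _).trans hMM))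
  have hqR : (2 : ℝ) ≤ M := by exact_mod_cast hq2
  have hq0 : (0 : ℝ) < M := by linarith
  have h1q := h1 M hqq1
  have h2q := h2 M hqq2
  have hcomq := hcom M hqq4
  obtain ⟨L, hL⟩ : ∃ L : ℝ, L = log M := ⟨_, rfl⟩
  rw [← hL] at hL1 hLδ hLb hexp h1q h2q hcomq ⊢
  rw [Real.rpow_one] at hLδ
  have hL0 : 0 < L := by linarith
  have hMexp : ∀ x : ℝ, (M : ℝ) ^ x = Real.exp (x * L) := by
    intro x
    rw [Real.rpow_def_of_pos hq0, hL, mul_comm]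
  set s0 : ℕ := ⌈C0 * L⌉₊ with hs0
  have hs0u : (s0 : ℝ) ≤ (C0 + 1) * L := by
    have := (Nat.ceil_lt_add_one (by positivity : 0 ≤ C0 * L)).le
    rw [← hs0] at this
    linarith
  have hs0N : s0 ≤ ⌊L ^ (1 + δ)⌋₊ := Nat.le_floor (hs0u.trans hLδ)
  have hcard : (((Finset.Icc (M + 1) (M + M')).card : ℕ) : ℝ) = (M' : ℝ) := by
    rw [Nat.card_Icc]
    congr 1
    omega
  have hLq : L ≤ 100 * (M : ℝ) ^ (1 / 100 : ℝ) := by
    have := Real.log_le_rpow_div hq0.le (by norm_num : (0 : ℝ) < 1 / 100)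
    rw [← hL] at this
    calc L ≤ (M : ℝ) ^ (1 / 100 : ℝ) / (1 / 100) := this
      _ = 100 * (M : ℝ) ^ (1 / 100 : ℝ) := by ring
  have hMMs : 2 * (MM M : ℝ) ^ 2 ≤ 1 / (2 * L) * (M' : ℝ) := by
    have h3 := MM_small (q := M) (by omega)
    have h4 : (M : ℝ) ^ (4 / 5 : ℝ) = (M : ℝ) ^ (78 / 100 : ℝ) * ((M : ℝ) ^ (1 / 100 : ℝ) *
        (M : ℝ) ^ (1 / 100 : ℝ)) := by
      rw [← Real.rpow_add hq0, ← Real.rpow_add hq0]; norm_num
    have h5 : 0 < (M : ℝ) ^ (1 / 100 : ℝ) := by positivity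
    have h6 : 0 < (M : ℝ) ^ (78 / 100 : ℝ) := by positivity
    have h7 : 4 * L ≤ (M : ℝ) ^ (1 / 100 : ℝ) * (M : ℝ) ^ (1 / 100 : ℝ) := by
      nlinarith [hLq, hq400, h5]
    have h8 : 2 * (MM M : ℝ) ^ 2 * (2 * L) ≤ M' := by
      calc 2 * (MM M : ℝ) ^ 2 * (2 * L) = (MM M : ℝ) ^ 2 * (4 * L) := by ring
        _ ≤ (M : ℝ) ^ (78 / 100 : ℝ) * ((M : ℝ) ^ (1 / 100 : ℝ) * (M : ℝ) ^ (1 / 100 : ℝ)) :=
          mul_le_mul h3 h7 (by positivity) h6.le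
        _ = (M : ℝ) ^ (4 / 5 : ℝ) := h4.symm
        _ ≤ M' := hM'1
    calc 2 * (MM M : ℝ) ^ 2 = 1 / (2 * L) * (2 * (MM M : ℝ) ^ 2 * (2 * L)) := by field_simp
      _ ≤ 1 / (2 * L) * (M' : ℝ) := mul_le_mul_of_nonneg_left h8 (by positivity)
  have hexp2 : Real.exp (-L ^ β1) ≤ 1 / (2 * L) := by
    rw [Real.exp_neg, ← one_div]
    exact one_div_le_one_div_of_le (by positivity) hexp
  have hz : ∀ h : Fin r → ℤ, (∀ j, |h j| ≤ K) → h ≠ 0 → ∀ n n' : ℕ, s0 ≤ n' → n' < n →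
      n ≤ ⌊L ^ (1 + δ)⌋₊ →
      ‖∑ m ∈ Finset.Icc (M + 1) (M + M'), e (∑ j, (h j : ℝ) *
        ((b : ℝ) ^ n * (lam * ((m : ℝ) + t j) ^ σ) - (b : ℝ) ^ n' * (lam * ((m : ℝ) + t j) ^ σ)))‖ ≤
        1 / L * ((Finset.Icc (M + 1) (M + M')).card : ℝ) := by
    intro h hK hh n n' hn' hnn hn
    obtain ⟨i0, hi0, hexpn⟩ := hcomq h hK hh
    obtain ⟨hθ1, hθ2⟩ := pow_diff hb hnn
    set θ0 : ℝ := (b : ℝ) ^ n - (b : ℝ) ^ n' with hθ0
    have hnR : (n : ℝ) ≤ L ^ (1 + δ) :=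
      le_trans (by exact_mod_cast hn) (Nat.floor_le (by positivity))
    have hn'R : C0 * L ≤ n' := le_trans (Nat.le_ceil _) (by exact_mod_cast hn')
    have hpow := pow_lower (k := kk) (n := n') hb hq0 (by rw [← hL]; exact hn'R)
    have habs : |θ0 * lam * (M : ℝ) ^ (σ - i0)| = |θ0| * |lam| * (M : ℝ) ^ (σ - i0) := by
      rw [abs_mul, abs_mul, abs_of_pos (by positivity : (0 : ℝ) < (M : ℝ) ^ (σ - i0))]
    have hθlow : (M : ℝ) ^ (1 + 2) ≤ |θ0 * lam * (M : ℝ) ^ (σ - i0)| := by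
      rw [habs]
      have h3 : (M : ℝ) ^ kk ≤ |θ0| := hpow.trans hθ1
      have h4 : (M : ℝ) ^ (1 + 2) ≤ (M : ℝ) ^ kk * (M : ℝ) ^ (-κ) * (M : ℝ) ^ (σ - i0) := by
        rw [← Real.rpow_natCast (M : ℝ) kk, ← Real.rpow_natCast (M : ℝ) (1 + 2),
          ← Real.rpow_add hq0, ← Real.rpow_add hq0]
        apply Real.rpow_le_rpow_of_exponent_le (by linarith)
        rw [hkk]
        push_cast
        have h5 : κ + |σ| ≤ ⌈κ + |σ|⌉₊ := Nat.le_ceil _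
        have h6 : -|σ| ≤ σ := neg_abs_le σ
        have h7 : (i0 : ℝ) ≤ r := by exact_mod_cast hi0.le
        linarith
      refine h4.trans ?_
      gcongr
    have hθup : |θ0 * lam * (M : ℝ) ^ (σ - i0)| ≤ Real.exp (L ^ (1 + δ1)) := by
      rw [habs]
      have hbR : (2 : ℝ) ≤ b := by exact_mod_cast hb
      have h5 : 0 ≤ log (b : ℝ) := Real.log_nonneg (by linarith)
      have h3 : |θ0| ≤ Real.exp (L ^ (1 + δ) * log b) := by
        refine hθ2.trans ?_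
        have h4 : (b : ℝ) ^ n = Real.exp (n * log b) := by
          rw [mul_comm, Real.exp_mul, Real.exp_log (by linarith), Real.rpow_natCast]
        rw [h4]
        apply Real.exp_le_exp.2
        exact mul_le_mul_of_nonneg_right hnR h5
      have h6 : (M : ℝ) ^ (σ - i0) ≤ (M : ℝ) ^ (|σ|) := by
        apply Real.rpow_le_rpow_of_exponent_le (by linarith)
        have := le_abs_self σ
        have h7 : (0 : ℝ) ≤ (i0 : ℝ) := Nat.cast_nonneg _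
        linarith
      have h8 : L ≤ L ^ (1 + δ) := by
        calc L = L ^ (1 : ℝ) := (Real.rpow_one L).symm
          _ ≤ L ^ (1 + δ) := Real.rpow_le_rpow_of_exponent_le hL1 (by linarith)
      calc |θ0| * |lam| * (M : ℝ) ^ (σ - i0)
          ≤ Real.exp (L ^ (1 + δ) * log b) * (M : ℝ) ^ κ * (M : ℝ) ^ (|σ|) := by gcongr
        _ = Real.exp (L ^ (1 + δ) * log b + (κ + |σ|) * L) := by
            rw [hMexp, hMexp, ← Real.exp_add, ← Real.exp_add]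
            congr 1
            ring
        _ ≤ Real.exp (L ^ (1 + δ1)) := by
            apply Real.exp_le_exp.2
            refine le_trans ?_ hLb
            have h9 : 0 ≤ κ + |σ| := by positivity
            have h10 := mul_le_mul_of_nonneg_left h8 h9
            linarith
    have h3 := h2q (M + 1) (M + M') L (θ0 * lam * (M : ℝ) ^ (σ - i0))
      (fun y => θ0 * lam * ∑ j, (h j : ℝ) * (y + t j) ^ σ) le_rfl hθlow hθup
      (by
        intro m hm1 hm2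
        obtain ⟨c, hc1, hc2⟩ := hexpn m (by omega) (by omega)
        refine ⟨c, hc1, fun y hy0 hy => ?_⟩
        have h5 := (hc2 y hy0 hy).mul_left (θ0 * lam)
        have h6 : (fun k : ℕ => θ0 * lam * ((M : ℝ) ^ (σ - i0) * c k * (y / M) ^ k)) =
            (fun k : ℕ => θ0 * lam * (M : ℝ) ^ (σ - i0) * c k * (y / M) ^ k) := by
          funext k; ring
        have h7 : ∀ j, (m : ℝ) + t j + y = (m : ℝ) + y + t j := fun j => by ring
        rw [h6] at h5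
        simp only [h7] at h5
        exact h5)
    have h4 : ∀ m : ℕ, (∑ j, (h j : ℝ) * ((b : ℝ) ^ n * (lam * ((m : ℝ) + t j) ^ σ) -
        (b : ℝ) ^ n' * (lam * ((m : ℝ) + t j) ^ σ))) =
        θ0 * lam * ∑ j, (h j : ℝ) * ((m : ℝ) + t j) ^ σ := by
      intro m
      rw [mul_sum]
      refine sum_congr rfl fun j _ => ?_
      ring
    simp only [h4]
    refine h3.trans ?_
    rw [hcard]
    have h5 : (M' : ℝ) * Real.exp (-L ^ β1) ≤ 1 / (2 * L) * (M' : ℝ) := by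
      rw [mul_comm]
      exact mul_le_mul_of_nonneg_right hexp2 (by positivity)
    calc 2 * (MM M : ℝ) ^ 2 + (M' : ℝ) * Real.exp (-L ^ β1)
        ≤ 1 / (2 * L) * (M' : ℝ) + 1 / (2 * L) * (M' : ℝ) := add_le_add hMMs h5
      _ = 1 / L * (M' : ℝ) := by field_simp; ring
  have hmain := h1q (Finset.Icc (M + 1) (M + M'))
    (fun m n j => (b : ℝ) ^ n * (lam * ((m : ℝ) + t j) ^ σ)) s0 hs0N hz
  have hsub : (Finset.Icc (M + 1) (M + M')).filter (fun m : ℕ => ¬ EqB ε (ε * L) ⌈C * L⌉₊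
        ⌊L ^ (1 + δ)⌋₊ (fun n j => (b : ℝ) ^ n * (lam * ((m : ℝ) + t j) ^ σ))) ⊆
      (Finset.Icc (M + 1) (M + M')).filter (fun m : ℕ => ¬ EqB ε (ε * L) s0
        ⌊L ^ (1 + δ)⌋₊ (fun n j => (b : ℝ) ^ n * (lam * ((m : ℝ) + t j) ^ σ))) := by
    intro m hm
    rw [Finset.mem_filter] at hm ⊢
    refine ⟨hm.1, fun h8 => hm.2 (h8.mono le_rfl (Nat.ceil_mono ?_) le_rfl)⟩
    apply mul_le_mul_of_nonneg_right _ hL0.le
    rw [hCdef]
    linarith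
  refine (Nat.cast_le.2 (card_le_card hsub)).trans (le_trans (le_of_eq (by congr!))
    (hmain.trans ?_))
  rw [hcard]
  have h7 : 0 ≤ L ^ (δ - 1) := by positivity
  have h9 : C1 * (M' : ℝ) * L ^ (δ - 1) ≤ C * M' * L ^ (δ - 1) := by
    gcongr
    rw [hCdef]
    linarith
  exact h9

end Pool.Agent.N586.GF
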