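import Pool.Agent.N586.GF.FrMain

/-!
# Project FR: the elements of `ℚ(ξ)`, final count
-/

set_option autoImplicit false

namespace Pool.Agent.N586.GF

open Finset Real Filter
open Pool.Agent.Y933.KD.VdC (ev_le)
open Pool.Agent.N586.RT (logpow log_ge)
open Pool.Agent.N586.JT (S_BT)

/-- the good pairs -/
def GoodF (ξ : ℝ) {D : ℕ} (d r B n0 : ℕ) (V L ε E : ℝ) (p q : Fin (D + 1) → ℤ) : Prop :=
  ev ξ q ≠ 0 ∧ ∀ (g : Fin r → Fin (d + 1) → ℤ) (f : Fin (d + 1) → ℤ), SmF V g f →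
    NwA B n0 L ε E (fun j => ev ξ (g j) / ev ξ f * (ev ξ p / ev ξ q))

open Classical in
/-- all but the constant coefficient of the denominator fixed -/
theorem fr_fix (hS : S_SUM3) (hBT : S_BT) (ξ : ℝ) (D d r B : ℕ) (hD : MeasV ξ D)
    (hd : MeasV ξ d) (δ β : ℝ) (hδ : 0 < δ) (hβ : 0 < β) (hδβ : 2 * δ + β < 1) (hr : 1 ≤ r)
    (ε : ℝ) (hε : 0 < ε) :
    ∃ C0 : ℝ, 0 < C0 ∧ ∃ H0 : ℕ, ∀ H : ℕ, H0 ≤ H → ∀ (p : Fin (D + 1) → ℤ) (q : Fin D → ℤ),
      p ≠ 0 → (∀ i, |(p i : ℝ)| ≤ H) → (∀ i, |(q i : ℝ)| ≤ H) →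
      (((Finset.Icc (-(H : ℤ)) H).filter (fun a : ℤ => ¬ GoodF ξ d r B ⌈C0 * log H⌉₊
        (exp ((log H) ^ β)) ((log H) ^ (1 + δ)) ε (ε * log H) p (Fin.cons a q))).card : ℝ) ≤
        1 / 2 * ((2 * H + 1) * Real.exp (-(log H) ^ β)) := by
  obtain ⟨κD, cD, hκD, hcD, hD'⟩ := hD
  obtain ⟨κd, cd, hκd, hcd, hd'⟩ := hd
  set γ : ℝ := (1 - 2 * δ - β) / 8 with hγ
  have hγ0 : 0 < γ := by rw [hγ]; linarith
  obtain ⟨C0, hC0⟩ : ∃ C0 : ℝ, C0 = ((⌈κD + 4⌉₊ + 3 : ℕ) : ℝ) / log 2 := ⟨_, rfl⟩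
  have hlog2 : 0 < log 2 := Real.log_pos (by norm_num)
  have hC00 : 0 < C0 := by rw [hC0]; positivity
  refine ⟨C0, hC00, ?_⟩
  -- one base
  have hone : ∀ b : ℕ, ∃ (c : ℝ) (H0 : ℕ), 0 < c ∧ (2 ≤ b → ∀ H : ℕ, H0 ≤ H →
      ∀ α : Fin r → ℝ,
      (∀ h : Fin r → ℤ, h ≠ 0 → (∀ j, |(h j : ℝ)| ≤ exp ((log H) ^ (β + γ))) →
        (H : ℝ) ^ (-(κD + 4)) ≤ |∑ j, (h j : ℝ) * α j| ∧
          |∑ j, (h j : ℝ) * α j| ≤ (H : ℝ) ^ (κD + 4)) →
      ∀ (g : ℝ) (a : ℤ) (K : ℕ), (H : ℝ) ^ (4 / 5 : ℝ) ≤ K →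
      (∀ m : ℤ, a ≤ m → m < a + K → (H : ℝ) ^ (199 / 200 : ℝ) ≤ |(m : ℝ) + g| ∧
        |(m : ℝ) + g| ≤ (H : ℝ) ^ (201 / 200 : ℝ)) →
      (((Finset.Ico a (a + K)).filter (fun m : ℤ => ¬ ∀ w, NwW b w ⌈C0 * log H⌉₊
        ((log H) ^ (1 + δ)) ε (ε * log H) (fun j => α j / ((m : ℝ) + g)))).card : ℝ) ≤
        K * ((log H) ^ (1 + δ) * Real.exp (-(c * (log H) ^ (β + γ))))) := by
    intro b
    by_cases hb : 2 ≤ b
    · obtain ⟨w, hw1, hw2⟩ := exists_width r b hr hb (ε / 2) (by positivity)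
      obtain ⟨c, hc, H0, h⟩ := fr_one hS hBT (κD + 4) δ β γ C0 (by linarith) hδ hβ hγ0
        (by rw [hγ]; linarith) w r b hr hb (ε / 2) (by positivity) hC0
      refine ⟨c, H0, hc, fun _ H hH α hα g a K hK hm => ?_⟩
      refine le_trans (Nat.cast_le.2 (card_le_card ?_)) (h H hH α hα g a K hK hm)
      intro m hm
      rw [Finset.mem_filter] at hm ⊢
      refine ⟨hm.1, fun h8 => hm.2 fun w' => ?_⟩
      have hlogM : 0 ≤ log (H : ℝ) := Real.log_natCast_nonneg H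
      exact (h8.mono (E' := ε * log H) (by nlinarith)).all hb hw1 hw2 hε.le w'
    · exact ⟨1, 0, one_pos, fun h => absurd h hb⟩
  choose c M0 hc0 hone using hone
  set SB : Finset ℕ := Finset.Icc 2 B with hSB
  obtain ⟨c1, hc1, hcb⟩ : ∃ c1 : ℝ, 0 < c1 ∧ ∀ b ∈ SB, c1 ≤ c b := by
    rcases SB.eq_empty_or_nonempty with h | h
    · exact ⟨1, one_pos, fun b hb => by rw [h] at hb; exact absurd hb (Finset.notMem_empty b)⟩
    · obtain ⟨b0, hb0, hb1⟩ := SB.exists_min_image c h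
      exact ⟨c b0, hc0 b0, fun b hb => hb1 b hb⟩
  have hMb : ∀ b ∈ SB, M0 b ≤ ∑ b ∈ SB, M0 b := fun b hb =>
    single_le_sum (f := M0) (fun i _ => Nat.zero_le _) hb
  set K0 : ℝ := log (16 * ((B : ℝ) + 1)) with hK0
  have hK00 : 0 ≤ K0 := Real.log_nonneg (by have : (0 : ℝ) ≤ B := Nat.cast_nonneg _; linarith)
  set K1 : ℕ := 2 * ((d + 1) * r) + 2 * (d + 1) with hK1
  obtain ⟨M2, hM2⟩ := eventually_atTop.1 (((((((((((logpow (by linarith : β < β + γ)
    ((K0 + K1 + (1 + δ) + 1) / c1)).and (log_ge 1)).and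
    (eventually_ge_atTop 2)).and (logpow hβ 2)).and
    (logpow (by linarith : β + γ < 1) (κd * (r + 2)))).and
    (logpow (by linarith : β < 1) 400)).and
    (ev_le 100 (1 / 400) (by norm_num))).and
    (ev_le ((D + 1) * (1 + |ξ|) ^ D) (1 / 200) (by norm_num))).and
    (ev_le ((d + 1) * (1 + |ξ|) ^ d / (cd * cD)) 1 (by norm_num))).and
    (ev_le ((d + 1) * (D + 1) * (1 + |ξ|) ^ (d + D) / cd) 1 (by norm_num))).and
    (logpow (by linarith : β + γ < 1) (r + 2)))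
  have hll : ∀ᶠ M : ℕ in atTop, Real.log (Real.log M) ≤ (Real.log M) ^ β := by
    have hlog : Tendsto (fun N : ℕ => Real.log (N : ℝ)) atTop atTop :=
      Real.tendsto_log_atTop.comp tendsto_natCast_atTop_atTop
    have h1 := (isLittleO_log_rpow_atTop hβ).bound
      (by norm_num : (0 : ℝ) < 1)
    filter_upwards [hlog.eventually h1, log_ge 1] with M h2 h3
    rw [one_mul, Real.norm_eq_abs, Real.norm_eq_abs] at h2
    rw [abs_of_nonneg (Real.rpow_nonneg (by linarith) _)] at h2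
    exact (le_abs_self _).trans h2
  obtain ⟨M3, hM3⟩ := eventually_atTop.1 hll
  refine ⟨max (∑ b ∈ SB, M0 b) (max M2 M3), fun H hH p q hp hpH hqH => ?_⟩
  obtain ⟨⟨⟨⟨⟨⟨⟨⟨⟨⟨hb, hL1⟩, hH2⟩, hv⟩, hκdr⟩, h400⟩, h100⟩, hUD⟩, hU1⟩, hU2⟩, hr2⟩ :=
    hM2 H (le_of_max_le_left (le_of_max_le_right hH))
  have hcl := hM3 H (le_of_max_le_right (le_of_max_le_right hH))
  have hHR : (2 : ℝ) ≤ H := by exact_mod_cast hH2
  have hH0 : (0 : ℝ) < H := by linarith
  have hone' := fun b (hb : b ∈ SB) => hone b (Finset.mem_Icc.1 hb).1 H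
    ((hMb b hb).trans (le_of_max_le_left hH))
  obtain ⟨L, hL⟩ : ∃ L : ℝ, L = Real.log H := ⟨_, rfl⟩
  rw [← hL] at hb hL1 hcl hv hone' hκdr h400 hr2 ⊢
  rw [Real.rpow_zero, mul_one] at hv
  rw [Real.rpow_one] at hκdr h400 hU1 hU2 hr2
  have hL0 : 0 < L := by linarith
  have hHexp : ∀ x : ℝ, (H : ℝ) ^ x = Real.exp (x * L) := by
    intro x
    rw [Real.rpow_def_of_pos hH0, hL, mul_comm]
  have hHL : Real.exp L = H := by rw [hL, Real.exp_log hH0]
  obtain ⟨V, hV⟩ : ∃ V : ℝ, V = Real.exp (L ^ β) := ⟨_, rfl⟩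
  rw [← hV]
  have hLβ0 : 0 ≤ L ^ β := by positivity
  have hV3 : (3 : ℝ) ≤ V := by
    rw [hV]
    have := Real.add_one_le_exp (L ^ β)
    linarith
  have hV0 : 0 < V := by linarith
  obtain ⟨τ, hτ⟩ : ∃ τ : ℝ, τ = L ^ (β + γ) := ⟨_, rfl⟩
  have hτge1 : 1 ≤ τ := by rw [hτ]; exact Real.one_le_rpow hL1 (by linarith)
  have hβτ : L ^ β ≤ τ := by
    rw [hτ]
    exact Real.rpow_le_rpow_of_exponent_le hL1 (by linarith)
  have hrR : (1 : ℝ) ≤ r := by exact_mod_cast hr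
  have hXexp : (r : ℝ) * (Real.exp τ * V) ≤ Real.exp ((r + 2) * τ) := by
    have h3 : (r : ℝ) ≤ Real.exp r := by
      have := Real.add_one_le_exp (r : ℝ)
      linarith
    calc (r : ℝ) * (Real.exp τ * V) ≤ Real.exp r * (Real.exp τ * V) :=
          mul_le_mul_of_nonneg_right h3 (by positivity)
      _ = Real.exp (r + (τ + L ^ β)) := by rw [hV, Real.exp_add, Real.exp_add]
      _ ≤ _ := by
          apply Real.exp_le_exp.2
          have : (r : ℝ) ≤ r * τ := le_mul_of_one_le_right (by linarith) hτge1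
          linarith
  have hX1 : (r : ℝ) * (Real.exp τ * V) ≤ H := by
    refine hXexp.trans ?_
    rw [← hHL]
    apply Real.exp_le_exp.2
    rw [hτ]
    exact hr2
  have hXκ : ((r : ℝ) * (Real.exp τ * V)) ^ κd ≤ H := by
    calc ((r : ℝ) * (Real.exp τ * V)) ^ κd ≤ (Real.exp ((r + 2) * τ)) ^ κd :=
          Real.rpow_le_rpow (by positivity) hXexp hκd
      _ = Real.exp ((r + 2) * τ * κd) := by rw [← Real.exp_mul]
      _ ≤ Real.exp L := by
          apply Real.exp_le_exp.2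
          rw [hτ]
          linarith
      _ = H := hHL
  -- the denominator
  set g0 : ℝ := ∑ i : Fin D, (q i : ℝ) * ξ ^ ((i : ℕ) + 1) with hg0
  set Z : ℝ := (H : ℝ) ^ (199 / 200 : ℝ) with hZ
  have hZ0 : 0 < Z := by positivity
  have hup : ∀ m : ℤ, -(H : ℤ) ≤ m → m ≤ H → |(m : ℝ) + g0| ≤ (H : ℝ) ^ (201 / 200 : ℝ) := by
    intro m hm1 hm2
    have h3 : |ev ξ (Fin.cons m q : Fin (D + 1) → ℤ)| ≤ (D + 1) * H * (1 + |ξ|) ^ D := by
      refine abs_ev_le fun i => ?_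
      refine Fin.cases ?_ (fun i => ?_) i
      · rw [Fin.cons_zero]
        rw [abs_le]
        constructor
        · have : (((-(H : ℤ)) : ℤ) : ℝ) ≤ m := by exact_mod_cast hm1
          push_cast at this
          exact this
        · exact_mod_cast hm2
      · rw [Fin.cons_succ]
        exact hqH i
    rw [ev_cons] at h3
    refine h3.trans ?_
    calc (D + 1) * (H : ℝ) * (1 + |ξ|) ^ D = ((D + 1) * (1 + |ξ|) ^ D) * H := by ring
      _ ≤ (H : ℝ) ^ (1 / 200 : ℝ) * H := mul_le_mul_of_nonneg_right hUD hH0.le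
      _ = (H : ℝ) ^ (1 / 200 : ℝ) * (H : ℝ) ^ (1 : ℝ) := by rw [Real.rpow_one]
      _ = (H : ℝ) ^ (201 / 200 : ℝ) := by rw [← Real.rpow_add hH0]; norm_num
  obtain ⟨a1, a2, N1, N2, hN1, hN2, hI1, hI2, hcov⟩ := cover H g0 Z
  set T : ℝ := L ^ (1 + δ) with hT'
  have hT1 : 1 ≤ T := Real.one_le_rpow hL1 (by positivity)
  have hLβγ : 0 ≤ L ^ (β + γ) := by positivity
  -- the small data
  set S : Finset (((Fin r → Fin (d + 1) → ℤ) × (Fin (d + 1) → ℤ)) × ℕ) :=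
    ((Fintype.piFinset fun _ => Fintype.piFinset fun _ => Finset.Icc (-⌊V⌋) ⌊V⌋) ×ˢ
      (Fintype.piFinset fun _ => Finset.Icc (-⌊V⌋) ⌊V⌋)) ×ˢ SB with hS'
  have hScard : ((S.card : ℕ) : ℝ) ≤ (B + 1) * V ^ K1 := by
    rw [hS', Finset.card_product, Finset.card_product, Fintype.card_piFinset_const,
      Fintype.card_piFinset_const, Int.card_Icc, hSB, Nat.card_Icc]
    have h3 := Int.floor_le V
    have h0 : 0 ≤ ⌊V⌋ := Int.floor_nonneg.2 hV0.le
    have h4 : (((⌊V⌋ + 1 - -⌊V⌋).toNat : ℕ) : ℝ) ≤ V ^ 2 := by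
      have h5 : (((⌊V⌋ + 1 - -⌊V⌋).toNat : ℕ) : ℤ) = 2 * ⌊V⌋ + 1 := by
        rw [Int.toNat_of_nonneg (by omega)]
        ring
      have h6 : (((⌊V⌋ + 1 - -⌊V⌋).toNat : ℕ) : ℝ) = 2 * (⌊V⌋ : ℝ) + 1 := by
        have : ((((⌊V⌋ + 1 - -⌊V⌋).toNat : ℕ) : ℤ) : ℝ) = ((2 * ⌊V⌋ + 1 : ℤ) : ℝ) := by rw [h5]
        rw [Int.cast_natCast] at this
        rw [this]
        push_cast
        ring
      rw [h6]
      nlinarith
    have h6 : (((B + 1 - 2 : ℕ)) : ℝ) ≤ B + 1 := by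
      have : B + 1 - 2 ≤ B + 1 := by omega
      exact_mod_cast this
    push_cast
    calc ((((((⌊V⌋ + 1 - -⌊V⌋).toNat : ℕ) : ℝ) ^ (d + 1)) ^ r) *
          ((((⌊V⌋ + 1 - -⌊V⌋).toNat : ℕ) : ℝ) ^ (d + 1))) * (((B + 1 - 2 : ℕ)) : ℝ)
        ≤ ((((V ^ 2) ^ (d + 1)) ^ r) * ((V ^ 2) ^ (d + 1))) * (B + 1) := by
          gcongr
      _ = _ := by rw [hK1]; ring
  set Rr : ℝ := T * Real.exp (-(c1 * L ^ (β + γ))) with hRr
  have hRr0 : 0 ≤ Rr := by positivity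
  have hSR : 16 * (((S.card : ℕ) : ℝ) * Rr) ≤ Real.exp (-L ^ β) := by
    have e1 : V ^ K1 = Real.exp (K1 * L ^ β) := by
      rw [hV, ← Real.exp_nat_mul]
    have e2 : T = Real.exp ((1 + δ) * Real.log L) := by
      rw [hT', Real.rpow_def_of_pos hL0]
      congr 1
      ring
    have e3 : 16 * ((B : ℝ) + 1) = Real.exp K0 := by
      rw [hK0, Real.exp_log (by positivity)]
    calc 16 * (((S.card : ℕ) : ℝ) * Rr) ≤ 16 * (((B + 1) * V ^ K1) * Rr) := by gcongr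
      _ = (16 * ((B : ℝ) + 1)) * V ^ K1 * (T * Real.exp (-(c1 * L ^ (β + γ)))) := by
          rw [hRr]; ring
      _ = Real.exp (K0 + K1 * L ^ β + ((1 + δ) * Real.log L + -(c1 * L ^ (β + γ)))) := by
          rw [e3, e1, e2, ← Real.exp_add, ← Real.exp_add, ← Real.exp_add]
      _ ≤ _ := by
          apply Real.exp_le_exp.2
          have h1 : (1 + δ) * Real.log L ≤ (1 + δ) * L ^ β := by gcongr
          have h2 : (K0 + K1 + (1 + δ) + 1) * L ^ β ≤ c1 * L ^ (β + γ) := by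
            have h3 : (K0 + K1 + (1 + δ) + 1) * L ^ β =
                c1 * ((K0 + K1 + (1 + δ) + 1) / c1 * L ^ β) := by
              field_simp
            rw [h3]
            exact mul_le_mul_of_nonneg_left hb hc1.le
          have h4 : (1 : ℝ) ≤ L ^ β := Real.one_le_rpow hL1 hβ.le
          have h5 : K0 ≤ K0 * L ^ β := le_mul_of_one_le_right hK00 h4
          linarith
  -- one interval
  have hint : ∀ (a : ℤ) (N : ℕ), N ≤ 2 * H + 1 →
      (∀ m : ℤ, a ≤ m → m < a + N → -(H : ℤ) ≤ m ∧ m ≤ H ∧ Z ≤ |(m : ℝ) + g0|) →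
      (((Finset.Ico a (a + N)).filter (fun m : ℤ => ¬ GoodF ξ d r B ⌈C0 * L⌉₊ V T ε (ε * L) p
        (Fin.cons m q))).card : ℝ) ≤ (H : ℝ) ^ (4 / 5 : ℝ) + (2 * H + 1) * (S.card * Rr) := by
    intro a N hN ha
    have hN' : (N : ℝ) ≤ 2 * H + 1 := by exact_mod_cast hN
    rcases lt_or_ge (N : ℝ) ((H : ℝ) ^ (4 / 5 : ℝ)) with hsmall | hbig
    · have h3 : (((Finset.Ico a (a + N)).filter (fun m : ℤ => ¬ GoodF ξ d r B ⌈C0 * L⌉₊ V T ε
          (ε * L) p (Fin.cons m q))).card : ℝ) ≤ N := by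
        have h4 := Finset.card_filter_le (Finset.Ico a (a + N)) (fun m : ℤ =>
          ¬ GoodF ξ d r B ⌈C0 * L⌉₊ V T ε (ε * L) p (Fin.cons m q))
        rw [Int.card_Ico] at h4
        have h5 : (a + (N : ℤ) - a).toNat = N := by omega
        rw [h5] at h4
        exact_mod_cast h4
      have h4 : 0 ≤ (2 * (H : ℝ) + 1) * (S.card * Rr) := by positivity
      linarith
    · set bad : ((Fin r → Fin (d + 1) → ℤ) × (Fin (d + 1) → ℤ)) × ℕ → Finset ℤ := fun z =>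
        (Finset.Ico a (a + N)).filter (fun m => SmF V z.1.1 z.1.2 ∧
          ¬ ∀ w, NwW z.2 w ⌈C0 * L⌉₊ T ε (ε * L)
            (fun j => (ev ξ (z.1.1 j) / ev ξ z.1.2 * ev ξ p) / ((m : ℝ) + g0))) with hbad
      have hsub : (Finset.Ico a (a + N)).filter (fun m : ℤ => ¬ GoodF ξ d r B ⌈C0 * L⌉₊ V T ε
          (ε * L) p (Fin.cons m q)) ⊆ S.biUnion bad := by
        intro m hm
        rw [Finset.mem_filter, Finset.mem_Ico] at hm
        obtain ⟨⟨hm1, hm2⟩, hm3⟩ := hm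
        obtain ⟨hm4, hm5, hm6⟩ := ha m hm1 hm2
        have hev : ev ξ (Fin.cons m q : Fin (D + 1) → ℤ) = (m : ℝ) + g0 := ev_cons m q
        have hne : ev ξ (Fin.cons m q : Fin (D + 1) → ℤ) ≠ 0 := by
          rw [hev]
          exact abs_pos.1 (lt_of_lt_of_le hZ0 hm6)
        have hm7 : ∃ (g : Fin r → Fin (d + 1) → ℤ) (f : Fin (d + 1) → ℤ), SmF V g f ∧
            ∃ b w : ℕ, 2 ≤ b ∧ b ≤ B ∧ ¬ NwW b w ⌈C0 * L⌉₊ T ε (ε * L)
              (fun j => (ev ξ (g j) / ev ξ f * ev ξ p) / ((m : ℝ) + g0)) := by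
          by_contra hcon
          apply hm3
          refine ⟨hne, fun g f hgf b w hb2 hbB => ?_⟩
          by_contra h8
          apply hcon
          refine ⟨g, f, hgf, b, w, hb2, hbB, ?_⟩
          have h9 : (fun j => ev ξ (g j) / ev ξ f * (ev ξ p /
              ev ξ (Fin.cons m q : Fin (D + 1) → ℤ))) =
              fun j => (ev ξ (g j) / ev ξ f * ev ξ p) / ((m : ℝ) + g0) := by
            funext j
            rw [hev]
            ring
          rwa [h9] at h8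
        obtain ⟨g, f, hgf, b, w, hb2, hbB, hno⟩ := hm7
        rw [Finset.mem_biUnion]
        have hfl : ∀ z : ℤ, |(z : ℝ)| ≤ V → z ∈ Finset.Icc (-⌊V⌋) ⌊V⌋ := by
          intro z hz
          have h1 := abs_le.1 hz
          rw [Finset.mem_Icc]
          constructor
          · rw [neg_le]
            apply Int.le_floor.2
            push_cast
            linarith [h1.1]
          · exact Int.le_floor.2 h1.2
        refine ⟨((g, f), b), ?_, ?_⟩
        · rw [hS', Finset.mem_product, Finset.mem_product]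
          refine ⟨⟨?_, ?_⟩, Finset.mem_Icc.2 ⟨hb2, hbB⟩⟩
          · rw [Fintype.mem_piFinset]
            intro j
            rw [Fintype.mem_piFinset]
            intro i
            exact hfl _ (hgf.1 j i)
          · rw [Fintype.mem_piFinset]
            intro i
            exact hfl _ (hgf.2.1 i)
        · rw [hbad]
          simp only [Finset.mem_filter, Finset.mem_Ico]
          exact ⟨⟨hm1, hm2⟩, hgf, fun hcon => hno (hcon w)⟩
      have hbadc : ∀ z ∈ S, ((bad z).card : ℝ) ≤ (2 * H + 1) * Rr := by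
        intro z hz
        by_cases hsm : SmF V z.1.1 z.1.2
        · have hzb : z.2 ∈ SB := by
            rw [hS', Finset.mem_product] at hz
            exact hz.2
          have key := hone' z.2 hzb (fun j => ev ξ (z.1.1 j) / ev ξ z.1.2 * ev ξ p)
            (by
              intro h hh hhW
              rw [← hτ] at hhW
              exact form_bounds hκd hcd hκD hcD hd' hD' (by linarith) (by linarith)
                (Real.one_le_exp (by linarith)) hr hXκ hX1 hU1 hU2 hp hpH hsm hh hhW)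
            g0 a N hbig (fun m hm1 hm2 => ⟨(ha m hm1 hm2).2.2,
              hup m (ha m hm1 hm2).1 (ha m hm1 hm2).2.1⟩)
          refine le_trans (Nat.cast_le.2 (Finset.card_le_card fun m hm => ?_)) (key.trans ?_)
          · rw [hbad] at hm
            simp only [Finset.mem_filter] at hm
            rw [Finset.mem_filter]
            exact ⟨hm.1, hm.2.2⟩
          · rw [hRr]
            have h1 : Real.exp (-(c z.2 * L ^ (β + γ))) ≤ Real.exp (-(c1 * L ^ (β + γ))) := by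
              apply Real.exp_le_exp.2
              have := mul_le_mul_of_nonneg_right (hcb z.2 hzb) hLβγ
              linarith
            gcongr
        · have h1 : bad z = ∅ := by
            rw [hbad]
            simp only
            rw [Finset.filter_eq_empty_iff]
            rintro m _ ⟨h2, _⟩
            exact hsm h2
          rw [h1, Finset.card_empty, Nat.cast_zero]
          positivity
      have h5 : (0 : ℝ) ≤ (H : ℝ) ^ (4 / 5 : ℝ) := by positivity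
      calc _ ≤ ((S.biUnion bad).card : ℝ) := by exact_mod_cast Finset.card_le_card hsub
        _ ≤ ∑ z ∈ S, ((bad z).card : ℝ) := by exact_mod_cast Finset.card_biUnion_le
        _ ≤ ∑ _z ∈ S, (2 * H + 1) * Rr := sum_le_sum hbadc
        _ = (2 * H + 1) * (S.card * Rr) := by
            rw [sum_const, nsmul_eq_mul]
            ring
        _ ≤ _ := by linarith
  -- the union
  have hsub : (Finset.Icc (-(H : ℤ)) H).filter (fun a : ℤ => ¬ GoodF ξ d r B ⌈C0 * L⌉₊ V T ε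
      (ε * L) p (Fin.cons a q)) ⊆ Finset.Icc ⌈-Z - g0⌉ ⌊Z - g0⌋ ∪
      ((Finset.Ico a1 (a1 + N1)).filter (fun m : ℤ => ¬ GoodF ξ d r B ⌈C0 * L⌉₊ V T ε (ε * L) p
        (Fin.cons m q)) ∪
      (Finset.Ico a2 (a2 + N2)).filter (fun m : ℤ => ¬ GoodF ξ d r B ⌈C0 * L⌉₊ V T ε (ε * L) p
        (Fin.cons m q))) := by
    intro m hm
    rw [Finset.mem_filter, Finset.mem_Icc] at hm
    rw [Finset.mem_union, Finset.mem_union, Finset.mem_filter, Finset.mem_filter]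
    rcases hcov m hm.1.1 hm.1.2 with h | h | h
    · exact Or.inl h
    · exact Or.inr (Or.inl ⟨h, hm.2⟩)
    · exact Or.inr (Or.inr ⟨h, hm.2⟩)
  have hcardu : (((Finset.Icc (-(H : ℤ)) H).filter (fun a : ℤ => ¬ GoodF ξ d r B ⌈C0 * L⌉₊ V T ε
      (ε * L) p (Fin.cons a q))).card : ℝ) ≤ (2 * Z + 1) +
      (((H : ℝ) ^ (4 / 5 : ℝ) + (2 * H + 1) * (S.card * Rr)) +
      ((H : ℝ) ^ (4 / 5 : ℝ) + (2 * H + 1) * (S.card * Rr))) := by
    refine (Nat.cast_le.2 ((Finset.card_le_card hsub).trans ((Finset.card_union_le _ _).trans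
      (Nat.add_le_add_left (Finset.card_union_le _ _) _)))).trans ?_
    push_cast
    exact add_le_add (card_short g0 Z hZ0.le) (add_le_add (hint a1 N1 hN1 hI1) (hint a2 N2 hN2 hI2))
  refine hcardu.trans ?_
  -- numerics
  have hVH : V ≤ (H : ℝ) ^ (1 / 400 : ℝ) := by
    rw [hV, hHexp]
    apply Real.exp_le_exp.2
    linarith
  have hZV : 100 * V * Z ≤ H := by
    calc 100 * V * Z ≤ (H : ℝ) ^ (1 / 400 : ℝ) * (H : ℝ) ^ (1 / 400 : ℝ) * Z := by gcongr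
      _ = (H : ℝ) ^ (1 : ℝ) := by
          rw [hZ, ← Real.rpow_add hH0, ← Real.rpow_add hH0]
          norm_num
      _ = H := Real.rpow_one _
  have h45 : (H : ℝ) ^ (4 / 5 : ℝ) ≤ Z := by
    rw [hZ]
    exact Real.rpow_le_rpow_of_exponent_le (by linarith) (by norm_num)
  have hZ1 : 1 ≤ Z := Real.one_le_rpow (by linarith) (by norm_num)
  have hVinv : Real.exp (-L ^ β) = 1 / V := by
    rw [Real.exp_neg, ← hV, one_div]
  have h5Z : 5 * Z ≤ 1 / 8 * ((2 * H + 1) * Real.exp (-L ^ β)) := by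
    rw [hVinv]
    have h6 : 5 * Z = 5 * V * Z / V := by field_simp
    rw [h6, mul_one_div, ← mul_div_assoc]
    apply div_le_div_of_nonneg_right _ hV0.le
    linarith
  have h7 : 2 * ((2 * (H : ℝ) + 1) * (S.card * Rr)) ≤
      1 / 8 * ((2 * H + 1) * Real.exp (-L ^ β)) := by
    have h8 := mul_le_mul_of_nonneg_left hSR (by positivity : (0 : ℝ) ≤ 1 / 8 * (2 * H + 1))
    linarith
  have h9 : 0 ≤ (2 * (H : ℝ) + 1) * Real.exp (-L ^ β) := by positivity
  linarith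

open Classical in
/-- the count of all pairs -/
theorem fr_main (hS : S_SUM3) (hBT : S_BT) (ξ : ℝ) (D d r B : ℕ) (hD : MeasV ξ D)
    (hd : MeasV ξ d) (δ β : ℝ) (hδ : 0 < δ) (hβ : 0 < β) (hδβ : 2 * δ + β < 1) (hr : 1 ≤ r)
    (ε : ℝ) (hε : 0 < ε) :
    ∃ C0 : ℝ, 0 < C0 ∧ ∃ H0 : ℕ, ∀ H : ℕ, H0 ≤ H →
      (({z : (Fin (D + 1) → ℤ) × (Fin (D + 1) → ℤ) | (∀ i, |z.1 i| ≤ H) ∧ (∀ i, |z.2 i| ≤ H) ∧
        ¬ GoodF ξ d r B ⌈C0 * log H⌉₊ (exp ((log H) ^ β)) ((log H) ^ (1 + δ)) ε (ε * log H)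
          z.1 z.2}.ncard : ℕ) : ℝ) ≤
        Real.exp (-(log H) ^ β) * (2 * H + 1) ^ (2 * (D + 1)) := by
  obtain ⟨C0, hC0, H1, h1⟩ := fr_fix hS hBT ξ D d r B hD hd δ β hδ hβ hδβ hr ε hε
  obtain ⟨H2, hH2⟩ := eventually_atTop.1 ((logpow (by linarith : β < 1) 1).and
    (eventually_ge_atTop 2))
  refine ⟨C0, hC0, max H1 H2, fun H hH => ?_⟩
  have hfix := h1 H ((le_max_left _ _).trans hH)
  obtain ⟨hL, hHg⟩ := hH2 H ((le_max_right _ _).trans hH)
  rw [Real.rpow_one, one_mul] at hL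
  have hHR : (2 : ℝ) ≤ H := by exact_mod_cast hHg
  have hH0 : (0 : ℝ) < H := by linarith
  set P : (Fin (D + 1) → ℤ) → (Fin (D + 1) → ℤ) → Prop := fun p q =>
    GoodF ξ d r B ⌈C0 * log H⌉₊ (exp ((log H) ^ β)) ((log H) ^ (1 + δ)) ε (ε * log H) p q with hP
  set J : Finset ℤ := Finset.Icc (-(H : ℤ)) H with hJ
  set W : Finset (Fin (D + 1) → ℤ) := Fintype.piFinset fun _ => J with hW
  set W' : Finset (Fin D → ℤ) := Fintype.piFinset fun _ => J with hW'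
  have hJc : ((J.card : ℕ) : ℝ) = 2 * H + 1 := by
    rw [hJ, Int.card_Icc]
    have h2 : (((H : ℤ) + 1 - -(H : ℤ)).toNat) = 2 * H + 1 := by omega
    rw [h2]
    push_cast
    ring
  have hWc : ((W.card : ℕ) : ℝ) = (2 * H + 1) ^ (D + 1) := by
    rw [hW, Fintype.card_piFinset_const]
    push_cast
    rw [hJc]
  have hWc' : ((W'.card : ℕ) : ℝ) = (2 * H + 1) ^ D := by
    rw [hW', Fintype.card_piFinset_const]
    push_cast
    rw [hJc]
  have hmemJ : ∀ z : ℤ, |z| ≤ H → z ∈ J := fun z hz => Finset.mem_Icc.2 (abs_le.1 hz)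
  have hJabs : ∀ z : ℤ, z ∈ J → |(z : ℝ)| ≤ H := by
    intro z hz
    have h2 := abs_le.2 (Finset.mem_Icc.1 hz)
    exact_mod_cast h2
  set U : Finset (((Fin (D + 1) → ℤ) × (Fin D → ℤ)) × ℤ) :=
    ((W ×ˢ W') ×ˢ J).filter (fun z => ¬ P z.1.1 (Fin.cons z.2 z.1.2)) with hU
  have hinj : {z : (Fin (D + 1) → ℤ) × (Fin (D + 1) → ℤ) | (∀ i, |z.1 i| ≤ H) ∧
      (∀ i, |z.2 i| ≤ H) ∧ ¬ P z.1 z.2} ⊆
      ((U.image (fun z => (z.1.1, (Fin.cons z.2 z.1.2 : Fin (D + 1) → ℤ))) :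
        Finset ((Fin (D + 1) → ℤ) × (Fin (D + 1) → ℤ))) :
        Set ((Fin (D + 1) → ℤ) × (Fin (D + 1) → ℤ))) := by
    rintro ⟨p, q⟩ ⟨hp, hq, hbad⟩
    rw [Finset.mem_coe, Finset.mem_image]
    refine ⟨((p, Fin.tail q), q 0), ?_, ?_⟩
    · rw [hU, Finset.mem_filter, Finset.mem_product, Finset.mem_product]
      refine ⟨⟨⟨?_, ?_⟩, hmemJ _ (hq 0)⟩, ?_⟩
      · rw [hW, Fintype.mem_piFinset]
        exact fun i => hmemJ _ (hp i)
      · rw [hW', Fintype.mem_piFinset]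
        exact fun i => hmemJ _ (hq i.succ)
      · simp only
        rw [Fin.cons_self_tail]
        exact hbad
    · simp only
      rw [Fin.cons_self_tail]
  have hcard : (({z : (Fin (D + 1) → ℤ) × (Fin (D + 1) → ℤ) | (∀ i, |z.1 i| ≤ H) ∧
      (∀ i, |z.2 i| ≤ H) ∧ ¬ P z.1 z.2}.ncard : ℕ) : ℝ) ≤ (U.card : ℝ) := by
    have h2 := Set.ncard_le_ncard hinj (Finset.finite_toSet _)
    rw [Set.ncard_coe_finset] at h2
    exact_mod_cast h2.trans Finset.card_image_le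
  have hUcard : (U.card : ℝ) = ∑ z ∈ W ×ˢ W', ((J.filter (fun a =>
      ¬ P z.1 (Fin.cons a z.2))).card : ℝ) := by
    rw [hU, Finset.card_filter, Finset.sum_product]
    push_cast
    refine sum_congr rfl fun z _ => ?_
    rw [Finset.card_filter]
    push_cast
    rfl
  set Bd : ℝ := 1 / 2 * ((2 * H + 1) * Real.exp (-(log H) ^ β)) with hBd
  have hterm : ∀ z ∈ W ×ˢ W', ((J.filter (fun a => ¬ P z.1 (Fin.cons a z.2))).card : ℝ) ≤
      Bd + (if z.1 = 0 then (2 * (H : ℝ) + 1) else 0) := by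
    intro z hz
    rw [Finset.mem_product, hW, hW', Fintype.mem_piFinset, Fintype.mem_piFinset] at hz
    have hBd0 : 0 ≤ Bd := by rw [hBd]; positivity
    by_cases hz0 : z.1 = 0
    · rw [if_pos hz0]
      have h2 : ((J.filter (fun a => ¬ P z.1 (Fin.cons a z.2))).card : ℝ) ≤ J.card := by
        exact_mod_cast Finset.card_filter_le _ _
      rw [hJc] at h2
      linarith
    · rw [if_neg hz0, add_zero]
      exact hfix z.1 z.2 hz0 (fun i => hJabs _ (hz.1 i)) (fun i => hJabs _ (hz.2 i))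
  have hsum : (U.card : ℝ) ≤ (2 * H + 1) ^ (D + 1) * (2 * H + 1) ^ D * Bd +
      (2 * H + 1) ^ (D + 1) := by
    rw [hUcard]
    refine (sum_le_sum hterm).trans ?_
    rw [sum_add_distrib, sum_const, Finset.card_product, nsmul_eq_mul]
    push_cast
    rw [hWc, hWc', Finset.sum_product]
    have h2 : ∑ x ∈ W, ∑ _y ∈ W', (if x = 0 then (2 * (H : ℝ) + 1) else 0) ≤
        (2 * H + 1) ^ (D + 1) := by
      have h3 : ∀ x ∈ W, ∑ _y ∈ W', (if x = 0 then (2 * (H : ℝ) + 1) else 0) =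
          if x = 0 then (2 * (H : ℝ) + 1) ^ (D + 1) else 0 := by
        intro x _
        rw [sum_const, nsmul_eq_mul, hWc']
        split_ifs
        · ring
        · ring
      rw [sum_congr rfl h3, Finset.sum_ite_eq' W 0 (fun _ => (2 * (H : ℝ) + 1) ^ (D + 1))]
      split_ifs
      · exact le_rfl
      · positivity
    linarith
  refine hcard.trans (hsum.trans ?_)
  -- numerics
  have hVH : Real.exp ((log H) ^ β) ≤ H := by
    calc Real.exp ((log H) ^ β) ≤ Real.exp (log H) := Real.exp_le_exp.2 hL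
      _ = H := Real.exp_log hH0
  have hpw : (2 * (H : ℝ) + 1) ^ (2 * (D + 1)) =
      (2 * H + 1) ^ (D + 1) * (2 * H + 1) ^ D * (2 * H + 1) := by
    rw [mul_assoc, ← pow_succ, ← pow_add]
    congr 1
    ring
  have h3 : (2 * (H : ℝ) + 1) ^ (D + 1) ≤
      1 / 2 * (Real.exp (-(log H) ^ β) * (2 * H + 1) ^ (2 * (D + 1))) := by
    have h4 : (2 * (H : ℝ) + 1) ^ (2 * (D + 1)) = (2 * H + 1) ^ (D + 1) * (2 * H + 1) ^ (D + 1) := by
      rw [← pow_add]
      congr 1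
      ring
    have h5 : 2 * Real.exp ((log H) ^ β) ≤ (2 * (H : ℝ) + 1) ^ (D + 1) := by
      calc 2 * Real.exp ((log H) ^ β) ≤ 2 * H := by linarith
        _ ≤ 2 * (H : ℝ) + 1 := by linarith
        _ ≤ (2 * (H : ℝ) + 1) ^ (D + 1) := le_self_pow₀ (by linarith) (by omega)
    have h6 : 2 ≤ Real.exp (-(log H) ^ β) * (2 * (H : ℝ) + 1) ^ (D + 1) := by
      rw [Real.exp_neg, inv_mul_eq_div, le_div_iff₀ (Real.exp_pos _)]
      exact h5
    have h7 : (0 : ℝ) ≤ (2 * (H : ℝ) + 1) ^ (D + 1) := by positivity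
    calc (2 * (H : ℝ) + 1) ^ (D + 1) = 1 / 2 * (2 * (2 * (H : ℝ) + 1) ^ (D + 1)) := by ring
      _ ≤ 1 / 2 * ((Real.exp (-(log H) ^ β) * (2 * (H : ℝ) + 1) ^ (D + 1)) *
          (2 * (H : ℝ) + 1) ^ (D + 1)) := by gcongr
      _ = _ := by rw [h4]; ring
  have h8 : (2 * (H : ℝ) + 1) ^ (D + 1) * (2 * H + 1) ^ D * Bd =
      1 / 2 * (Real.exp (-(log H) ^ β) * (2 * H + 1) ^ (2 * (D + 1))) := by
    rw [hBd, hpw]
    ring
  rw [h8]
  linarith

end Pool.Agent.N586.GF
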