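import Pool.Agent.N586.GF.FrOne

/-!
# Project FR: the elements of `ℚ(ξ)`
-/

set_option autoImplicit false

namespace Pool.Agent.N586.GF

open Finset Real Filter
open Pool.Agent.Y933.KD.VdC (ev_le)
open Pool.Agent.N586.RT (logpow log_ge)
open Pool.Agent.N586.JT (S_BT)

/-- the value at `ξ` of the polynomial with the coefficients `p` -/
noncomputable def ev (ξ : ℝ) {D : ℕ} (p : Fin (D + 1) → ℤ) : ℝ := ∑ i, (p i : ℝ) * ξ ^ (i : ℕ)

/-- `ξ` has a transcendence measure of polynomial type for the degrees up to `D` -/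
def MeasV (ξ : ℝ) (D : ℕ) : Prop := ∃ κ c : ℝ, 0 ≤ κ ∧ 0 < c ∧ ∀ p : Fin (D + 1) → ℤ, p ≠ 0 →
  ∀ X : ℝ, 1 ≤ X → (∀ i, |(p i : ℝ)| ≤ X) → c ≤ X ^ κ * |ev ξ p|

/-- small data: `g` independent, `f ≠ 0` -/
def SmF {r d : ℕ} (V : ℝ) (g : Fin r → Fin (d + 1) → ℤ) (f : Fin (d + 1) → ℤ) : Prop :=
  (∀ j i, |(g j i : ℝ)| ≤ V) ∧ (∀ i, |(f i : ℝ)| ≤ V) ∧ f ≠ 0 ∧ LinearIndependent ℤ g

lemma abs_ev_le {ξ X : ℝ} {D : ℕ} {p : Fin (D + 1) → ℤ} (hp : ∀ i, |(p i : ℝ)| ≤ X) :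
    |ev ξ p| ≤ (D + 1) * X * (1 + |ξ|) ^ D := by
  have hX : 0 ≤ X := (abs_nonneg _).trans (hp 0)
  refine (abs_sum_le_sum_abs _ _).trans ?_
  calc ∑ i : Fin (D + 1), |(p i : ℝ) * ξ ^ (i : ℕ)| ≤ ∑ _i : Fin (D + 1), X * (1 + |ξ|) ^ D := by
        refine sum_le_sum fun i _ => ?_
        rw [abs_mul, abs_pow]
        refine mul_le_mul (hp i) ?_ (by positivity) hX
        calc |ξ| ^ (i : ℕ) ≤ (1 + |ξ|) ^ (i : ℕ) :=
              pow_le_pow_left₀ (abs_nonneg _) (by linarith) _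
          _ ≤ (1 + |ξ|) ^ D := pow_le_pow_right₀ (by linarith [abs_nonneg ξ]) (by omega)
    _ = _ := by
        rw [sum_const, card_univ, Fintype.card_fin, nsmul_eq_mul]
        push_cast
        ring

/-- the bounds for the linear forms -/
lemma form_bounds {ξ κd cd κD cD : ℝ} {d D r : ℕ} (hκd : 0 ≤ κd) (hcd : 0 < cd) (_hκD : 0 ≤ κD)
    (hcD : 0 < cD)
    (hd : ∀ p : Fin (d + 1) → ℤ, p ≠ 0 → ∀ X : ℝ, 1 ≤ X → (∀ i, |(p i : ℝ)| ≤ X) →
      cd ≤ X ^ κd * |ev ξ p|)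
    (hD : ∀ p : Fin (D + 1) → ℤ, p ≠ 0 → ∀ X : ℝ, 1 ≤ X → (∀ i, |(p i : ℝ)| ≤ X) →
      cD ≤ X ^ κD * |ev ξ p|)
    {H V W : ℝ} (hH : 1 ≤ H) (hV : 1 ≤ V) (hW : 1 ≤ W) (hr : 1 ≤ r) (hX : (r * (W * V)) ^ κd ≤ H)
    (hX1 : r * (W * V) ≤ H)
    (h1 : (d + 1) * (1 + |ξ|) ^ d / (cd * cD) ≤ H)
    (h2 : (d + 1) * (D + 1) * (1 + |ξ|) ^ (d + D) / cd ≤ H)
    {p : Fin (D + 1) → ℤ} (hp : p ≠ 0) (hpH : ∀ i, |(p i : ℝ)| ≤ H)
    {g : Fin r → Fin (d + 1) → ℤ} {f : Fin (d + 1) → ℤ} (hgf : SmF V g f)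
    {h : Fin r → ℤ} (hh : h ≠ 0) (hhW : ∀ j, |(h j : ℝ)| ≤ W) :
    H ^ (-(κD + 4)) ≤ |∑ j, (h j : ℝ) * (ev ξ (g j) / ev ξ f * ev ξ p)| ∧
      |∑ j, (h j : ℝ) * (ev ξ (g j) / ev ξ f * ev ξ p)| ≤ H ^ (κD + 4) := by
  obtain ⟨hg, hf, hf0, hind⟩ := hgf
  have hH0 : 0 < H := by linarith
  have hrR : (1 : ℝ) ≤ r := by exact_mod_cast hr
  set X : ℝ := r * (W * V) with hXdef
  have hWV : V ≤ W * V := le_mul_of_one_le_left (by linarith) hW
  have hVX : V ≤ X := by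
    rw [hXdef]
    exact hWV.trans (le_mul_of_one_le_left (by linarith) hrR)
  have hX1' : 1 ≤ X := hV.trans hVX
  set G : Fin (d + 1) → ℤ := fun i => ∑ j, h j * g j i with hG
  have hGne : G ≠ 0 := by
    intro h0
    apply hh
    have h3 := Fintype.linearIndependent_iff.1 hind h (by
      funext i
      have h4 := congrFun h0 i
      rw [hG] at h4
      simp only [Pi.zero_apply] at h4
      rw [Finset.sum_apply, Pi.zero_apply, ← h4]
      refine sum_congr rfl fun j _ => ?_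
      rw [Pi.smul_apply, smul_eq_mul])
    funext j
    exact h3 j
  have hGX : ∀ i, |(G i : ℝ)| ≤ X := by
    intro i
    rw [hG]
    push_cast
    refine (abs_sum_le_sum_abs _ _).trans ?_
    calc ∑ j, |(h j : ℝ) * (g j i : ℝ)| ≤ ∑ _j : Fin r, W * V := by
          refine sum_le_sum fun j _ => ?_
          rw [abs_mul]
          exact mul_le_mul (hhW j) (hg j i) (abs_nonneg _) (by linarith)
      _ = X := by rw [sum_const, card_univ, Fintype.card_fin, nsmul_eq_mul]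
  have hsum : ∑ j, (h j : ℝ) * (ev ξ (g j) / ev ξ f * ev ξ p) = ev ξ G / ev ξ f * ev ξ p := by
    have h3 : ev ξ G = ∑ j, (h j : ℝ) * ev ξ (g j) := by
      unfold ev
      simp only [hG, mul_sum]
      push_cast
      rw [sum_comm]
      refine sum_congr rfl fun i _ => ?_
      rw [sum_mul]
      refine sum_congr rfl fun j _ => ?_
      ring
    rw [h3, sum_div, sum_mul]
    refine sum_congr rfl fun j _ => ?_
    ring
  have hG1 := hd G hGne X hX1' hGX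
  have hf1 := hd f hf0 X hX1' (fun i => (hf i).trans hVX)
  have hp1 := hD p hp H hH hpH
  have hG2 := abs_ev_le (ξ := ξ) hGX
  have hf2 := abs_ev_le (ξ := ξ) (fun i => (hf i).trans hVX)
  have hp2 := abs_ev_le (ξ := ξ) hpH
  have hκ0 : 0 < X ^ κd := by positivity
  have hfpos : 0 < |ev ξ f| := by
    by_contra h3
    have h4 : |ev ξ f| = 0 := le_antisymm (not_lt.1 h3) (abs_nonneg _)
    rw [h4, mul_zero] at hf1
    linarith
  -- simplified bounds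
  have hGl : cd / H ≤ |ev ξ G| := by
    rw [div_le_iff₀ hH0]
    calc cd ≤ X ^ κd * |ev ξ G| := hG1
      _ ≤ H * |ev ξ G| := mul_le_mul_of_nonneg_right hX (abs_nonneg _)
      _ = |ev ξ G| * H := mul_comm _ _
  have hfl : cd / H ≤ |ev ξ f| := by
    rw [div_le_iff₀ hH0]
    calc cd ≤ X ^ κd * |ev ξ f| := hf1
      _ ≤ H * |ev ξ f| := mul_le_mul_of_nonneg_right hX (abs_nonneg _)
      _ = |ev ξ f| * H := mul_comm _ _
  set U : ℝ := (d + 1) * (1 + |ξ|) ^ d with hU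
  have hU0 : 0 < U := by rw [hU]; positivity
  have hGu : |ev ξ G| ≤ U * H := by
    refine hG2.trans ?_
    calc (d + 1) * X * (1 + |ξ|) ^ d = U * X := by rw [hU]; ring
      _ ≤ U * H := mul_le_mul_of_nonneg_left hX1 hU0.le
  have hfu : |ev ξ f| ≤ U * H := by
    refine hf2.trans ?_
    calc (d + 1) * X * (1 + |ξ|) ^ d = U * X := by rw [hU]; ring
      _ ≤ U * H := mul_le_mul_of_nonneg_left hX1 hU0.le
  have hpl : cD * H ^ (-κD) ≤ |ev ξ p| := by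
    have h3 : 0 < H ^ κD := by positivity
    rw [Real.rpow_neg hH0.le, ← div_eq_mul_inv, div_le_iff₀ h3, mul_comm]
    exact hp1
  rw [hsum, abs_mul, abs_div]
  constructor
  · -- lower
    have h3 : cd / H / (U * H) * (cD * H ^ (-κD)) ≤ |ev ξ G| / |ev ξ f| * |ev ξ p| := by
      refine mul_le_mul ?_ hpl (by positivity) (by positivity)
      exact div_le_div₀ (abs_nonneg _) hGl hfpos hfu
    refine le_trans ?_ h3
    have h4 : H ^ (-(κD + 4)) = H ^ (-κD) * (1 / H ^ (4 : ℕ)) := by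
      rw [neg_add, Real.rpow_add hH0, Real.rpow_neg hH0.le 4]
      congr 1
      rw [one_div]
      congr 1
      exact_mod_cast Real.rpow_natCast H 4
    rw [h4]
    have h5 : 1 / H ^ (4 : ℕ) ≤ cd * cD / (U * H ^ 2) := by
      rw [div_le_div_iff₀ (by positivity) (by positivity)]
      rw [div_le_iff₀ (by positivity)] at h1
      have h6 : (1 : ℝ) ≤ H ^ 2 := one_le_pow₀ hH
      have h7 : (0 : ℝ) < cd * cD := by positivity
      calc 1 * (U * H ^ 2) ≤ H * (cd * cD) * H ^ 2 := by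
            rw [one_mul]
            exact mul_le_mul_of_nonneg_right h1 (by positivity)
        _ = cd * cD * (H ^ 3 * 1) := by ring
        _ ≤ cd * cD * (H ^ 3 * H) := by gcongr
        _ = cd * cD * H ^ 4 := by ring
    calc H ^ (-κD) * (1 / H ^ (4 : ℕ)) ≤ H ^ (-κD) * (cd * cD / (U * H ^ 2)) := by gcongr
      _ = cd / H / (U * H) * (cD * H ^ (-κD)) := by
          field_simp
  · -- upper
    have h3 : |ev ξ G| / |ev ξ f| * |ev ξ p| ≤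
        (U * H) / (cd / H) * ((D + 1) * H * (1 + |ξ|) ^ D) := by
      refine mul_le_mul ?_ hp2 (abs_nonneg _) (by positivity)
      exact div_le_div₀ (by positivity) hGu (by positivity) hfl
    refine h3.trans ?_
    have h4 : (U * H) / (cd / H) * ((D + 1) * H * (1 + |ξ|) ^ D) =
        (d + 1) * (D + 1) * (1 + |ξ|) ^ (d + D) / cd * H ^ 3 := by
      rw [hU, pow_add]
      field_simp
    rw [h4]
    calc (d + 1) * (D + 1) * (1 + |ξ|) ^ (d + D) / cd * H ^ 3 ≤ H * H ^ 3 := by gcongr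
      _ = H ^ (4 : ℝ) := by
          rw [show (4 : ℝ) = ((4 : ℕ) : ℝ) by norm_num, Real.rpow_natCast]
          ring
      _ ≤ H ^ (κD + 4) := Real.rpow_le_rpow_of_exponent_le hH (by linarith)

/-- the value with the constant coefficient separated -/
lemma ev_cons {ξ : ℝ} {D : ℕ} (a : ℤ) (q : Fin D → ℤ) :
    ev ξ (Fin.cons a q : Fin (D + 1) → ℤ) = a + ∑ i : Fin D, (q i : ℝ) * ξ ^ ((i : ℕ) + 1) := by
  unfold ev
  rw [Fin.sum_univ_succ]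
  simp

/-- covering of the interval by a short interval and two other intervals -/
lemma cover (H : ℕ) (g Z : ℝ) : ∃ (a1 a2 : ℤ) (K1 K2 : ℕ), K1 ≤ 2 * H + 1 ∧ K2 ≤ 2 * H + 1 ∧
    (∀ m : ℤ, a1 ≤ m → m < a1 + K1 → -(H : ℤ) ≤ m ∧ m ≤ H ∧ Z ≤ |(m : ℝ) + g|) ∧
    (∀ m : ℤ, a2 ≤ m → m < a2 + K2 → -(H : ℤ) ≤ m ∧ m ≤ H ∧ Z ≤ |(m : ℝ) + g|) ∧
    ∀ m : ℤ, -(H : ℤ) ≤ m → m ≤ H → m ∈ Finset.Icc ⌈-Z - g⌉ ⌊Z - g⌋ ∨
      m ∈ Finset.Ico a1 (a1 + K1) ∨ m ∈ Finset.Ico a2 (a2 + K2) := by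
  refine ⟨max (-(H : ℤ)) ⌈Z - g⌉, -(H : ℤ), (H + 1 - max (-(H : ℤ)) ⌈Z - g⌉).toNat,
    (min (H : ℤ) ⌊-Z - g⌋ + 1 + H).toNat, ?_, ?_, ?_, ?_, ?_⟩
  · have := le_max_left (-(H : ℤ)) ⌈Z - g⌉
    omega
  · have := min_le_left (H : ℤ) ⌊-Z - g⌋
    omega
  · intro m h1 h2
    have h3 := le_max_left (-(H : ℤ)) ⌈Z - g⌉
    have h4 := le_max_right (-(H : ℤ)) ⌈Z - g⌉
    refine ⟨by omega, by omega, ?_⟩
    have h5 : ⌈Z - g⌉ ≤ m := h4.trans h1
    rw [Int.ceil_le] at h5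
    exact le_trans (by linarith) (le_abs_self _)
  · intro m h1 h2
    have h3 := min_le_left (H : ℤ) ⌊-Z - g⌋
    have h4 := min_le_right (H : ℤ) ⌊-Z - g⌋
    have h6 : m ≤ min (H : ℤ) ⌊-Z - g⌋ := by omega
    refine ⟨h1, by omega, ?_⟩
    have h5 : m ≤ ⌊-Z - g⌋ := h6.trans h4
    rw [Int.le_floor] at h5
    exact le_trans (by linarith) (neg_le_abs _)
  · intro m h1 h2
    by_cases hA : Z ≤ (m : ℝ) + g
    · right; left
      have h3 : ⌈Z - g⌉ ≤ m := Int.ceil_le.2 (by linarith)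
      rw [Finset.mem_Ico]
      have h4 : max (-(H : ℤ)) ⌈Z - g⌉ ≤ m := max_le h1 h3
      exact ⟨h4, by omega⟩
    · by_cases hB : (m : ℝ) + g ≤ -Z
      · right; right
        have h3 : m ≤ ⌊-Z - g⌋ := Int.le_floor.2 (by linarith)
        rw [Finset.mem_Ico]
        have h4 : m ≤ min (H : ℤ) ⌊-Z - g⌋ := le_min h2 h3
        exact ⟨h1, by omega⟩
      · left
        rw [Finset.mem_Icc, Int.ceil_le, Int.le_floor]
        constructor <;> linarith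

lemma card_short (g Z : ℝ) (hZ : 0 ≤ Z) :
    ((Finset.Icc ⌈-Z - g⌉ ⌊Z - g⌋).card : ℝ) ≤ 2 * Z + 1 := by
  rw [Int.card_Icc]
  have h1 := Int.le_ceil (-Z - g)
  have h2 := Int.floor_le (Z - g)
  rcases le_or_gt 0 (⌊Z - g⌋ + 1 - ⌈-Z - g⌉) with h | h
  · have h3 : (((⌊Z - g⌋ + 1 - ⌈-Z - g⌉).toNat : ℕ) : ℤ) = ⌊Z - g⌋ + 1 - ⌈-Z - g⌉ :=
      Int.toNat_of_nonneg h
    have h4 : ((((⌊Z - g⌋ + 1 - ⌈-Z - g⌉).toNat : ℕ) : ℤ) : ℝ) =
        ((⌊Z - g⌋ + 1 - ⌈-Z - g⌉ : ℤ) : ℝ) := by rw [h3]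
    rw [Int.cast_natCast] at h4
    rw [h4]
    push_cast
    linarith
  · rw [Int.toNat_of_nonpos (by omega)]
    push_cast
    linarith

end Pool.Agent.N586.GF
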