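import Pool.Agent.N586.GF.FrMain
import Pool.Agent.TH456.TM.E
import Pool.Agent.TH456.TM.Inst

/-!
# Project FR: transcendence measures for polynomials given by their coefficients
-/

set_option autoImplicit false

namespace Pool.Agent.N586.GF

open Finset Real Polynomial
open Pool.Agent.TH456.TM (MeasT)

lemma measV_of_measT (ξ : ℝ) (h : MeasT (ξ : ℂ)) (D : ℕ) : MeasV ξ D := by
  obtain ⟨κ, c, hκ, hc, h⟩ := h D
  refine ⟨κ, c, hκ, hc, fun p hp X hX hpX => ?_⟩
  set P : ℤ[X] := ∑ i : Fin (D + 1), monomial (i : ℕ) (p i) with hP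
  have hcoef : ∀ j : ℕ, P.coeff j = if hj : j < D + 1 then p ⟨j, hj⟩ else 0 := by
    intro j
    rw [hP, finsetSum_coeff]
    simp only [coeff_monomial]
    split_ifs with hj
    · rw [sum_eq_single ⟨j, hj⟩]
      · simp
      · intro i _ hij
        rw [if_neg]
        intro h1
        exact hij (Fin.ext h1)
      · intro h1
        exact absurd (mem_univ _) h1
    · refine sum_eq_zero fun i _ => ?_
      rw [if_neg]
      have := i.2
      omega
  have hP0 : P ≠ 0 := by
    intro h0
    apply hp
    funext i
    have h1 := hcoef i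
    rw [h0, coeff_zero, dif_pos i.2] at h1
    exact h1.symm
  have hdeg : P.natDegree ≤ D := by
    rw [natDegree_le_iff_coeff_eq_zero]
    intro j hj
    rw [hcoef, dif_neg (by omega)]
  have h1 := h P hP0 hdeg X hX (fun j => by
    rw [hcoef]
    split_ifs with hj
    · exact hpX _
    · simp
      linarith)
  have h2 : ‖aeval (ξ : ℂ) P‖ = |ev ξ p| := by
    rw [← Pool.Agent.TH456.TM.abs_aeval]
    congr 1
    rw [hP, map_sum]
    unfold ev
    refine sum_congr rfl fun i _ => ?_
    rw [aeval_monomial]
    simp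
  rwa [h2] at h1

end Pool.Agent.N586.GF
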