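import Pool.Agent.N586.GF.Stm3

/-!
# Project FR: the elements of the field `ℚ(ξ)`, `ξ = π`, `e`, …, up to `(log H) ^ (1 + δ)` digits.
Statement of the exponential sums with the tolerance `q ^ ((k + 1) / 200)` for the `k`-th coefficient.
-/

set_option autoImplicit false

namespace Pool.Agent.N586.GF

open Finset Filter
open Pool.Agent.Y933.KD (e)
open Pool.Agent.N586.KO (MM)

/-- the coefficient `c k` is between `q ^ (-(k + 1) / 200)` and `q ^ ((k + 1) / 200)`, the lower bound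
for `k0 ≤ k ≤ R` -/
structure CfQ (q : ℕ) (R : ℝ) (k0 : ℕ) (c : ℕ → ℝ) : Prop where
  up : ∀ k : ℕ, |c k| ≤ (q : ℝ) ^ (((k : ℝ) + 1) / 200)
  lo : ∀ k : ℕ, k0 ≤ k → (k : ℝ) ≤ R → (q : ℝ) ^ (-(((k : ℝ) + 1) / 200)) ≤ |c k|

/-- G8: the exponential sums, with the tolerance `q ^ ((k + 1) / 200)` -/
def S_SUM3 : Prop := ∀ (δ β : ℝ) (k0 : ℕ), 0 < δ → 0 < β → 2 * δ + β < 1 →
    ∃ q0 : ℕ, ∀ q : ℕ, q0 ≤ q → ∀ (A' B' : ℕ) (R θ : ℝ) (Φ : ℝ → ℝ), Real.log q ≤ R →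
    (q : ℝ) ^ (k0 + 2) ≤ |θ| → |θ| ≤ Real.exp ((Real.log q) ^ (1 + δ)) →
    (∀ a : ℕ, A' ≤ a → a ≤ B' → ∃ c : ℕ → ℝ, CfQ q R k0 c ∧
      ∀ y : ℝ, 0 ≤ y → y ≤ (q : ℝ) ^ (4 / 5 : ℝ) →
        HasSum (fun k : ℕ => θ * c k * (y / q) ^ k) (Φ ((a : ℝ) + y))) →
    ‖∑ a ∈ Finset.Icc A' B', e (Φ a)‖ ≤ 2 * (MM q : ℝ) ^ 2 +
      ((Finset.Icc A' B').card : ℝ) * Real.exp (-(Real.log q) ^ β)

end Pool.Agent.N586.GF
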