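import Pool.Agent.N586.GF.SrMain
import Pool.Agent.N586.GF.Stm4

/-!
# Project FR: one tuple `α_j / (c + γ)`, exceptional sets of size `exp (-(log H) ^ β)`
-/

set_option autoImplicit false

namespace Pool.Agent.N586.GF

open Finset Real Filter
open Pool.Agent.Y933.KD (e wd)
open Pool.Agent.Y933.KD.VdC (ev_le)
open Pool.Agent.N586.RT (logpow log_ge)
open Pool.Agent.N586.KO (MM)
open Pool.Agent.N586.JT (S_BT)

/-- the expansion of `1 / (x + y)` -/
lemma inv_hasSum {x y : ℝ} (hy : 0 ≤ y) (hx : y < |x|) :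
    HasSum (fun k : ℕ => (-1) ^ k * x⁻¹ ^ (k + 1) * y ^ k) (x + y)⁻¹ := by
  have hx0 : 0 < |x| := lt_of_le_of_lt hy hx
  have hxn : x ≠ 0 := abs_pos.1 hx0
  have h1 : |-(y / x)| < 1 := by
    rw [abs_neg, abs_div, abs_of_nonneg hy, div_lt_one hx0]
    exact hx
  have h := (hasSum_geometric_of_abs_lt_one h1).mul_left x⁻¹
  have hxy : x + y ≠ 0 := by
    intro h0
    have : x = -y := by linarith
    rw [this, abs_neg, abs_of_nonneg hy] at hx
    exact lt_irrefl _ hx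
  have h2 : x⁻¹ * (1 - -(y / x))⁻¹ = (x + y)⁻¹ := by
    rw [← mul_inv]
    congr 1
    field_simp
    ring
  rw [h2] at h
  have h3 : (fun k : ℕ => x⁻¹ * (-(y / x)) ^ k) =
      fun k : ℕ => (-1) ^ k * x⁻¹ ^ (k + 1) * y ^ k := by
    funext k
    rw [neg_pow (y / x), div_pow, pow_succ, inv_pow]
    field_simp
  rw [h3] at h
  exact h

open Classical in
/-- one tuple and one base -/
theorem fr_one (hS : S_SUM3) (hBT : S_BT) (κ δ β γ C0 : ℝ)
    (hκ : 0 ≤ κ) (hδ : 0 < δ) (hβ : 0 < β) (hγ0 : 0 < γ)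
    (hδβ : 2 * (δ + γ) + (β + 2 * γ) < 1) (w r b : ℕ) (hr : 1 ≤ r)
    (hb : 2 ≤ b) (ε : ℝ) (hε : 0 < ε) (hC0 : C0 = ((⌈κ⌉₊ + 3 : ℕ) : ℝ) / log 2) :
    ∃ c : ℝ, 0 < c ∧ ∃ H0 : ℕ, ∀ H : ℕ, H0 ≤ H → ∀ α : Fin r → ℝ,
      (∀ h : Fin r → ℤ, h ≠ 0 → (∀ j, |(h j : ℝ)| ≤ exp ((log H) ^ (β + γ))) →
        (H : ℝ) ^ (-κ) ≤ |∑ j, (h j : ℝ) * α j| ∧ |∑ j, (h j : ℝ) * α j| ≤ (H : ℝ) ^ κ) →
      ∀ (g : ℝ) (a : ℤ) (K : ℕ), (H : ℝ) ^ (4 / 5 : ℝ) ≤ K →
      (∀ m : ℤ, a ≤ m → m < a + K → (H : ℝ) ^ (199 / 200 : ℝ) ≤ |(m : ℝ) + g| ∧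
        |(m : ℝ) + g| ≤ (H : ℝ) ^ (201 / 200 : ℝ)) →
      (((Finset.Ico a (a + K)).filter (fun m : ℤ => ¬ NwW b w ⌈C0 * log H⌉₊
        ((log H) ^ (1 + δ)) ε (ε * log H) (fun j => α j / ((m : ℝ) + g)))).card : ℝ) ≤
        K * ((log H) ^ (1 + δ) * Real.exp (-(c * (log H) ^ (β + γ)))) := by
  obtain ⟨q2, h2⟩ := hS (δ + γ) (β + 2 * γ) 0 (by linarith) (by linarith) hδβ
  obtain ⟨c, hc, τ0, hfam⟩ := fam hBT b w r ε hb hr hε
  have hlog2 : 0 < log 2 := Real.log_pos (by norm_num)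
  have hbR : (2 : ℝ) ≤ b := by exact_mod_cast hb
  have hlogb : 0 ≤ log (b : ℝ) := Real.log_nonneg (by linarith)
  have hC00 : 0 ≤ C0 := by rw [hC0]; positivity
  refine ⟨c, hc, ?_⟩
  obtain ⟨q3, hq3⟩ := eventually_atTop.1 (((((((log_ge 1).and
    (logpow (by linarith : (0 : ℝ) < β + γ) τ0)).and
    (logpow (by linarith : β + γ < 1) (1 / ε))).and
    (logpow (by linarith : β + γ < β + 2 * γ) 2)).and
    (logpow (by linarith : 1 + δ < 1 + (δ + γ)) ((C0 + 2) * log b + κ))).and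
    (logpow (by linarith : β + γ < 1) 100)).and
    (ev_le 4 (1 / 100) (by norm_num)))
  refine ⟨max (max q2 q3) 2, fun M hMM α hα g a K hK1 hK2 => ?_⟩
  have hqq2 : q2 ≤ M := (le_max_left _ _).trans ((le_max_left _ _).trans hMM)
  obtain ⟨⟨⟨⟨⟨⟨hL1, hτ1⟩, hτ2⟩, hτ3⟩, hLb⟩, h100⟩, hq4⟩ :=
    hq3 M ((le_max_right _ _).trans ((le_max_left _ _).trans hMM))
  have hq2 : 2 ≤ M := (le_max_right _ _).trans hMM
  have hqR : (2 : ℝ) ≤ M := by exact_mod_cast hq2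
  have hq0 : (0 : ℝ) < M := by linarith
  have h2q := h2 M hqq2
  obtain ⟨L, hL⟩ : ∃ L : ℝ, L = log M := ⟨_, rfl⟩
  rw [← hL] at hL1 hτ1 hτ2 hτ3 hLb h100 h2q hα ⊢
  rw [Real.rpow_zero, mul_one] at hτ1
  rw [Real.rpow_one] at hτ2 h100
  have hL0 : 0 < L := by linarith
  have hMexp : ∀ x : ℝ, (M : ℝ) ^ x = Real.exp (x * L) := by
    intro x
    rw [Real.rpow_def_of_pos hq0, hL, mul_comm]
  obtain ⟨τ, hτ⟩ : ∃ τ : ℝ, τ = L ^ (β + γ) := ⟨_, rfl⟩
  rw [← hτ] at hτ1 hτ2 hτ3 h100 hα ⊢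
  have hτge1 : 1 ≤ τ := by rw [hτ]; exact Real.one_le_rpow hL1 (by linarith)
  set T : ℝ := L ^ (1 + δ) with hT
  have hT1 : 1 ≤ T := Real.one_le_rpow hL1 (by linarith)
  have hTL : L ≤ T := by
    calc L = L ^ (1 : ℝ) := (Real.rpow_one L).symm
      _ ≤ L ^ (1 + δ) := Real.rpow_le_rpow_of_exponent_le hL1 (by linarith)
  set n0 : ℕ := ⌈C0 * L⌉₊ with hn0
  have hn0a : C0 * L ≤ n0 := Nat.le_ceil _
  have hn0b : (n0 : ℝ) ≤ C0 * L + 1 := (Nat.ceil_lt_add_one (by positivity)).le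
  have hcard : (((Finset.Icc 1 K).card : ℕ) : ℝ) = (K : ℝ) := by
    rw [Nat.card_Icc]
    congr 1
  have hKpos : (1 : ℝ) ≤ K := (Real.one_le_rpow (by linarith) (by norm_num)).trans hK1
  have hI : (Finset.Icc 1 K).Nonempty := by
    rw [Finset.nonempty_Icc]
    exact_mod_cast hKpos
  have hMMs : 2 * (MM M : ℝ) ^ 2 ≤ 1 / 2 * ((K : ℝ) * Real.exp (-τ)) := by
    have h3 := MM_small (q := M) (by omega)
    have h4 : (M : ℝ) ^ (4 / 5 : ℝ) = (M : ℝ) ^ (78 / 100 : ℝ) * ((M : ℝ) ^ (1 / 100 : ℝ) *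
        (M : ℝ) ^ (1 / 100 : ℝ)) := by
      rw [← Real.rpow_add hq0, ← Real.rpow_add hq0]; norm_num
    have h5 : 0 < (M : ℝ) ^ (1 / 100 : ℝ) := by positivity
    have h6 : 0 < (M : ℝ) ^ (78 / 100 : ℝ) := by positivity
    have h7 : Real.exp τ ≤ (M : ℝ) ^ (1 / 100 : ℝ) := by
      rw [hMexp]
      apply Real.exp_le_exp.2
      linarith
    have h8 : 4 * (MM M : ℝ) ^ 2 * Real.exp τ ≤ K := by
      calc 4 * (MM M : ℝ) ^ 2 * Real.exp τ = (MM M : ℝ) ^ 2 * (4 * Real.exp τ) := by ring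
        _ ≤ (M : ℝ) ^ (78 / 100 : ℝ) * ((M : ℝ) ^ (1 / 100 : ℝ) * (M : ℝ) ^ (1 / 100 : ℝ)) :=
          mul_le_mul h3 (mul_le_mul hq4 h7 (Real.exp_pos _).le h5.le) (by positivity) h6.le
        _ = (M : ℝ) ^ (4 / 5 : ℝ) := h4.symm
        _ ≤ K := hK1
    calc 2 * (MM M : ℝ) ^ 2 = 1 / 2 * (4 * (MM M : ℝ) ^ 2 * Real.exp τ * Real.exp (-τ)) := by
          rw [mul_assoc (4 * (MM M : ℝ) ^ 2), ← Real.exp_add]
          norm_num
          ring
      _ ≤ 1 / 2 * ((K : ℝ) * Real.exp (-τ)) := by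
          have := mul_le_mul_of_nonneg_right h8 (Real.exp_pos (-τ)).le
          linarith
  have hexp3 : (K : ℝ) * Real.exp (-L ^ (β + 2 * γ)) ≤ 1 / 2 * ((K : ℝ) * Real.exp (-τ)) := by
    have h3 : Real.exp (-L ^ (β + 2 * γ)) ≤ Real.exp (-1) * Real.exp (-τ) := by
      rw [← Real.exp_add]
      apply Real.exp_le_exp.2
      linarith
    have h4 : Real.exp (-1) ≤ 1 / 2 := by
      rw [Real.exp_neg, inv_eq_one_div]
      apply one_div_le_one_div_of_le (by norm_num)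
      have := Real.add_one_le_exp (1 : ℝ)
      linarith
    have h5 : Real.exp (-L ^ (β + 2 * γ)) ≤ 1 / 2 * Real.exp (-τ) :=
      h3.trans (mul_le_mul_of_nonneg_right h4 (Real.exp_pos _).le)
    calc (K : ℝ) * Real.exp (-L ^ (β + 2 * γ)) ≤ K * (1 / 2 * Real.exp (-τ)) :=
          mul_le_mul_of_nonneg_left h5 (by linarith)
      _ = _ := by ring
  set x0 : ℝ := (a : ℝ) - 1 + g with hx0
  have hrange : ∀ k : ℕ, 1 ≤ k → k ≤ K → (M : ℝ) ^ (199 / 200 : ℝ) ≤ |x0 + k| ∧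
      |x0 + k| ≤ (M : ℝ) ^ (201 / 200 : ℝ) := by
    intro k hk1 hk2
    have h3 := hK2 (a - 1 + k) (by omega) (by omega)
    have h4 : (((a - 1 + k : ℤ) : ℝ)) + g = x0 + k := by
      rw [hx0]
      push_cast
      ring
    rwa [h4] at h3
  have hfamq := hfam τ hτ1 T hT1 (Finset.Icc 1 K) (fun k j => α j / (x0 + k)) n0 hI (by
    intro n h hn hh hhW
    obtain ⟨hΛ1, hΛ2⟩ := hα h hh hhW
    set Λ : ℝ := ∑ j, (h j : ℝ) * α j with hΛ
    set θ0 : ℝ := (b : ℝ) ^ (n0 + n) with hθ0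
    have hθ00 : 0 < θ0 := by rw [hθ0]; positivity
    have habs : |θ0 * Λ / M| = θ0 * |Λ| / M := by
      rw [abs_div, abs_mul, abs_of_pos hθ00, abs_of_pos hq0]
    have hθlow : (M : ℝ) ^ (0 + 2) ≤ |θ0 * Λ / M| := by
      rw [habs]
      have h3 : (M : ℝ) ^ (⌈κ⌉₊ + 3) ≤ θ0 := by
        rw [hθ0]
        refine (pow_lower (k := ⌈κ⌉₊ + 3) (n := n0) hb hq0 ?_).trans
          (pow_le_pow_right₀ (by linarith) (by omega))
        rw [← hL, ← hC0]
        exact hn0a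
      have h4 : (M : ℝ) ^ (0 + 2) ≤ (M : ℝ) ^ (⌈κ⌉₊ + 3) * (M : ℝ) ^ (-κ) / (M : ℝ) ^ (1 : ℝ) := by
        rw [← Real.rpow_natCast (M : ℝ) (⌈κ⌉₊ + 3), ← Real.rpow_natCast (M : ℝ) (0 + 2),
          ← Real.rpow_add hq0, ← Real.rpow_sub hq0]
        apply Real.rpow_le_rpow_of_exponent_le (by linarith)
        push_cast
        have h5 : κ ≤ ⌈κ⌉₊ := Nat.le_ceil _
        linarith
      refine h4.trans ?_
      rw [Real.rpow_one]
      apply div_le_div_of_nonneg_right _ hq0.le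
      exact mul_le_mul h3 hΛ1 (by positivity) hθ00.le
    have hθup : |θ0 * Λ / M| ≤ Real.exp (L ^ (1 + (δ + γ))) := by
      rw [habs]
      have h3 : θ0 ≤ Real.exp ((C0 + 2) * log b * T) := by
        have h4 : (b : ℝ) ^ (n0 + n) = Real.exp (((n0 + n : ℕ) : ℝ) * log b) := by
          rw [mul_comm, Real.exp_mul, Real.exp_log (by linarith), Real.rpow_natCast]
        rw [hθ0, h4]
        apply Real.exp_le_exp.2
        have h5 : ((n0 + n : ℕ) : ℝ) ≤ (C0 + 2) * T := by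
          push_cast
          have h6 : C0 * L ≤ C0 * T := mul_le_mul_of_nonneg_left hTL hC00
          linarith
        calc ((n0 + n : ℕ) : ℝ) * log b ≤ (C0 + 2) * T * log b :=
              mul_le_mul_of_nonneg_right h5 hlogb
          _ = _ := by ring
      calc θ0 * |Λ| / M ≤ θ0 * |Λ| := div_le_self (by positivity) (by linarith)
        _ ≤ Real.exp ((C0 + 2) * log b * T) * (M : ℝ) ^ κ := by gcongr
        _ = Real.exp ((C0 + 2) * log b * T + κ * L) := by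
            rw [hMexp, ← Real.exp_add]
        _ ≤ _ := by
            apply Real.exp_le_exp.2
            refine le_trans ?_ hLb
            have h10 := mul_le_mul_of_nonneg_left hTL hκ
            linarith
    have h3 := h2q 1 K L (θ0 * Λ / M) (fun y => θ0 * Λ * (x0 + y)⁻¹) le_rfl hθlow hθup
      (by
        intro k hk1 hk2
        obtain ⟨hr1, hr2⟩ := hrange k hk1 hk2
        have hxp : 0 < |x0 + k| := lt_of_lt_of_le (by positivity) hr1
        refine ⟨fun i => (-1) ^ i * ((M : ℝ) / (x0 + k)) ^ (i + 1), ⟨fun i => ?_, fun i _ _ => ?_⟩,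
          fun y hy0 hy => ?_⟩
        · rw [abs_mul, abs_pow, abs_neg, abs_one, one_pow, one_mul, abs_pow, abs_div,
            abs_of_pos hq0]
          have h5 : (M : ℝ) / |x0 + k| ≤ (M : ℝ) ^ (1 / 200 : ℝ) := by
            rw [div_le_iff₀ hxp]
            calc (M : ℝ) = (M : ℝ) ^ (1 / 200 : ℝ) * (M : ℝ) ^ (199 / 200 : ℝ) := by
                  rw [← Real.rpow_add hq0]; norm_num
              _ ≤ (M : ℝ) ^ (1 / 200 : ℝ) * |x0 + k| := by gcongr
          calc ((M : ℝ) / |x0 + k|) ^ (i + 1) ≤ ((M : ℝ) ^ (1 / 200 : ℝ)) ^ (i + 1) := by gcongr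
            _ = (M : ℝ) ^ (((i : ℝ) + 1) / 200) := by
                rw [← Real.rpow_natCast, ← Real.rpow_mul hq0.le]
                congr 1
                push_cast
                ring
        · rw [abs_mul, abs_pow, abs_neg, abs_one, one_pow, one_mul, abs_pow, abs_div,
            abs_of_pos hq0]
          have h5 : (M : ℝ) ^ (-(1 / 200) : ℝ) ≤ (M : ℝ) / |x0 + k| := by
            rw [le_div_iff₀ hxp]
            calc (M : ℝ) ^ (-(1 / 200) : ℝ) * |x0 + k| ≤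
                (M : ℝ) ^ (-(1 / 200) : ℝ) * (M : ℝ) ^ (201 / 200 : ℝ) := by gcongr
              _ = M := by rw [← Real.rpow_add hq0]; norm_num
          calc (M : ℝ) ^ (-(((i : ℝ) + 1) / 200)) = ((M : ℝ) ^ (-(1 / 200) : ℝ)) ^ (i + 1) := by
                rw [← Real.rpow_natCast, ← Real.rpow_mul hq0.le]
                congr 1
                push_cast
                ring
            _ ≤ ((M : ℝ) / |x0 + k|) ^ (i + 1) := by gcongr
        · have hyx : y < |x0 + k| := by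
            refine lt_of_le_of_lt hy (lt_of_lt_of_le ?_ hr1)
            exact Real.rpow_lt_rpow_of_exponent_lt (by linarith) (by norm_num)
          have h5 := (inv_hasSum hy0 hyx).mul_left (θ0 * Λ)
          have h6 : (x0 + k) + y = x0 + ((k : ℝ) + y) := by ring
          rw [h6] at h5
          have h7 : (fun i : ℕ => θ0 * Λ * ((-1) ^ i * (x0 + k)⁻¹ ^ (i + 1) * y ^ i)) =
              fun i : ℕ => θ0 * Λ / M * ((-1) ^ i * ((M : ℝ) / (x0 + k)) ^ (i + 1)) *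
                (y / M) ^ i := by
            funext i
            have hM0 := hq0.ne'
            have hx0 : x0 + (k : ℝ) ≠ 0 := abs_pos.1 hxp
            rw [div_pow, div_pow, inv_pow, pow_succ (M : ℝ) i]
            field_simp
          rw [h7] at h5
          exact h5)
    have h4 : ∀ k : ℕ, (b : ℝ) ^ (n0 + n) * ∑ j, (h j : ℝ) * (α j / (x0 + k)) =
        θ0 * Λ * (x0 + k)⁻¹ := by
      intro k
      rw [hΛ, mul_assoc, sum_mul]
      congr 1
      refine sum_congr rfl fun j _ => ?_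
      rw [div_eq_mul_inv]
      ring
    have h10 : ∑ k ∈ Finset.Icc 1 K, e ((b : ℝ) ^ (n0 + n) *
        ∑ j, (h j : ℝ) * (α j / (x0 + k))) =
        ∑ k ∈ Finset.Icc 1 K, e (θ0 * Λ * (x0 + k)⁻¹) := sum_congr rfl fun k _ => by rw [h4 k]
    refine (le_of_eq (congrArg _ h10)).trans ?_
    refine h3.trans ?_
    rw [hcard]
    linarith)
  rw [hcard] at hfamq
  have hsub : (Finset.Ico a (a + K)).filter (fun m : ℤ => ¬ NwW b w n0 T ε (ε * L)
      (fun j => α j / ((m : ℝ) + g))) ⊆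
      ((Finset.Icc 1 K).filter (fun k : ℕ => ¬ NwW b w n0 T ε τ
        (fun j => α j / (x0 + k)))).image (fun k : ℕ => a - 1 + (k : ℤ)) := by
    intro m hm
    rw [Finset.mem_filter, Finset.mem_Ico] at hm
    obtain ⟨⟨hm1, hm2⟩, hm3⟩ := hm
    rw [Finset.mem_image]
    refine ⟨(m - a + 1).toNat, ?_, by omega⟩
    rw [Finset.mem_filter, Finset.mem_Icc]
    refine ⟨by omega, fun h8 => hm3 ?_⟩
    have h9 : x0 + (((m - a + 1).toNat : ℕ) : ℝ) = (m : ℝ) + g := by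
      have h10 : (((m - a + 1).toNat : ℕ) : ℤ) = m - a + 1 := Int.toNat_of_nonneg (by omega)
      have h11 : ((((m - a + 1).toNat : ℕ) : ℤ) : ℝ) = ((m - a + 1 : ℤ) : ℝ) := by rw [h10]
      rw [Int.cast_natCast] at h11
      rw [h11, hx0]
      push_cast
      ring
    rw [h9] at h8
    refine h8.mono ?_
    have h9 : 1 / ε * τ ≤ L := hτ2
    rw [one_div, inv_mul_le_iff₀ hε] at h9
    exact h9
  refine le_trans (Nat.cast_le.2 ((card_le_card hsub).trans card_image_le)) ?_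
  exact hfamq

end Pool.Agent.N586.GF
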