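import Pool.Agent.N586.GF.Stm
import Pool.Agent.N586.KO.Core

/-!
# Project GF, GF/1: Vinogradov's bilinear sum for a power series (helper123, after KO/Core of
helper296)
-/

set_option autoImplicit false

namespace Pool.Agent.N586.GF

open Finset Real Filter
open Pool.Agent.Y933.KD (e norm_e e_add)
open Pool.Agent.Y957.VK (TT)
open Pool.Agent.Y933.KD.VdC (ev_le)
open Pool.Agent.N586.RT (logpow log_ge ph ph_eq norm_e_sub)
open Pool.Agent.N586.AN (pair_TT pair_tail)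
open Pool.Agent.N586.KO (MM S_TN4)

/-- replacing the phase by its Taylor polynomial; the expansion is only needed up to `M ^ 2` -/
lemma one_pair {g h : ℕ → ℝ} {A X : ℝ} {r M : ℕ} (hA : 0 ≤ A) (hX : 0 < X)
    (hz : 2 * (M : ℝ) ^ 2 / X ≤ 1 / 2) (hg : ∀ k, |g k| ≤ A * (2 / X) ^ k)
    (hs : ∀ n : ℕ, (n : ℝ) ≤ (M : ℝ) ^ 2 → HasSum (fun k => g k * (n : ℝ) ^ k) (h n)) :
    ‖∑ x ∈ Finset.Icc 1 M, ∑ y ∈ Finset.Icc 1 M, e (h (x * y))‖ ≤
      ‖TT r M g‖ + (M : ℝ) ^ 2 * (2 * π * (2 * A * (2 * (M : ℝ) ^ 2 / X) ^ (r + 1))) := by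
  have happ : ∀ x ∈ Finset.Icc 1 M, ∀ y ∈ Finset.Icc 1 M,
      ‖e (h (x * y)) - e (g 0) * ph r g ((x : ℝ) * y)‖ ≤
        2 * π * (2 * A * (2 * (M : ℝ) ^ 2 / X) ^ (r + 1)) := by
    intro x hx y hy
    rw [Finset.mem_Icc] at hx hy
    have hxM : (x : ℝ) ≤ M := by exact_mod_cast hx.2
    have hyM : (y : ℝ) ≤ M := by exact_mod_cast hy.2
    have hn1 : ((x * y : ℕ) : ℝ) ≤ (M : ℝ) ^ 2 := by
      push_cast
      rw [sq]
      exact mul_le_mul hxM hyM (Nat.cast_nonneg _) (Nat.cast_nonneg _)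
    have hz2 : 4 * ((x * y : ℕ) : ℝ) / (2 * X) ≤ 2 * (M : ℝ) ^ 2 / X := by
      rw [div_le_div_iff₀ (by positivity) hX]
      nlinarith
    have hs' : HasSum (fun k => g (k + 1) * ((x * y : ℕ) : ℝ) ^ (k + 1)) (h (x * y) - g 0) := by
      have h1 := (hasSum_nat_add_iff' 1).2 (hs (x * y) hn1)
      simpa using h1
    have h1 := pair_tail (r := r) (A := A / 2) (X := 2 * X) (by linarith) (by linarith)
      (Nat.cast_nonneg (x * y)) (hz2.trans hz) (fun k _ => by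
        have h2 := hg k
        have h3 : 4 / (2 * X) = 2 / X := by field_simp; norm_num
        rw [h3]
        linarith) hs'
    have h2 : e (g 0) * ph r g ((x : ℝ) * y) =
        e (g 0 + ∑ j ∈ Finset.Icc 1 r, g j * ((x * y : ℕ) : ℝ) ^ j) := by
      rw [e_add, ph_eq]
      push_cast
      rfl
    rw [h2]
    refine (norm_e_sub _ _).trans ?_
    have h4 : h (x * y) - (g 0 + ∑ j ∈ Finset.Icc 1 r, g j * ((x * y : ℕ) : ℝ) ^ j) =
        h (x * y) - g 0 - ∑ j ∈ Finset.Icc 1 r, g j * ((x * y : ℕ) : ℝ) ^ j := by ring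
    rw [h4]
    calc 2 * π * |h (x * y) - g 0 - ∑ j ∈ Finset.Icc 1 r, g j * ((x * y : ℕ) : ℝ) ^ j| ≤
        2 * π * (4 * (A / 2) * (4 * ((x * y : ℕ) : ℝ) / (2 * X)) ^ (r + 1)) := by gcongr
      _ ≤ 2 * π * (4 * (A / 2) * (2 * (M : ℝ) ^ 2 / X) ^ (r + 1)) := by gcongr
      _ = _ := by ring
  have hdiff : ‖∑ x ∈ Finset.Icc 1 M, ∑ y ∈ Finset.Icc 1 M, e (h (x * y)) - e (g 0) * TT r M g‖ ≤
      (M : ℝ) ^ 2 * (2 * π * (2 * A * (2 * (M : ℝ) ^ 2 / X) ^ (r + 1))) := by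
    rw [pair_TT, Finset.mul_sum, ← Finset.sum_sub_distrib]
    refine (norm_sum_le _ _).trans ?_
    calc _ ≤ ∑ _x ∈ Finset.Icc 1 M, (M : ℝ) *
          (2 * π * (2 * A * (2 * (M : ℝ) ^ 2 / X) ^ (r + 1))) := by
          refine Finset.sum_le_sum fun x hx => ?_
          rw [Finset.mul_sum, ← Finset.sum_sub_distrib]
          refine (norm_sum_le _ _).trans ?_
          refine (Finset.sum_le_sum fun y hy => happ x hx y hy).trans (le_of_eq ?_)
          rw [Finset.sum_const, Nat.card_Icc, Nat.add_sub_cancel, nsmul_eq_mul]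
      _ = _ := by
          rw [Finset.sum_const, Nat.card_Icc, Nat.add_sub_cancel, nsmul_eq_mul]
          ring
  have h1 := norm_add_le (∑ x ∈ Finset.Icc 1 M, ∑ y ∈ Finset.Icc 1 M, e (h (x * y)) -
      e (g 0) * TT r M g) (e (g 0) * TT r M g)
  rw [sub_add_cancel, norm_mul, norm_e, one_mul] at h1
  linarith

/-- **G1**: the bilinear sum at one point -/
theorem one (h : S_TN4) : S_ONE := by
  intro C A δ β k0 hC1 hA0 hδ hβ hδβ
  obtain ⟨c, hc0, C0, hC0, hC⟩ := h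
  obtain ⟨q1, hq1⟩ := eventually_atTop.1 ((((((((ev_le 16 (1 / 1000) (by norm_num)).and
    (ev_le C (1 / 1000) (by norm_num))).and
    (log_ge 1000)).and
    (logpow (by linarith : δ < 1) (320 * A + 4))).and
    (logpow (by linarith : β < 1 - 2 * δ) (8 / c))).and
    (logpow hβ (C0 + 16))).and
    (logpow (by linarith : β < 1) 2)).and (eventually_ge_atTop 2))
  refine ⟨q1, ?_⟩
  intro q hq co R θ φ hR hcf hθ1 hθ2 hφ
  obtain ⟨⟨⟨⟨⟨⟨⟨hbig, hbC⟩, hb8⟩, hbA⟩, hb9⟩, hb10⟩, hb11⟩, hq2⟩ := hq1 q hq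
  have hqR : (2 : ℝ) ≤ q := by exact_mod_cast hq2
  have hq0 : (0 : ℝ) < q := by linarith
  have hq1R : (1 : ℝ) ≤ q := by linarith
  obtain ⟨L, hL⟩ : ∃ L : ℝ, L = log q := ⟨_, rfl⟩
  rw [← hL] at hb8 hbA hb9 hb10 hb11 hR hθ2 ⊢
  rw [Real.rpow_one] at hb11 hbA
  rw [Real.rpow_zero, mul_one] at hb10
  have hLp : 0 < L := by linarith
  have hexp : ∀ x : ℝ, (q : ℝ) ^ x = Real.exp (x * L) := by
    intro x
    rw [Real.rpow_def_of_pos hq0, hL, mul_comm]
  have hadd : ∀ x y : ℝ, (q : ℝ) ^ x * (q : ℝ) ^ y = (q : ℝ) ^ (x + y) :=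
    fun x y => (Real.rpow_add hq0 x y).symm
  have hmono : ∀ x y : ℝ, x ≤ y → (q : ℝ) ^ x ≤ (q : ℝ) ^ y := fun x y hxy =>
    Real.rpow_le_rpow_of_exponent_le hq1R hxy
  have hpos : ∀ x : ℝ, 0 < (q : ℝ) ^ x := fun x => Real.rpow_pos_of_pos hq0 x
  -- the length
  obtain ⟨M, hM⟩ : ∃ M : ℕ, M = MM q := ⟨_, rfl⟩
  rw [← hM]
  have hMhi : (M : ℝ) ≤ (q : ℝ) ^ (39 / 100 : ℝ) := by
    rw [hM]
    exact Nat.floor_le (by positivity)
  have hMlo : (q : ℝ) ^ (39 / 100 : ℝ) ≤ 2 * M := by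
    have h1 := Nat.lt_floor_add_one ((q : ℝ) ^ (39 / 100 : ℝ))
    have h2 : (⌊(q : ℝ) ^ (39 / 100 : ℝ)⌋₊ : ℝ) = M := by rw [hM]; rfl
    rw [h2] at h1
    have := hmono (1 / 1000) (39 / 100) (by norm_num)
    linarith
  have hM1R : (1 : ℝ) ≤ M := by
    have := hmono (1 / 1000) (39 / 100) (by norm_num)
    linarith
  have hM1 : 1 ≤ M := by exact_mod_cast hM1R
  have hM2 : (M : ℝ) ^ 2 ≤ (q : ℝ) ^ (78 / 100 : ℝ) := by
    calc (M : ℝ) ^ 2 ≤ ((q : ℝ) ^ (39 / 100 : ℝ)) ^ 2 := by gcongr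
      _ = _ := by rw [sq, hadd]; norm_num
  -- the amplitude
  have hθp : 0 < |θ| := lt_of_lt_of_le (by positivity) hθ1
  obtain ⟨κ, hκ⟩ : ∃ κ : ℝ, κ = log |θ| / L := ⟨_, rfl⟩
  have hκθ : (q : ℝ) ^ κ = |θ| := by
    rw [hexp, hκ, div_mul_cancel₀ _ hLp.ne', Real.exp_log hθp]
  have hκk : (k0 : ℝ) + 2 ≤ κ := by
    rw [hκ, le_div_iff₀ hLp]
    have h1 := Real.log_le_log (by positivity) hθ1
    rw [Real.log_pow, ← hL] at h1
    push_cast at h1
    exact h1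
  have hk00 : (0 : ℝ) ≤ k0 := Nat.cast_nonneg _
  have hκ2 : 2 ≤ κ := by linarith
  have hκp : 0 < κ := by linarith
  have hκδ : κ ≤ L ^ δ := by
    rw [hκ, div_le_iff₀ hLp]
    have h1 := Real.log_le_log hθp hθ2
    rw [Real.log_exp] at h1
    calc log |θ| ≤ L ^ (1 + δ) := h1
      _ = L ^ δ * L := by rw [add_comm, Real.rpow_add hLp, Real.rpow_one]
  have hLδ1 : 1 ≤ L ^ δ := Real.one_le_rpow (by linarith) hδ.le
  have hκL : (320 * A + 4) * κ ≤ L := by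
    refine le_trans ?_ hbA
    gcongr
  have hκL4 : 4 * κ ≤ L := by nlinarith
  have hκLA : 320 * A * κ ≤ L := by nlinarith
  -- the coefficients
  obtain ⟨b, hb⟩ : ∃ b : ℕ → ℝ, b = fun k => θ * co k / (q : ℝ) ^ k := ⟨_, rfl⟩
  have hbabs : ∀ k, |b k| = |θ| * |co k| / (q : ℝ) ^ k := by
    intro k
    rw [hb]
    simp only
    rw [abs_div, abs_mul, abs_of_pos (by positivity : (0 : ℝ) < (q : ℝ) ^ k)]
  have hCp : 0 < C := by linarith
  obtain ⟨X, hX⟩ : ∃ X : ℝ, X = 2 * q / C := ⟨_, rfl⟩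
  have hX0 : 0 < X := by rw [hX]; positivity
  have hX2 : 2 / X = C / q := by rw [hX]; field_simp
  have G2 : ∀ k : ℕ, |b k| ≤ (|θ| * C) * (2 / X) ^ k := by
    intro k
    rw [hbabs, hX2, div_pow]
    calc |θ| * |co k| / (q : ℝ) ^ k ≤ |θ| * C ^ (k + 1) / (q : ℝ) ^ k := by
          have := hcf.up k
          gcongr
      _ = _ := by rw [pow_succ]; ring
  have F3 : ∀ n : ℕ, (n : ℝ) ≤ (M : ℝ) ^ 2 → HasSum (fun k => b k * (n : ℝ) ^ k) (φ (n : ℝ)) := by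
    intro n hn
    have h1 := hφ n (Nat.cast_nonneg n)
      ((hn.trans hM2).trans (hmono _ _ (by norm_num)))
    have h2 : (fun k : ℕ => b k * (n : ℝ) ^ k) = fun k : ℕ => θ * co k * ((n : ℝ) / q) ^ k := by
      funext k
      rw [hb, div_pow]
      simp only
      ring
    rw [h2]
    exact h1
  have key := hC q M κ b hq2 hκ2 hM1 ?_ ?_ ?_
  · -- the end
    obtain ⟨r, hr⟩ : ∃ r : ℕ, r = ⌈5 * κ⌉₊ + 5 := ⟨_, rfl⟩
    rw [← hr] at key
    have hr1 : 5 * κ + 6 ≤ ((r + 1 : ℕ) : ℝ) := by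
      rw [hr]
      push_cast
      have := Nat.le_ceil (5 * κ)
      linarith
    have hMX : 2 * (M : ℝ) ^ 2 / X ≤ (q : ℝ) ^ (-(219 / 1000) : ℝ) := by
      have h1 : 2 * (M : ℝ) ^ 2 / X = C * (M : ℝ) ^ 2 / q := by
        rw [hX]
        field_simp
      rw [h1, div_le_iff₀ hq0]
      calc C * (M : ℝ) ^ 2 ≤ (q : ℝ) ^ (1 / 1000 : ℝ) * (q : ℝ) ^ (78 / 100 : ℝ) := by
            gcongr
        _ = (q : ℝ) ^ (-(219 / 1000) : ℝ) * (q : ℝ) ^ (1 : ℝ) := by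
            rw [hadd, hadd]
            norm_num
        _ = _ := by rw [Real.rpow_one]
    have hMX2 : 2 * (M : ℝ) ^ 2 / X ≤ 1 / 2 := by
      refine hMX.trans ?_
      rw [Real.rpow_neg hq0.le, inv_le_comm₀ (hpos _) (by norm_num)]
      have := hmono (1 / 1000) (219 / 1000) (by norm_num)
      linarith
    have hpair := one_pair (g := b) (h := fun m : ℕ => φ (m : ℝ))
      (A := |θ| * C) (X := X) (r := r) (M := M) (by positivity) hX0 hMX2 G2 F3
    refine hpair.trans ?_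
    have htail : 2 * π * (2 * (|θ| * C) * (2 * (M : ℝ) ^ 2 / X) ^ (r + 1)) ≤
        16 * Real.exp (-(2 * L ^ β)) := by
      have hpi : 2 * π * 2 ≤ 16 := by
        have := Real.pi_le_four
        linarith
      have hM3 : (2 * (M : ℝ) ^ 2 / X) ^ (r + 1) ≤ (q : ℝ) ^ (-(219 / 1000) * (5 * κ + 6) : ℝ) := by
        calc (2 * (M : ℝ) ^ 2 / X) ^ (r + 1) ≤ ((q : ℝ) ^ (-(219 / 1000) : ℝ)) ^ (r + 1) := by
              gcongr
          _ = (q : ℝ) ^ (-(219 / 1000) * ((r + 1 : ℕ) : ℝ) : ℝ) := by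
              rw [← Real.rpow_natCast, ← Real.rpow_mul hq0.le]
          _ ≤ _ := by
              apply hmono
              linarith
      calc 2 * π * (2 * (|θ| * C) * (2 * (M : ℝ) ^ 2 / X) ^ (r + 1)) =
          (2 * π * 2) * (C * |θ| * (2 * (M : ℝ) ^ 2 / X) ^ (r + 1)) := by ring
        _ ≤ 16 * ((q : ℝ) ^ (1 / 1000 : ℝ) * (q : ℝ) ^ κ *
            (q : ℝ) ^ (-(219 / 1000) * (5 * κ + 6) : ℝ)) := by
            rw [hκθ]
            gcongr
        _ = 16 * (q : ℝ) ^ (1 / 1000 + κ + -(219 / 1000) * (5 * κ + 6) : ℝ) := by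
            rw [hadd, hadd]
        _ ≤ 16 * (q : ℝ) ^ (-1 : ℝ) := by
            have := hmono (1 / 1000 + κ + -(219 / 1000) * (5 * κ + 6)) (-1) (by linarith)
            linarith
        _ = 16 * Real.exp (-L) := by rw [hexp]; norm_num
        _ ≤ _ := by
            have := Real.exp_le_exp.2 (show -L ≤ -(2 * L ^ β) by linarith)
            linarith
    have hmain : (q : ℝ) ^ (-(c / (1 + κ) ^ 2) : ℝ) ≤ Real.exp (-(2 * L ^ β)) := by
      rw [hexp]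
      apply Real.exp_le_exp.2
      have h5 : 1 + κ ≤ 2 * L ^ δ := by linarith
      have h8 : (1 + κ) ^ 2 ≤ 4 * L ^ (2 * δ) := by
        calc (1 + κ) ^ 2 ≤ (2 * L ^ δ) ^ 2 := by gcongr
          _ = 4 * (L ^ δ) ^ 2 := by ring
          _ = 4 * L ^ (2 * δ) := by
              rw [← Real.rpow_natCast (L ^ δ) 2, ← Real.rpow_mul hLp.le, Nat.cast_ofNat, mul_comm δ 2]
      have h9 : L = L ^ (1 - 2 * δ) * L ^ (2 * δ) := by
        rw [← Real.rpow_add hLp]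
        norm_num
      have h10 : 2 * L ^ β ≤ c / (1 + κ) ^ 2 * L := by
        rw [div_mul_eq_mul_div, le_div_iff₀ (by positivity)]
        have hb9' : 8 * L ^ β ≤ c * L ^ (1 - 2 * δ) := by
          have h11 := mul_le_mul_of_nonneg_left hb9 hc0.le
          calc 8 * L ^ β = c * (8 / c * L ^ β) := by field_simp
            _ ≤ _ := h11
        calc 2 * L ^ β * (1 + κ) ^ 2 ≤ 2 * L ^ β * (4 * L ^ (2 * δ)) := by gcongr
          _ = (8 * L ^ β) * L ^ (2 * δ) := by ring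
          _ ≤ (c * L ^ (1 - 2 * δ)) * L ^ (2 * δ) := by gcongr
          _ = c * (L ^ (1 - 2 * δ) * L ^ (2 * δ)) := by ring
          _ = c * L := by rw [← h9]
      linarith
    calc ‖TT r M b‖ + (M : ℝ) ^ 2 * (2 * π * (2 * (|θ| * C) * (2 * (M : ℝ) ^ 2 / X) ^ (r + 1))) ≤
        C0 * (M : ℝ) ^ 2 * Real.exp (-(2 * L ^ β)) + (M : ℝ) ^ 2 *
          (16 * Real.exp (-(2 * L ^ β))) := by
          refine add_le_add (key.trans ?_) ?_
          · gcongr
          · gcongr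
      _ = (M : ℝ) ^ 2 * ((C0 + 16) * Real.exp (-(2 * L ^ β))) := by ring
      _ ≤ (M : ℝ) ^ 2 * (Real.exp (L ^ β) * Real.exp (-(2 * L ^ β))) := by
          have h10 : C0 + 16 ≤ Real.exp (L ^ β) := by
            have := Real.add_one_le_exp (L ^ β)
            linarith
          gcongr
      _ = (M : ℝ) ^ 2 * Real.exp (-(L ^ β)) := by
          rw [← Real.exp_add]
          ring_nf
  · exact (hmono _ _ (by norm_num)).trans hMlo
  · exact hMhi.trans (hmono _ _ (by norm_num))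
  · intro j hj hj2 hj3
    rw [Finset.mem_Icc] at hj
    have hj0 : (0 : ℝ) < j := by exact_mod_cast hj.1
    have hj4 : (j : ℝ) + 1 ≤ 4 * κ := by linarith
    have hjk : k0 ≤ j := by
      have : (k0 : ℝ) ≤ j := by linarith
      exact_mod_cast this
    have hjR : (j : ℝ) ≤ R := by linarith
    have hqj : (0 : ℝ) < (q : ℝ) ^ j := by positivity
    rw [hbabs]
    constructor
    · have h4 : (q : ℝ) ^ (κ - κ / 20 - j : ℝ) = |θ| * (q : ℝ) ^ (-(κ / 20) : ℝ) / (q : ℝ) ^ j := by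
        rw [Real.rpow_sub hq0, sub_eq_add_neg, ← hadd, hκθ, Real.rpow_natCast]
      have h5 : (q : ℝ) ^ (-(κ / 20) : ℝ) ≤ |co j| := by
        refine le_trans ?_ (hcf.lo j hjk hjR)
        rw [hexp]
        apply Real.exp_le_exp.2
        have h6 : A * (j : ℝ) ^ 2 ≤ A * (16 * κ ^ 2) := by
          have : (j : ℝ) ^ 2 ≤ 16 * κ ^ 2 := by nlinarith
          gcongr
        have h7 : A * (16 * κ ^ 2) ≤ κ / 20 * L := by
          calc A * (16 * κ ^ 2) = κ / 20 * (320 * A * κ) := by ring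
            _ ≤ _ := by gcongr
        linarith
      rw [h4]
      gcongr
    · have h4 : (q : ℝ) ^ (κ + κ / 20 - j : ℝ) = |θ| * (q : ℝ) ^ (κ / 20 : ℝ) / (q : ℝ) ^ j := by
        rw [Real.rpow_sub hq0, Real.rpow_add hq0, hκθ, Real.rpow_natCast]
      have h5 : |co j| ≤ (q : ℝ) ^ (κ / 20 : ℝ) := by
        refine (hcf.up j).trans ?_
        calc C ^ (j + 1) ≤ ((q : ℝ) ^ (1 / 1000 : ℝ)) ^ (j + 1) := by gcongr
          _ = (q : ℝ) ^ (1 / 1000 * ((j + 1 : ℕ) : ℝ) : ℝ) := by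
              rw [← Real.rpow_natCast, ← Real.rpow_mul hq0.le]
          _ ≤ _ := by
              apply hmono
              push_cast
              linarith
      rw [h4]
      gcongr

end Pool.Agent.N586.GF
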