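import Pool.Agent.N586.GF.Stm3

/-!
# Projects GF and SR, part G6: ordered tuples are independent
-/

set_option autoImplicit false

namespace Pool.Agent.N586.GF

open Finset

theorem Ord_least {r : ℕ} (h : Fin r → ℤ) (hh : h ≠ 0) :
    ∃ i, h i ≠ 0 ∧ ∀ j, j < i → h j = 0 := by
  classical
  have hne : (univ.filter fun j => h j ≠ 0).Nonempty := by
    obtain ⟨j, hj⟩ := Function.ne_iff.mp hh
    exact ⟨j, by simpa using hj⟩
  refine ⟨(univ.filter fun j => h j ≠ 0).min' hne, ?_, ?_⟩
  · have := (univ.filter fun j => h j ≠ 0).min'_mem hne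
    simpa using this
  · intro j hj
    by_contra hc
    have h1 := (univ.filter fun j => h j ≠ 0).min'_le j (by simpa using hc)
    exact absurd hj (not_lt.mpr h1)

theorem ord : S_ORD := by
  intro r α β F hF h hh
  obtain ⟨c, C, A, k0, hC, hA, hup, hlo, hsum, hord⟩ := hF
  obtain ⟨i, hi, hi'⟩ := Ord_least h hh
  set S : ℝ := ∑ j, |(h j : ℝ)| with hS
  have hS0 : 0 ≤ S := sum_nonneg fun j _ => abs_nonneg _
  have hη : 0 < 1 / (2 * (S + 1)) := by positivity
  have hk : ∀ j, ∃ k1 : ℕ, i < j → ∀ x k, α ≤ x → x ≤ β → k1 ≤ k →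
      |c j x k| ≤ 1 / (2 * (S + 1)) * |c i x k| := by
    intro j
    by_cases hij : i < j
    · obtain ⟨k1, hk1⟩ := hord i j hij _ hη
      exact ⟨k1, fun _ => hk1⟩
    · exact ⟨0, fun hc => absurd hc hij⟩
  choose k1 hk1 using hk
  refine ⟨(S + 1) * C, A + 1, k0 + 1 + ∑ j, k1 j, by nlinarith, by linarith, fun x hx hx' =>
    ⟨fun k => ∑ j, (h j : ℝ) * c j x k, ?_, ?_, ?_⟩⟩
  · intro k
    calc |∑ j, (h j : ℝ) * c j x k| ≤ ∑ j, |(h j : ℝ) * c j x k| := abs_sum_le_sum_abs _ _
      _ ≤ ∑ j, |(h j : ℝ)| * C ^ (k + 1) := by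
          refine sum_le_sum fun j _ => ?_
          rw [abs_mul]
          exact mul_le_mul_of_nonneg_left (hup j x k hx hx') (abs_nonneg _)
      _ = S * C ^ (k + 1) := by rw [← sum_mul]
      _ ≤ (S + 1) ^ (k + 1) * C ^ (k + 1) := by
          refine mul_le_mul_of_nonneg_right ?_ (by positivity)
          calc S ≤ S + 1 := by linarith
            _ ≤ (S + 1) ^ (k + 1) := le_self_pow₀ (by linarith) (by omega)
      _ = ((S + 1) * C) ^ (k + 1) := by rw [mul_pow]
  · intro k hk
    have hk0 : k0 ≤ k := by omega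
    have hk1' : 1 ≤ k := by omega
    have hkj : ∀ j, k1 j ≤ k := fun j => by
      have := single_le_sum (f := k1) (fun _ _ => Nat.zero_le _) (mem_univ j)
      omega
    have h1 : |(h i : ℝ) * c i x k| ≤ |∑ j, (h j : ℝ) * c j x k| +
        ∑ j ∈ univ.erase i, |(h j : ℝ) * c j x k| := by
      have e1 : (h i : ℝ) * c i x k = ∑ j, (h j : ℝ) * c j x k -
          ∑ j ∈ univ.erase i, (h j : ℝ) * c j x k := by
        rw [← add_sum_erase univ _ (mem_univ i)]; ring
      rw [e1]
      refine (abs_sub _ _).trans ?_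
      gcongr
      exact abs_sum_le_sum_abs _ _
    have h2 : ∑ j ∈ univ.erase i, |(h j : ℝ) * c j x k| ≤
        ∑ j ∈ univ.erase i, |(h j : ℝ)| * (1 / (2 * (S + 1)) * |c i x k|) := by
      refine sum_le_sum fun j hj => ?_
      rw [abs_mul]
      rcases lt_or_gt_of_ne (ne_of_mem_erase hj) with hji | hji
      · rw [hi' j hji]; simp
      · exact mul_le_mul_of_nonneg_left (hk1 j hji x k hx hx' (hkj j)) (abs_nonneg _)
    have h3 : ∑ j ∈ univ.erase i, |(h j : ℝ)| * (1 / (2 * (S + 1)) * |c i x k|) ≤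
        S * (1 / (2 * (S + 1)) * |c i x k|) := by
      rw [← sum_mul]
      refine mul_le_mul_of_nonneg_right ?_ (by positivity)
      exact sum_le_sum_of_subset_of_nonneg (erase_subset _ _) fun _ _ _ => abs_nonneg _
    have h4 : S * (1 / (2 * (S + 1)) * |c i x k|) ≤ |c i x k| / 2 := by
      have : S * (1 / (2 * (S + 1))) ≤ 1 / 2 := by
        rw [mul_one_div, div_le_div_iff₀ (by positivity) (by norm_num)]
        linarith
      calc S * (1 / (2 * (S + 1)) * |c i x k|) = S * (1 / (2 * (S + 1))) * |c i x k| := by ring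
        _ ≤ 1 / 2 * |c i x k| := mul_le_mul_of_nonneg_right this (abs_nonneg _)
        _ = |c i x k| / 2 := by ring
    have h5 : |c i x k| ≤ |(h i : ℝ) * c i x k| := by
      rw [abs_mul]
      have : (1 : ℝ) ≤ |(h i : ℝ)| := by
        rw [← Int.cast_abs]
        exact_mod_cast Int.one_le_abs hi
      nlinarith [abs_nonneg (c i x k)]
    have h6 : |c i x k| / 2 ≤ |∑ j, (h j : ℝ) * c j x k| := by linarith
    have h7 := hlo i x k hx hx' hk0
    have h8 : Real.exp (-((A + 1) * (k : ℝ) ^ 2)) ≤ Real.exp (-(A * (k : ℝ) ^ 2)) / 2 := by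
      rw [show -((A + 1) * (k : ℝ) ^ 2) = -(A * (k : ℝ) ^ 2) + -((k : ℝ) ^ 2) by ring,
        Real.exp_add, div_eq_mul_inv]
      refine mul_le_mul_of_nonneg_left ?_ (Real.exp_pos _).le
      rw [Real.exp_neg]
      refine inv_anti₀ (by norm_num) ?_
      have hk2 : (1 : ℝ) ≤ (k : ℝ) ^ 2 := by
        have : (1 : ℝ) ≤ k := by exact_mod_cast hk1'
        nlinarith
      have := Real.add_one_le_exp ((k : ℝ) ^ 2)
      linarith
    linarith
  · intro y hy hCy
    have hCy' : C * y < 1 := by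
      have : C * y ≤ (S + 1) * C * y := by
        have h1 : 0 ≤ C * y := by positivity
        nlinarith
      linarith
    have h1 : HasSum (fun k : ℕ => ∑ j, (h j : ℝ) * (c j x k * y ^ k))
        (∑ j, (h j : ℝ) * F j (x + y)) :=
      hasSum_sum fun j _ => (hsum j x y hx hx' hy hCy').mul_left _
    have h2 : (fun k : ℕ => (∑ j, (h j : ℝ) * c j x k) * y ^ k) =
        fun k : ℕ => ∑ j, (h j : ℝ) * (c j x k * y ^ k) := by
      funext k
      rw [sum_mul]
      exact sum_congr rfl fun j _ => by ring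
    rw [h2]
    exact h1

end Pool.Agent.N586.GF
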