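import Pool.Agent.N586.GF.Stm

/-!
Project GF (helper586), G4 (helper169): Taylor coefficients of `h0 e^x + h1 π/x + h2 √(2x)`.
-/

set_option autoImplicit false

namespace Pool.Agent.N586.GF

open Filter Topology

theorem Tri_congr {f g : ℕ → ℝ} {a b : ℝ} (h : HasSum f a) (hf : ∀ k, g k = f k) (hab : b = a) :
    HasSum g b := by
  rw [hab, show g = f from funext hf]
  exact h

/-! ### The binomial coefficients of `1/2` -/

/-- the binomial coefficient of `1/2` -/
noncomputable def Tri_b (k : ℕ) : ℝ := Ring.choose (1 / 2 : ℝ) k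

theorem Tri_b_succ (k : ℕ) : ((k : ℝ) + 1) * Tri_b (k + 1) = Tri_b k * (1 / 2 - k) := by
  have h := Ring.choose_smul_choose (1 / 2 : ℝ) (Nat.le_succ k)
  rw [Nat.succ_eq_add_one, Nat.add_sub_cancel_left, Ring.choose_one_right, Nat.choose_succ_self_right,
    nsmul_eq_mul] at h
  unfold Tri_b
  rw [← h]
  push_cast
  ring

theorem Tri_b_zero : Tri_b 0 = 1 := by
  unfold Tri_b
  exact Ring.choose_zero_right _

theorem Tri_b_one : Tri_b 1 = 1 / 2 := by
  unfold Tri_b
  exact Ring.choose_one_right _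

theorem Tri_b_abs (k : ℕ) (hk : 1 ≤ k) :
    1 / (4 * (k : ℝ) ^ 2) ≤ |Tri_b k| ∧ |Tri_b k| ≤ 1 / (2 * k) := by
  induction k, hk using Nat.le_induction with
  | base =>
    rw [Tri_b_one]
    norm_num
  | succ k hk ih =>
    have hk1 : (1 : ℝ) ≤ k := by exact_mod_cast hk
    have h1 : |Tri_b (k + 1)| = |Tri_b k| * ((k - 1 / 2) / (k + 1)) := by
      have h2 : Tri_b (k + 1) = Tri_b k * ((1 / 2 - k) / (k + 1)) := by
        rw [← mul_div_assoc, ← Tri_b_succ]
        field_simp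
      rw [h2, abs_mul, abs_div, abs_of_nonpos (by linarith : (1 / 2 : ℝ) - k ≤ 0),
        abs_of_pos (by linarith : (0 : ℝ) < k + 1)]
      congr 2
      ring
    have h3 : 0 ≤ ((k : ℝ) - 1 / 2) / (k + 1) := div_nonneg (by linarith) (by linarith)
    rw [h1]
    push_cast
    constructor
    · calc 1 / (4 * ((k : ℝ) + 1) ^ 2) ≤ 1 / (4 * (k : ℝ) ^ 2) * (((k : ℝ) - 1 / 2) / (k + 1)) := by
            rw [div_mul_div_comm, div_le_div_iff₀ (by positivity) (by positivity)]
            nlinarith [mul_nonneg (by linarith : (0 : ℝ) ≤ k - 1) (by linarith : (0 : ℝ) ≤ (k : ℝ) + 1)]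
        _ ≤ _ := mul_le_mul_of_nonneg_right ih.1 h3
    · calc |Tri_b k| * (((k : ℝ) - 1 / 2) / (k + 1)) ≤ 1 / (2 * k) * (((k : ℝ) - 1 / 2) / (k + 1)) :=
            mul_le_mul_of_nonneg_right ih.2 h3
        _ ≤ 1 / (2 * ((k : ℝ) + 1)) := by
            rw [div_mul_div_comm, div_le_div_iff₀ (by positivity) (by positivity)]
            nlinarith

theorem Tri_b_le_one (k : ℕ) : |Tri_b k| ≤ 1 := by
  rcases Nat.eq_zero_or_pos k with h | h
  · rw [h, Tri_b_zero, abs_one]
  · refine (Tri_b_abs k h).2.trans ?_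
    have hk1 : (1 : ℝ) ≤ k := by exact_mod_cast h
    rw [div_le_one (by positivity)]
    linarith

theorem Tri_b_hasSum (t : ℝ) (h0 : 0 ≤ t) (h1 : t < 1) :
    HasSum (fun k : ℕ => Tri_b k * t ^ k) (√(1 + t)) := by
  have h := (Real.one_add_rpow_hasFPowerSeriesOnBall_zero (a := 1 / 2)).hasSum (y := t) (by
    rw [mem_eball_zero_iff, enorm_eq_nnnorm]
    have : ‖t‖₊ < 1 := by
      rw [← NNReal.coe_lt_coe, coe_nnnorm, Real.norm_eq_abs, abs_of_nonneg h0]
      exact h1
    exact_mod_cast this)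
  rw [zero_add, ← Real.sqrt_eq_rpow] at h
  refine Tri_congr h (fun k => ?_) rfl
  rw [binomialSeries_apply, List.ofFn_const, List.prod_replicate, smul_eq_mul]
  rfl

/-! ### The three power series -/

theorem Tri_exp (x y : ℝ) :
    HasSum (fun k : ℕ => Real.exp x / k.factorial * y ^ k) (Real.exp (x + y)) := by
  have h := (NormedSpace.expSeries_div_hasSum_exp (y : ℝ)).mul_left (Real.exp x)
  rw [← Real.exp_eq_exp_ℝ, ← Real.exp_add] at h
  refine Tri_congr h (fun k => ?_) rfl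
  ring

theorem Tri_inv (x y : ℝ) (hx : 0 < x) (hy : 0 ≤ y) (hyx : y < x) :
    HasSum (fun k : ℕ => Real.pi * (-1) ^ k / x ^ (k + 1) * y ^ k) (Real.pi / (x + y)) := by
  have h1 : |-(y / x)| < 1 := by
    rw [abs_neg, abs_of_nonneg (by positivity), div_lt_one hx]
    exact hyx
  have h := (hasSum_geometric_of_abs_lt_one h1).mul_left (Real.pi / x)
  refine Tri_congr h (fun k => ?_) ?_
  · rw [neg_pow (y / x), div_pow, pow_succ]
    field_simp
  · have : x + y ≠ 0 := by positivity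
    rw [sub_neg_eq_add]
    field_simp

theorem Tri_sqrt (x y : ℝ) (hx : 0 < x) (hy : 0 ≤ y) (hyx : y < x) :
    HasSum (fun k : ℕ => √(2 * x) * Tri_b k / x ^ k * y ^ k) (√(2 * (x + y))) := by
  have h := (Tri_b_hasSum (y / x) (by positivity) (by rwa [div_lt_one hx])).mul_left (√(2 * x))
  have e : √(2 * (x + y)) = √(2 * x) * √(1 + y / x) := by
    rw [← Real.sqrt_mul (by positivity)]
    congr 1
    field_simp
  refine Tri_congr h (fun k => ?_) e
  rw [div_pow]
  field_simp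

/-- the Taylor coefficients -/
noncomputable def Tri_c (h : Fin 3 → ℤ) (x : ℝ) (k : ℕ) : ℝ :=
  h 0 * (Real.exp x / k.factorial) + h 1 * (Real.pi * (-1) ^ k / x ^ (k + 1)) +
    h 2 * (√(2 * x) * Tri_b k / x ^ k)

theorem Tri_c_hasSum (h : Fin 3 → ℤ) (x y : ℝ) (hx : 0 < x) (hy : 0 ≤ y) (hyx : y < x) :
    HasSum (fun k : ℕ => Tri_c h x k * y ^ k)
      (∑ j, (h j : ℝ) * (![Real.exp, fun x => Real.pi / x, fun x => √(2 * x)] : Fin 3 → ℝ → ℝ) j (x + y)) := by
  rw [Fin.sum_univ_three]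
  have h1 := (((Tri_exp x y).mul_left (h 0 : ℝ)).add ((Tri_inv x y hx hy hyx).mul_left (h 1 : ℝ))).add
    ((Tri_sqrt x y hx hy hyx).mul_left (h 2 : ℝ))
  refine Tri_congr h1 (fun k => ?_) rfl
  unfold Tri_c
  ring

theorem Tri_c_up (h : Fin 3 → ℤ) (α β : ℝ) (hα : 0 < α) (x : ℝ) (hx1 : α ≤ x) (hx2 : x ≤ β) (k : ℕ) :
    |Tri_c h x k| ≤ (2 * (|(h 0 : ℝ)| * Real.exp β + |(h 1 : ℝ)| * Real.pi + |(h 2 : ℝ)| * √(2 * β) + 1) *
      (1 + 1 / α)) ^ (k + 1) := by
  have hx : 0 < x := by linarith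
  have hβ : 0 < β := by linarith
  set B : ℝ := |(h 0 : ℝ)| * Real.exp β + |(h 1 : ℝ)| * Real.pi + |(h 2 : ℝ)| * √(2 * β) with hB
  set D : ℝ := 1 + 1 / α with hD
  have hpi := Real.pi_pos
  have hB0 : 0 ≤ B := by positivity
  have hD1 : 1 ≤ D := by
    have : 0 < 1 / α := by positivity
    linarith
  have hDk : 1 ≤ D ^ (k + 1) := one_le_pow₀ hD1
  have hxi : x⁻¹ ≤ D := by
    have h1 : x⁻¹ ≤ α⁻¹ := inv_anti₀ hα hx1
    rw [hD, one_div]
    linarith
  have hxk1 : (x ^ (k + 1))⁻¹ ≤ D ^ (k + 1) := by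
    rw [← inv_pow]
    exact pow_le_pow_left₀ (by positivity) hxi _
  have hxk : (x ^ k)⁻¹ ≤ D ^ (k + 1) := by
    rw [← inv_pow]
    exact (pow_le_pow_left₀ (by positivity) hxi _).trans (pow_le_pow_right₀ hD1 (Nat.le_succ k))
  have h0 : |(h 0 : ℝ) * (Real.exp x / k.factorial)| ≤ |(h 0 : ℝ)| * Real.exp β * D ^ (k + 1) := by
    rw [abs_mul, mul_assoc]
    refine mul_le_mul_of_nonneg_left ?_ (abs_nonneg _)
    rw [abs_of_nonneg (by positivity)]
    calc Real.exp x / k.factorial ≤ Real.exp x := by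
          refine div_le_self (Real.exp_pos x).le ?_
          exact_mod_cast Nat.factorial_pos k
      _ ≤ Real.exp β := Real.exp_le_exp.2 hx2
      _ ≤ Real.exp β * D ^ (k + 1) := le_mul_of_one_le_right (Real.exp_pos β).le hDk
  have h1 : |(h 1 : ℝ) * (Real.pi * (-1) ^ k / x ^ (k + 1))| ≤ |(h 1 : ℝ)| * Real.pi * D ^ (k + 1) := by
    rw [abs_mul, mul_assoc]
    refine mul_le_mul_of_nonneg_left ?_ (abs_nonneg _)
    rw [abs_div, abs_mul, abs_pow, abs_neg, abs_one, one_pow, mul_one, abs_of_pos hpi,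
      abs_of_pos (by positivity : 0 < x ^ (k + 1)), div_eq_mul_inv]
    exact mul_le_mul_of_nonneg_left hxk1 hpi.le
  have h2 : |(h 2 : ℝ) * (√(2 * x) * Tri_b k / x ^ k)| ≤ |(h 2 : ℝ)| * √(2 * β) * D ^ (k + 1) := by
    rw [abs_mul, mul_assoc]
    refine mul_le_mul_of_nonneg_left ?_ (abs_nonneg _)
    rw [abs_div, abs_mul, abs_of_nonneg (Real.sqrt_nonneg _), abs_of_pos (by positivity : 0 < x ^ k),
      div_eq_mul_inv]
    refine mul_le_mul ?_ hxk (by positivity) (by positivity)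
    calc √(2 * x) * |Tri_b k| ≤ √(2 * x) * 1 :=
          mul_le_mul_of_nonneg_left (Tri_b_le_one k) (Real.sqrt_nonneg _)
      _ ≤ √(2 * β) := by
          rw [mul_one]
          exact Real.sqrt_le_sqrt (by linarith)
  calc |Tri_c h x k| ≤ |(h 0 : ℝ) * (Real.exp x / k.factorial)| +
        |(h 1 : ℝ) * (Real.pi * (-1) ^ k / x ^ (k + 1))| + |(h 2 : ℝ) * (√(2 * x) * Tri_b k / x ^ k)| :=
        abs_add_three _ _ _
    _ ≤ B * D ^ (k + 1) := by
        rw [hB]
        linarith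
    _ ≤ (2 * (B + 1)) ^ (k + 1) * D ^ (k + 1) := by
        refine mul_le_mul_of_nonneg_right ?_ (by positivity)
        calc B ≤ 2 * (B + 1) := by linarith
          _ ≤ (2 * (B + 1)) ^ (k + 1) := le_self_pow₀ (by linarith) (by omega)
    _ = (2 * (B + 1) * D) ^ (k + 1) := by rw [← mul_pow]

/-! ### The lower bound -/

theorem Tri_t (t : ℝ) (ht : 0 < t) (k : ℕ) (hk : 1 ≤ k) : Real.exp (-(|Real.log t| * (k : ℝ) ^ 2)) ≤ t := by
  conv_rhs => rw [← Real.exp_log ht]
  rw [Real.exp_le_exp]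
  have h1 : (1 : ℝ) ≤ (k : ℝ) ^ 2 := by
    have : (1 : ℝ) ≤ k := by exact_mod_cast hk
    nlinarith
  have h2 := neg_abs_le (Real.log t)
  have h3 := abs_nonneg (Real.log t)
  nlinarith

theorem Tri_tp (t : ℝ) (ht : 0 < t) (k : ℕ) : Real.exp (-(|Real.log t| * (k : ℝ) ^ 2)) ≤ t ^ k := by
  have h0 : t ^ k = Real.exp (k * Real.log t) := by
    rw [Real.exp_nat_mul, Real.exp_log ht]
  rw [h0, Real.exp_le_exp]
  have h1 : (k : ℝ) ≤ (k : ℝ) ^ 2 := by
    have : k ≤ k ^ 2 := Nat.le_self_pow two_ne_zero k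
    exact_mod_cast this
  have h2 := neg_abs_le (Real.log t)
  have h3 := abs_nonneg (Real.log t)
  have h4 : (0 : ℝ) ≤ k := Nat.cast_nonneg k
  nlinarith

theorem Tri_k2 (k : ℕ) (hk : 1 ≤ k) : Real.exp (-(2 * (k : ℝ) ^ 2)) ≤ 1 / (k : ℝ) ^ 2 := by
  have hk1 : (1 : ℝ) ≤ k := by exact_mod_cast hk
  rw [Real.exp_neg, one_div]
  refine inv_anti₀ (by positivity) ?_
  have h1 := Real.add_one_le_exp (2 * (k : ℝ) ^ 2)
  nlinarith

theorem Tri_fac (k : ℕ) : Real.exp (-(k : ℝ) ^ 2) ≤ 1 / (k.factorial : ℝ) := by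
  rw [Real.exp_neg, one_div]
  refine inv_anti₀ (by exact_mod_cast Nat.factorial_pos k) ?_
  have h1 : (k.factorial : ℝ) ≤ (k : ℝ) ^ k := by exact_mod_cast Nat.factorial_le_pow k
  have h2 : (k : ℝ) ≤ Real.exp k := by
    have := Real.add_one_le_exp (k : ℝ)
    linarith
  calc (k.factorial : ℝ) ≤ (k : ℝ) ^ k := h1
    _ ≤ (Real.exp k) ^ k := pow_le_pow_left₀ (Nat.cast_nonneg k) h2 k
    _ = Real.exp ((k : ℝ) ^ 2) := by rw [← Real.exp_nat_mul, pow_two]

theorem Tri_cx (h : Fin 3 → ℤ) (x : ℝ) (hx : 0 < x) (k : ℕ) :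
    Tri_c h x k * x ^ k = h 0 * (Real.exp x * (x ^ k / k.factorial)) + h 1 * (Real.pi * (-1) ^ k / x) +
      h 2 * (√(2 * x) * Tri_b k) := by
  unfold Tri_c
  have hf : (k.factorial : ℝ) ≠ 0 := by exact_mod_cast (Nat.factorial_pos k).ne'
  have hxk : x ^ k ≠ 0 := by positivity
  rw [pow_succ]
  field_simp

theorem Tri_low (h : Fin 3 → ℤ) (hne : h ≠ 0) (α β : ℝ) (hα : 0 < α) (hαβ : α < β) :
    ∃ (A : ℝ) (k0 : ℕ), 0 ≤ A ∧ 1 ≤ k0 ∧ ∀ x, α ≤ x → x ≤ β → ∀ k : ℕ, k0 ≤ k →
      Real.exp (-(A * (k : ℝ) ^ 2)) ≤ |Tri_c h x k * x ^ k| := by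
  have hβ : 0 < β := by linarith
  have hpi := Real.pi_pos
  -- the exponential part
  have hE : ∀ x, α ≤ x → x ≤ β → ∀ k : ℕ,
      |(h 0 : ℝ) * (Real.exp x * (x ^ k / k.factorial))| ≤ |(h 0 : ℝ)| * Real.exp β * (β ^ k / k.factorial) := by
    intro x hx1 hx2 k
    have hx : 0 < x := by linarith
    rw [abs_mul, mul_assoc]
    refine mul_le_mul_of_nonneg_left ?_ (abs_nonneg _)
    rw [abs_of_nonneg (by positivity)]
    refine mul_le_mul (Real.exp_le_exp.2 hx2) ?_ (by positivity) (by positivity)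
    exact div_le_div_of_nonneg_right (pow_le_pow_left₀ hx.le hx2 k) (by positivity)
  by_cases h1 : h 1 = 0
  · by_cases h2 : h 2 = 0
    · -- only the exponential function
      have h0 : h 0 ≠ 0 := by
        intro h0
        apply hne
        funext j
        fin_cases j
        · exact h0
        · exact h1
        · exact h2
      have h0' : (1 : ℝ) ≤ |(h 0 : ℝ)| := by exact_mod_cast Int.one_le_abs h0
      refine ⟨|Real.log α| + 1, 1, by positivity, le_rfl, fun x hx1 hx2 k hk => ?_⟩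
      have hx : 0 < x := by linarith
      rw [Tri_cx h x hx k, h1, h2, Int.cast_zero, zero_mul, zero_mul, add_zero, add_zero, abs_mul,
        abs_of_nonneg (by positivity : 0 ≤ Real.exp x * (x ^ k / k.factorial))]
      calc Real.exp (-((|Real.log α| + 1) * (k : ℝ) ^ 2)) =
            Real.exp (-(|Real.log α| * (k : ℝ) ^ 2)) * Real.exp (-(k : ℝ) ^ 2) := by
            rw [← Real.exp_add]
            congr 1
            ring
        _ ≤ α ^ k * (1 / (k.factorial : ℝ)) :=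
            mul_le_mul (Tri_tp α hα k) (Tri_fac k) (Real.exp_pos _).le (by positivity)
        _ ≤ x ^ k * (1 / (k.factorial : ℝ)) :=
            mul_le_mul_of_nonneg_right (pow_le_pow_left₀ hα.le hx1 k) (by positivity)
        _ = 1 * (1 * (x ^ k / k.factorial)) := by ring
        _ ≤ |(h 0 : ℝ)| * (Real.exp x * (x ^ k / k.factorial)) := by
            refine mul_le_mul h0' ?_ (by positivity) (by positivity)
            exact mul_le_mul_of_nonneg_right (Real.one_le_exp hx.le) (by positivity)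
    · -- the square root
      have h2' : (1 : ℝ) ≤ |(h 2 : ℝ)| := by exact_mod_cast Int.one_le_abs h2
      have hs : 0 < √(2 * α) / 8 := by
        have : 0 < √(2 * α) := Real.sqrt_pos.2 (by linarith)
        positivity
      have ht : Tendsto (fun k : ℕ => |(h 0 : ℝ)| * Real.exp β * ((4 * β) ^ k / k.factorial)) atTop (𝓝 0) := by
        have := (FloorSemiring.tendsto_pow_div_factorial_atTop (4 * β)).const_mul (|(h 0 : ℝ)| * Real.exp β)
        rwa [mul_zero] at this
      obtain ⟨k0, hk0⟩ := eventually_atTop.1 (ht.eventually_le_const hs)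
      refine ⟨|Real.log (√(2 * α) / 8)| + 2, max k0 1, by positivity, le_max_right _ _, fun x hx1 hx2 k hk => ?_⟩
      have hk1 : 1 ≤ k := (le_max_right _ _).trans hk
      have hk1' : (1 : ℝ) ≤ k := by exact_mod_cast hk1
      have hx : 0 < x := by linarith
      have hkk := hk0 k ((le_max_left _ _).trans hk)
      have hk4 : (k : ℝ) ^ 2 ≤ 4 ^ k := by
        have h3 : (k : ℝ) ≤ 2 ^ k := by exact_mod_cast (Nat.lt_two_pow_self (n := k)).le
        calc (k : ℝ) ^ 2 ≤ (2 ^ k) ^ 2 := pow_le_pow_left₀ (by positivity) h3 2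
          _ = 4 ^ k := by rw [← pow_mul, mul_comm, pow_mul]; norm_num
      have hEk : |(h 0 : ℝ) * (Real.exp x * (x ^ k / k.factorial))| ≤ √(2 * α) / 8 * (1 / (k : ℝ) ^ 2) := by
        refine (hE x hx1 hx2 k).trans ?_
        have e : |(h 0 : ℝ)| * Real.exp β * (β ^ k / k.factorial) =
            |(h 0 : ℝ)| * Real.exp β * ((4 * β) ^ k / k.factorial) * (1 / 4 ^ k) := by
          rw [mul_pow]
          field_simp
        rw [e]
        refine mul_le_mul hkk ?_ (by positivity) hs.le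
        exact one_div_le_one_div_of_le (by positivity) hk4
      rw [Tri_cx h x hx k, h1, Int.cast_zero, zero_mul, add_zero]
      have hS : √(2 * α) / 4 * (1 / (k : ℝ) ^ 2) ≤ |(h 2 : ℝ) * (√(2 * x) * Tri_b k)| := by
        rw [abs_mul, abs_mul, abs_of_nonneg (Real.sqrt_nonneg _)]
        calc √(2 * α) / 4 * (1 / (k : ℝ) ^ 2) = 1 * (√(2 * α) * (1 / (4 * (k : ℝ) ^ 2))) := by
              field_simp
          _ ≤ |(h 2 : ℝ)| * (√(2 * x) * |Tri_b k|) := by
              refine mul_le_mul h2' ?_ (by positivity) (by positivity)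
              exact mul_le_mul (Real.sqrt_le_sqrt (by linarith)) (Tri_b_abs k hk1).1 (by positivity)
                (Real.sqrt_nonneg _)
      have htri : |(h 2 : ℝ) * (√(2 * x) * Tri_b k)| - |(h 0 : ℝ) * (Real.exp x * (x ^ k / k.factorial))| ≤
          |(h 0 : ℝ) * (Real.exp x * (x ^ k / k.factorial)) + (h 2 : ℝ) * (√(2 * x) * Tri_b k)| := by
        have := abs_sub_abs_le_abs_sub ((h 2 : ℝ) * (√(2 * x) * Tri_b k))
          (-((h 0 : ℝ) * (Real.exp x * (x ^ k / k.factorial))))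
        rw [abs_neg, sub_neg_eq_add, add_comm ((h 2 : ℝ) * (√(2 * x) * Tri_b k))] at this
        exact this
      calc Real.exp (-((|Real.log (√(2 * α) / 8)| + 2) * (k : ℝ) ^ 2)) =
            Real.exp (-(|Real.log (√(2 * α) / 8)| * (k : ℝ) ^ 2)) * Real.exp (-(2 * (k : ℝ) ^ 2)) := by
            rw [← Real.exp_add]
            congr 1
            ring
        _ ≤ √(2 * α) / 8 * (1 / (k : ℝ) ^ 2) :=
            mul_le_mul (Tri_t _ hs k hk1) (Tri_k2 k hk1) (Real.exp_pos _).le hs.le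
        _ ≤ _ := by
            have e : √(2 * α) / 4 * (1 / (k : ℝ) ^ 2) = √(2 * α) / 8 * (1 / (k : ℝ) ^ 2) +
              √(2 * α) / 8 * (1 / (k : ℝ) ^ 2) := by ring
            linarith
  · -- `π / x`
    have h1' : (1 : ℝ) ≤ |(h 1 : ℝ)| := by exact_mod_cast Int.one_le_abs h1
    have hs : 0 < Real.pi / (2 * β) := by positivity
    have ht : Tendsto (fun k : ℕ => |(h 0 : ℝ)| * Real.exp β * (β ^ k / k.factorial) +
        |(h 2 : ℝ)| * √(2 * β) * (1 / ((k : ℝ) + 1))) atTop (𝓝 0) := by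
      have a1 := (FloorSemiring.tendsto_pow_div_factorial_atTop β).const_mul (|(h 0 : ℝ)| * Real.exp β)
      have a2 := (tendsto_one_div_add_atTop_nhds_zero_nat (𝕜 := ℝ)).const_mul (|(h 2 : ℝ)| * √(2 * β))
      have := a1.add a2
      rwa [mul_zero, mul_zero, add_zero] at this
    obtain ⟨k0, hk0⟩ := eventually_atTop.1 (ht.eventually_le_const hs)
    refine ⟨|Real.log (Real.pi / (2 * β))|, max k0 1, by positivity, le_max_right _ _,
      fun x hx1 hx2 k hk => ?_⟩
    have hk1 : 1 ≤ k := (le_max_right _ _).trans hk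
    have hk1' : (1 : ℝ) ≤ k := by exact_mod_cast hk1
    have hx : 0 < x := by linarith
    have hkk := hk0 k ((le_max_left _ _).trans hk)
    refine (Tri_t _ hs k hk1).trans ?_
    rw [Tri_cx h x hx k]
    have hP : Real.pi / β ≤ |(h 1 : ℝ) * (Real.pi * (-1) ^ k / x)| := by
      rw [abs_mul, abs_div, abs_mul, abs_pow, abs_neg, abs_one, one_pow, mul_one, abs_of_pos hpi,
        abs_of_pos hx]
      calc Real.pi / β ≤ Real.pi / x := div_le_div_of_nonneg_left hpi.le hx hx2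
        _ = 1 * (Real.pi / x) := by rw [one_mul]
        _ ≤ _ := mul_le_mul_of_nonneg_right h1' (by positivity)
    have hS : |(h 2 : ℝ) * (√(2 * x) * Tri_b k)| ≤ |(h 2 : ℝ)| * √(2 * β) * (1 / ((k : ℝ) + 1)) := by
      rw [abs_mul, abs_mul, abs_of_nonneg (Real.sqrt_nonneg _), mul_assoc]
      refine mul_le_mul_of_nonneg_left ?_ (abs_nonneg _)
      refine mul_le_mul (Real.sqrt_le_sqrt (by linarith)) ((Tri_b_abs k hk1).2.trans ?_) (abs_nonneg _)
        (Real.sqrt_nonneg _)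
      exact one_div_le_one_div_of_le (by positivity) (by linarith)
    have hEk := hE x hx1 hx2 k
    have htri : |(h 1 : ℝ) * (Real.pi * (-1) ^ k / x)| - |(h 0 : ℝ) * (Real.exp x * (x ^ k / k.factorial))| -
        |(h 2 : ℝ) * (√(2 * x) * Tri_b k)| ≤
        |(h 0 : ℝ) * (Real.exp x * (x ^ k / k.factorial)) + (h 1 : ℝ) * (Real.pi * (-1) ^ k / x) +
          (h 2 : ℝ) * (√(2 * x) * Tri_b k)| := by
      generalize (h 0 : ℝ) * (Real.exp x * (x ^ k / k.factorial)) = a
      generalize (h 1 : ℝ) * (Real.pi * (-1) ^ k / x) = b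
      generalize (h 2 : ℝ) * (√(2 * x) * Tri_b k) = c
      have e : b = (a + b + c) + (-a) + (-c) := by ring
      have := abs_add_three (a + b + c) (-a) (-c)
      rw [← e, abs_neg, abs_neg] at this
      linarith
    have e : Real.pi / β = Real.pi / (2 * β) + Real.pi / (2 * β) := by
      field_simp
      ring
    linarith

/-- G4: the triple `(e ^ x, π / x, √(2 x))` -/
theorem tri : S_TRI := by
  intro α β hα hαβ h hne
  have hβ : 0 < β := by linarith
  obtain ⟨A, k0, hA, hk0, hlow⟩ := Tri_low h hne α β hα hαβ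
  set B : ℝ := |(h 0 : ℝ)| * Real.exp β + |(h 1 : ℝ)| * Real.pi + |(h 2 : ℝ)| * √(2 * β) with hB
  have hpi := Real.pi_pos
  have hB0 : 0 ≤ B := by positivity
  have ha : 0 < 1 / α := by positivity
  have hC1 : 1 ≤ 2 * (B + 1) * (1 + 1 / α) := by nlinarith
  have hC2 : 2 / α ≤ 2 * (B + 1) * (1 + 1 / α) := by
    have e : 2 / α = 2 * (1 / α) := by ring
    rw [e]
    nlinarith
  refine ⟨2 * (B + 1) * (1 + 1 / α), A + |Real.log β⁻¹|, k0, hC1, by positivity, fun x hx1 hx2 => ?_⟩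
  have hx : 0 < x := by linarith
  refine ⟨Tri_c h x, fun k => Tri_c_up h α β hα x hx1 hx2 k, fun k hk => ?_, fun y hy hCy => ?_⟩
  · have h1 := hlow x hx1 hx2 k hk
    calc Real.exp (-((A + |Real.log β⁻¹|) * (k : ℝ) ^ 2)) =
          Real.exp (-(A * (k : ℝ) ^ 2)) * Real.exp (-(|Real.log β⁻¹| * (k : ℝ) ^ 2)) := by
          rw [← Real.exp_add]
          congr 1
          ring
      _ ≤ |Tri_c h x k * x ^ k| * (β⁻¹) ^ k :=
          mul_le_mul h1 (Tri_tp _ (by positivity) k) (Real.exp_pos _).le (abs_nonneg _)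
      _ = |Tri_c h x k| * (x ^ k * (β⁻¹) ^ k) := by
          rw [abs_mul, abs_of_pos (by positivity : 0 < x ^ k), mul_assoc]
      _ ≤ |Tri_c h x k| * 1 := by
          refine mul_le_mul_of_nonneg_left ?_ (abs_nonneg _)
          rw [← mul_pow]
          refine pow_le_one₀ (by positivity) ?_
          rw [← div_eq_mul_inv, div_le_one hβ]
          exact hx2
      _ = |Tri_c h x k| := mul_one _
  · refine Tri_c_hasSum h x y hx hy ?_
    have h1 : 2 / α * y < 1 := lt_of_le_of_lt (mul_le_mul_of_nonneg_right hC2 hy) hCy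
    have h2 : 2 * y < α := by
      rw [div_mul_eq_mul_div, div_lt_one hα] at h1
      exact h1
    linarith

end Pool.Agent.N586.GF
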