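import Pool.Agent.N586.GF.Stm3
import Pool.Agent.N586.GF.Tri

/-!
Project GF (helper586), G7 (helper7): the quintuple `(π / x, √(2 x), (1 + √(1 + 4 x)) / 2,
log (1 + x), e ^ x)` is ordered.
-/

set_option autoImplicit false

namespace Pool.Agent.N586.GF

open Filter Topology

noncomputable def Qui_c0 (x : ℝ) (k : ℕ) : ℝ := Real.pi * (-1) ^ k / x ^ (k + 1)

noncomputable def Qui_c1 (x : ℝ) (k : ℕ) : ℝ := √(2 * x) * Tri_b k / x ^ k

noncomputable def Qui_c2 (x : ℝ) (k : ℕ) : ℝ :=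
  (if k = 0 then 1 / 2 else 0) + √(1 + 4 * x) / 2 * Tri_b k * (4 / (1 + 4 * x)) ^ k

noncomputable def Qui_c3 (x : ℝ) (k : ℕ) : ℝ :=
  if k = 0 then Real.log (1 + x) else (-1) ^ (k + 1) / (k * (1 + x) ^ k)

noncomputable def Qui_c4 (x : ℝ) (k : ℕ) : ℝ := Real.exp x / k.factorial

/-- the coefficients -/
noncomputable def Qui_c : Fin 5 → ℝ → ℕ → ℝ := ![Qui_c0, Qui_c1, Qui_c2, Qui_c3, Qui_c4]

/-! ### Absolute values -/

theorem Qui_abs0 {x : ℝ} (hx : 0 < x) (k : ℕ) : |Qui_c0 x k| = Real.pi / x * (x⁻¹) ^ k := by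
  unfold Qui_c0
  rw [abs_div, abs_mul, abs_pow, abs_neg, abs_one, one_pow, mul_one, abs_of_pos Real.pi_pos,
    abs_of_pos (by positivity : 0 < x ^ (k + 1)), pow_succ, inv_pow]
  field_simp

theorem Qui_abs1 {x : ℝ} (hx : 0 < x) (k : ℕ) :
    |Qui_c1 x k| = √(2 * x) * |Tri_b k| * (x⁻¹) ^ k := by
  unfold Qui_c1
  rw [abs_div, abs_mul, abs_of_nonneg (Real.sqrt_nonneg _), abs_of_pos (by positivity : 0 < x ^ k),
    inv_pow, div_eq_mul_inv]

theorem Qui_abs2 {x : ℝ} (hx : 0 < x) (k : ℕ) (hk : 1 ≤ k) :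
    |Qui_c2 x k| = √(1 + 4 * x) / 2 * |Tri_b k| * (4 / (1 + 4 * x)) ^ k := by
  unfold Qui_c2
  rw [if_neg (by omega), zero_add, abs_mul, abs_mul, abs_of_nonneg (by positivity),
    abs_of_nonneg (by positivity : 0 ≤ (4 / (1 + 4 * x)) ^ k)]

theorem Qui_abs3 {x : ℝ} (hx : 0 < x) (k : ℕ) (hk : 1 ≤ k) :
    |Qui_c3 x k| = 1 / k * ((1 + x)⁻¹) ^ k := by
  have hk0 : (0 : ℝ) < k := by exact_mod_cast hk
  unfold Qui_c3
  rw [if_neg (by omega), abs_div, abs_pow, abs_neg, abs_one, one_pow,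
    abs_of_pos (by positivity : 0 < (k : ℝ) * (1 + x) ^ k), inv_pow]
  field_simp

theorem Qui_abs4 (x : ℝ) (k : ℕ) : |Qui_c4 x k| = Real.exp x * (1 / k.factorial) := by
  unfold Qui_c4
  rw [abs_of_nonneg (by positivity)]
  ring

/-! ### Power series -/

theorem Qui_h2 (x y : ℝ) (hx : 0 < x) (hy : 0 ≤ y) (hyx : y < x) :
    HasSum (fun k : ℕ => Qui_c2 x k * y ^ k) ((1 + √(1 + 4 * (x + y))) / 2) := by
  have h4 : 0 < 1 + 4 * x := by linarith
  have h := (Tri_b_hasSum (4 / (1 + 4 * x) * y) (by positivity) (by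
    rw [div_mul_eq_mul_div, div_lt_one h4]
    linarith)).mul_left (√(1 + 4 * x) / 2)
  have h0 := (hasSum_ite_eq (0 : ℕ) (1 / 2 : ℝ)).add h
  have e : √(1 + 4 * (x + y)) = √(1 + 4 * x) * √(1 + 4 / (1 + 4 * x) * y) := by
    rw [← Real.sqrt_mul h4.le]
    congr 1
    field_simp
    ring
  refine Tri_congr h0 (fun k => ?_) ?_
  · unfold Qui_c2
    rw [mul_pow]
    split_ifs with hk
    · rw [hk]
      ring
    · ring
  · rw [e]
    ring

theorem Qui_h3 (x y : ℝ) (hx : 0 < x) (hy : 0 ≤ y) (hyx : y < x) :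
    HasSum (fun k : ℕ => Qui_c3 x k * y ^ k) (Real.log (1 + (x + y))) := by
  have h1 : 0 < 1 + x := by linarith
  have habs : |-(y / (1 + x))| < 1 := by
    rw [abs_neg, abs_of_nonneg (by positivity), div_lt_one h1]
    linarith
  have h := (Real.hasSum_pow_div_log_of_abs_lt_one habs).neg
  rw [neg_neg, sub_neg_eq_add] at h
  have h2 : HasSum (fun n : ℕ => Qui_c3 x (n + 1) * y ^ (n + 1)) (Real.log (1 + y / (1 + x))) := by
    refine Tri_congr h (fun n => ?_) rfl
    unfold Qui_c3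
    rw [if_neg (by omega), neg_pow (y / (1 + x)), div_pow, pow_succ (-1 : ℝ) (n + 1)]
    push_cast
    field_simp
  have h3 := (hasSum_nat_add_iff (f := fun k : ℕ => Qui_c3 x k * y ^ k) 1).1 h2
  refine Tri_congr h3 (fun n => rfl) ?_
  rw [Finset.sum_range_one, pow_zero, mul_one]
  unfold Qui_c3
  rw [if_pos rfl, ← Real.log_mul (by positivity) (by positivity)]
  congr 1
  field_simp
  ring

/-! ### Upper bounds -/

theorem Qui_up {B D : ℝ} (hB : 0 ≤ B) (hD : 1 ≤ D) (k : ℕ) :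
    B * D ^ (k + 1) ≤ ((B + 1) * D) ^ (k + 1) := by
  rw [mul_pow]
  refine mul_le_mul_of_nonneg_right ?_ (by positivity)
  calc B ≤ B + 1 := by linarith
    _ ≤ (B + 1) ^ (k + 1) := le_self_pow₀ (by linarith) (by omega)

theorem Qui_upper (α β : ℝ) (hα : 0 < α) (hαβ : α < β) : ∀ j : Fin 5, ∃ B D : ℝ, 0 ≤ B ∧ 1 ≤ D ∧
    ∀ (x : ℝ) (k : ℕ), α ≤ x → x ≤ β → |Qui_c j x k| ≤ B * D ^ (k + 1) := by
  have hβ : 0 < β := by linarith
  have hpi := Real.pi_pos
  have hxD : ∀ x, α ≤ x → x⁻¹ ≤ 1 + 1 / α := by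
    intro x hx1
    have h1 : x⁻¹ ≤ α⁻¹ := inv_anti₀ hα hx1
    rw [one_div]
    linarith
  have hD1 : 1 ≤ 1 + 1 / α := by
    have : 0 < 1 / α := by positivity
    linarith
  intro j
  fin_cases j
  · refine ⟨Real.pi, 1 + 1 / α, hpi.le, hD1, fun x k hx1 hx2 => ?_⟩
    have hx : 0 < x := by linarith
    change |Qui_c0 x k| ≤ _
    rw [Qui_abs0 hx, div_eq_mul_inv, mul_assoc, ← pow_succ']
    exact mul_le_mul_of_nonneg_left (pow_le_pow_left₀ (by positivity) (hxD x hx1) _) hpi.le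
  · refine ⟨√(2 * β), 1 + 1 / α, Real.sqrt_nonneg _, hD1, fun x k hx1 hx2 => ?_⟩
    have hx : 0 < x := by linarith
    change |Qui_c1 x k| ≤ _
    rw [Qui_abs1 hx]
    refine mul_le_mul ?_ ?_ (by positivity) (by positivity)
    · calc √(2 * x) * |Tri_b k| ≤ √(2 * x) * 1 :=
            mul_le_mul_of_nonneg_left (Tri_b_le_one k) (Real.sqrt_nonneg _)
        _ ≤ √(2 * β) := by
            rw [mul_one]
            exact Real.sqrt_le_sqrt (by linarith)
    · exact (pow_le_pow_left₀ (by positivity) (hxD x hx1) _).trans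
        (pow_le_pow_right₀ hD1 (Nat.le_succ k))
  · refine ⟨1 / 2 + √(1 + 4 * β) / 2, 4, by positivity, by norm_num, fun x k hx1 hx2 => ?_⟩
    have hx : 0 < x := by linarith
    change |Qui_c2 x k| ≤ _
    unfold Qui_c2
    have h4 : 0 < 1 + 4 * x := by linarith
    have h5 : (4 / (1 + 4 * x)) ^ k ≤ (4 : ℝ) ^ (k + 1) := by
      refine (pow_le_pow_left₀ (by positivity) ?_ _).trans
        (pow_le_pow_right₀ (by norm_num : (1 : ℝ) ≤ 4) (Nat.le_succ k))
      exact div_le_self (by norm_num) (by linarith)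
    have h6 : |if k = 0 then (1 / 2 : ℝ) else 0| ≤ 1 / 2 * 4 ^ (k + 1) := by
      have h7 : (1 : ℝ) ≤ 4 ^ (k + 1) := one_le_pow₀ (by norm_num)
      split_ifs
      · rw [abs_of_pos (by norm_num)]
        linarith
      · rw [abs_zero]
        positivity
    have h8 : |√(1 + 4 * x) / 2 * Tri_b k * (4 / (1 + 4 * x)) ^ k| ≤
        √(1 + 4 * β) / 2 * 4 ^ (k + 1) := by
      rw [abs_mul, abs_mul, abs_of_nonneg (by positivity : 0 ≤ √(1 + 4 * x) / 2),
        abs_of_nonneg (by positivity : 0 ≤ (4 / (1 + 4 * x)) ^ k)]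
      refine mul_le_mul ?_ h5 (by positivity) (by positivity)
      calc √(1 + 4 * x) / 2 * |Tri_b k| ≤ √(1 + 4 * x) / 2 * 1 :=
            mul_le_mul_of_nonneg_left (Tri_b_le_one k) (by positivity)
        _ ≤ √(1 + 4 * β) / 2 := by
            rw [mul_one]
            exact div_le_div_of_nonneg_right (Real.sqrt_le_sqrt (by linarith)) (by norm_num)
    calc _ ≤ |if k = 0 then (1 / 2 : ℝ) else 0| +
          |√(1 + 4 * x) / 2 * Tri_b k * (4 / (1 + 4 * x)) ^ k| := abs_add_le _ _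
      _ ≤ 1 / 2 * 4 ^ (k + 1) + √(1 + 4 * β) / 2 * 4 ^ (k + 1) := add_le_add h6 h8
      _ = _ := by ring
  · refine ⟨1 + β, 1, by positivity, le_rfl, fun x k hx1 hx2 => ?_⟩
    have hx : 0 < x := by linarith
    change |Qui_c3 x k| ≤ _
    rw [one_pow, mul_one]
    rcases Nat.eq_zero_or_pos k with hk | hk
    · unfold Qui_c3
      rw [if_pos hk, abs_of_nonneg (Real.log_nonneg (by linarith))]
      have := Real.log_le_sub_one_of_pos (by linarith : 0 < 1 + x)
      linarith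
    · rw [Qui_abs3 hx k hk]
      have hk1 : (1 : ℝ) ≤ k := by exact_mod_cast hk
      have h1 : 1 / (k : ℝ) ≤ 1 := by
        rw [div_le_one (by positivity)]
        exact hk1
      have h2 : ((1 + x)⁻¹) ^ k ≤ 1 := by
        refine pow_le_one₀ (by positivity) ?_
        exact inv_le_one_of_one_le₀ (by linarith)
      calc 1 / (k : ℝ) * ((1 + x)⁻¹) ^ k ≤ 1 * 1 := mul_le_mul h1 h2 (by positivity) (by norm_num)
        _ ≤ 1 + β := by linarith
  · refine ⟨Real.exp β, 1, (Real.exp_pos _).le, le_rfl, fun x k hx1 hx2 => ?_⟩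
    change |Qui_c4 x k| ≤ _
    rw [Qui_abs4, one_pow]
    refine mul_le_mul (Real.exp_le_exp.2 hx2) ?_ (by positivity) (by positivity)
    rw [div_le_one (by exact_mod_cast Nat.factorial_pos k)]
    exact_mod_cast Nat.factorial_pos k

/-! ### Lower bounds -/

theorem Qui_lo (t s : ℝ) (ht : 0 < t) (hs : 0 < s) (k : ℕ) (hk : 1 ≤ k) :
    Real.exp (-((|Real.log t| + |Real.log s| + 2) * (k : ℝ) ^ 2)) ≤ t * (1 / (k : ℝ) ^ 2) * s ^ k := by
  have e : Real.exp (-((|Real.log t| + |Real.log s| + 2) * (k : ℝ) ^ 2)) =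
      Real.exp (-(|Real.log t| * (k : ℝ) ^ 2)) * Real.exp (-(2 * (k : ℝ) ^ 2)) *
        Real.exp (-(|Real.log s| * (k : ℝ) ^ 2)) := by
    rw [← Real.exp_add, ← Real.exp_add]
    congr 1
    ring
  rw [e]
  refine mul_le_mul (mul_le_mul (Tri_t t ht k hk) (Tri_k2 k hk) (Real.exp_pos _).le ht.le)
    (Tri_tp s hs k) (Real.exp_pos _).le (by positivity)

theorem Qui_lower (α β : ℝ) (hα : 0 < α) (hαβ : α < β) : ∀ j : Fin 5, ∃ A : ℝ, 0 ≤ A ∧
    ∀ (x : ℝ) (k : ℕ), α ≤ x → x ≤ β → 1 ≤ k → Real.exp (-(A * (k : ℝ) ^ 2)) ≤ |Qui_c j x k| := by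
  have hβ : 0 < β := by linarith
  have hpi := Real.pi_pos
  have hk2 : ∀ k : ℕ, 1 ≤ k → 1 / (k : ℝ) ^ 2 ≤ 1 := by
    intro k hk
    have hk1 : (1 : ℝ) ≤ k := by exact_mod_cast hk
    rw [div_le_one (by positivity)]
    nlinarith
  intro j
  fin_cases j
  · refine ⟨|Real.log (Real.pi / β)| + |Real.log β⁻¹| + 2, by positivity,
      fun x k hx1 hx2 hk => (Qui_lo _ _ (by positivity) (by positivity) k hk).trans ?_⟩
    have hx : 0 < x := by linarith
    change _ ≤ |Qui_c0 x k|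
    rw [Qui_abs0 hx]
    refine mul_le_mul ?_ (pow_le_pow_left₀ (by positivity) (inv_anti₀ hx hx2) _) (by positivity)
      (by positivity)
    calc Real.pi / β * (1 / (k : ℝ) ^ 2) ≤ Real.pi / β * 1 :=
          mul_le_mul_of_nonneg_left (hk2 k hk) (by positivity)
      _ ≤ Real.pi / x := by
          rw [mul_one]
          exact div_le_div_of_nonneg_left hpi.le hx hx2
  · have hsq : 0 < √(2 * α) := Real.sqrt_pos.2 (by linarith)
    refine ⟨|Real.log (√(2 * α) / 4)| + |Real.log β⁻¹| + 2, by positivity,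
      fun x k hx1 hx2 hk => (Qui_lo _ _ (by positivity) (by positivity) k hk).trans ?_⟩
    have hx : 0 < x := by linarith
    have hk1 : (0 : ℝ) < k := by exact_mod_cast hk
    change _ ≤ |Qui_c1 x k|
    rw [Qui_abs1 hx]
    refine mul_le_mul ?_ (pow_le_pow_left₀ (by positivity) (inv_anti₀ hx hx2) _) (by positivity)
      (by positivity)
    calc √(2 * α) / 4 * (1 / (k : ℝ) ^ 2) = √(2 * α) * (1 / (4 * (k : ℝ) ^ 2)) := by field_simp
      _ ≤ √(2 * x) * |Tri_b k| :=
          mul_le_mul (Real.sqrt_le_sqrt (by linarith)) (Tri_b_abs k hk).1 (by positivity)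
            (Real.sqrt_nonneg _)
  · refine ⟨|Real.log (1 / 8)| + |Real.log (4 / (1 + 4 * β))| + 2, by positivity,
      fun x k hx1 hx2 hk => (Qui_lo _ _ (by norm_num) (by positivity) k hk).trans ?_⟩
    have hx : 0 < x := by linarith
    have hk1 : (0 : ℝ) < k := by exact_mod_cast hk
    change _ ≤ |Qui_c2 x k|
    rw [Qui_abs2 hx k hk]
    refine mul_le_mul ?_ (pow_le_pow_left₀ (by positivity)
      (div_le_div_of_nonneg_left (by norm_num) (by positivity) (by linarith)) _) (by positivity)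
      (by positivity)
    have h1 : 1 ≤ √(1 + 4 * x) := Real.one_le_sqrt.2 (by linarith)
    calc 1 / 8 * (1 / (k : ℝ) ^ 2) = 1 / 2 * (1 / (4 * (k : ℝ) ^ 2)) := by
          field_simp
          norm_num
      _ ≤ √(1 + 4 * x) / 2 * |Tri_b k| :=
          mul_le_mul (by linarith) (Tri_b_abs k hk).1 (by positivity) (by positivity)
  · refine ⟨|Real.log 1| + |Real.log (1 + β)⁻¹| + 2, by positivity,
      fun x k hx1 hx2 hk => (Qui_lo _ _ (by norm_num) (by positivity) k hk).trans ?_⟩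
    have hx : 0 < x := by linarith
    have hk1 : (1 : ℝ) ≤ k := by exact_mod_cast hk
    change _ ≤ |Qui_c3 x k|
    rw [Qui_abs3 hx k hk, one_mul]
    refine mul_le_mul ?_ (pow_le_pow_left₀ (by positivity)
      (inv_anti₀ (by positivity) (by linarith)) _) (by positivity) (by positivity)
    exact one_div_le_one_div_of_le (by positivity) (by nlinarith)
  · refine ⟨1, by norm_num, fun x k hx1 hx2 hk => ?_⟩
    have hx : 0 < x := by linarith
    change _ ≤ |Qui_c4 x k|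
    rw [Qui_abs4, one_mul]
    refine (Tri_fac k).trans ?_
    exact le_mul_of_one_le_left (by positivity) (Real.one_le_exp hx.le)

/-! ### The order -/

/-- the coefficients `d` are much smaller than `c` -/
def Qui_R (α β : ℝ) (c d : ℝ → ℕ → ℝ) : Prop := ∀ η : ℝ, 0 < η → ∃ k1 : ℕ, ∀ x k, α ≤ x → x ≤ β →
  k1 ≤ k → |d x k| ≤ η * |c x k|

theorem Qui_R.trans {α β : ℝ} {c d e : ℝ → ℕ → ℝ} (h1 : Qui_R α β c d) (h2 : Qui_R α β d e) :
    Qui_R α β c e := by
  intro η hη
  obtain ⟨k1, hk1⟩ := h1 1 one_pos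
  obtain ⟨k2, hk2⟩ := h2 η hη
  refine ⟨max k1 k2, fun x k hx1 hx2 hk => ?_⟩
  have a1 := hk1 x k hx1 hx2 ((le_max_left _ _).trans hk)
  have a2 := hk2 x k hx1 hx2 ((le_max_right _ _).trans hk)
  rw [one_mul] at a1
  exact a2.trans (mul_le_mul_of_nonneg_left a1 hη.le)

theorem Qui_R_of {α β : ℝ} {c d : ℝ → ℕ → ℝ} (g : ℕ → ℝ) (hg : Tendsto g atTop (𝓝 0))
    (h : ∀ (x : ℝ) (k : ℕ), α ≤ x → x ≤ β → 1 ≤ k → |d x k| ≤ g k * |c x k|) : Qui_R α β c d := by
  intro η hη
  obtain ⟨k1, hk1⟩ := eventually_atTop.1 (hg.eventually_le_const hη)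
  refine ⟨max k1 1, fun x k hx1 hx2 hk => ?_⟩
  refine (h x k hx1 hx2 ((le_max_right _ _).trans hk)).trans ?_
  exact mul_le_mul_of_nonneg_right (hk1 k ((le_max_left _ _).trans hk)) (abs_nonneg _)

theorem Qui_r01 (α β : ℝ) (hα : 0 < α) (hαβ : α < β) : Qui_R α β Qui_c0 Qui_c1 := by
  have hβ : 0 < β := by linarith
  have hpi := Real.pi_pos
  refine Qui_R_of (fun k => √(2 * β) * β / (2 * Real.pi) * (1 / (k : ℝ))) ?_ ?_
  · have := (tendsto_one_div_atTop_nhds_zero_nat (𝕜 := ℝ)).const_mul (√(2 * β) * β / (2 * Real.pi))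
    rwa [mul_zero] at this
  · intro x k hx1 hx2 hk
    have hx : 0 < x := by linarith
    have hk1 : (0 : ℝ) < k := by exact_mod_cast hk
    rw [Qui_abs0 hx, Qui_abs1 hx, ← mul_assoc]
    refine mul_le_mul_of_nonneg_right ?_ (by positivity)
    calc √(2 * x) * |Tri_b k| ≤ √(2 * β) * (1 / (2 * k)) :=
          mul_le_mul (Real.sqrt_le_sqrt (by linarith)) (Tri_b_abs k hk).2 (abs_nonneg _)
            (Real.sqrt_nonneg _)
      _ = √(2 * β) * β / (2 * Real.pi) * (1 / (k : ℝ)) * (Real.pi / β) := by field_simp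
      _ ≤ √(2 * β) * β / (2 * Real.pi) * (1 / (k : ℝ)) * (Real.pi / x) :=
          mul_le_mul_of_nonneg_left (div_le_div_of_nonneg_left hpi.le hx hx2) (by positivity)

theorem Qui_r12 (α β : ℝ) (hα : 0 < α) (hαβ : α < β) : Qui_R α β Qui_c1 Qui_c2 := by
  have hβ : 0 < β := by linarith
  have hsa : 0 < √(2 * α) := Real.sqrt_pos.2 (by linarith)
  refine Qui_R_of (fun k => √(1 + 4 * β) / 2 / √(2 * α) * (4 * β / (1 + 4 * β)) ^ k) ?_ ?_
  · have h1 : 4 * β / (1 + 4 * β) < 1 := by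
      rw [div_lt_one (by positivity)]
      linarith
    have := (tendsto_pow_atTop_nhds_zero_of_lt_one (by positivity) h1).const_mul
      (√(1 + 4 * β) / 2 / √(2 * α))
    rwa [mul_zero] at this
  · intro x k hx1 hx2 hk
    have hx : 0 < x := by linarith
    have hsx : √(2 * α) ≤ √(2 * x) := Real.sqrt_le_sqrt (by linarith)
    rw [Qui_abs2 hx k hk, Qui_abs1 hx]
    have h2 : (4 / (1 + 4 * x)) ^ k ≤ (4 * β / (1 + 4 * β)) ^ k * (x⁻¹) ^ k := by
      rw [← mul_pow]
      refine pow_le_pow_left₀ (by positivity) ?_ _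
      rw [← div_eq_mul_inv, div_div, div_le_div_iff₀ (by positivity) (by positivity)]
      nlinarith
    calc √(1 + 4 * x) / 2 * |Tri_b k| * (4 / (1 + 4 * x)) ^ k
        ≤ √(1 + 4 * β) / 2 * |Tri_b k| * ((4 * β / (1 + 4 * β)) ^ k * (x⁻¹) ^ k) := by
          refine mul_le_mul (mul_le_mul_of_nonneg_right (div_le_div_of_nonneg_right
            (Real.sqrt_le_sqrt (by linarith)) (by norm_num)) (abs_nonneg _)) h2 (by positivity)
            (by positivity)
      _ = √(1 + 4 * β) / 2 / √(2 * α) * (4 * β / (1 + 4 * β)) ^ k *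
          (√(2 * α) * |Tri_b k| * (x⁻¹) ^ k) := by
          field_simp
      _ ≤ √(1 + 4 * β) / 2 / √(2 * α) * (4 * β / (1 + 4 * β)) ^ k *
          (√(2 * x) * |Tri_b k| * (x⁻¹) ^ k) := by
          refine mul_le_mul_of_nonneg_left ?_ (by positivity)
          refine mul_le_mul_of_nonneg_right ?_ (by positivity)
          exact mul_le_mul_of_nonneg_right hsx (abs_nonneg _)

theorem Qui_r23 (α β : ℝ) (hα : 0 < α) (hαβ : α < β) : Qui_R α β Qui_c2 Qui_c3 := by
  have hβ : 0 < β := by linarith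
  refine Qui_R_of (fun k => 8 * (k * ((1 + 4 * β) / (4 * (1 + β))) ^ k)) ?_ ?_
  · have h1 : (1 + 4 * β) / (4 * (1 + β)) < 1 := by
      rw [div_lt_one (by positivity)]
      linarith
    have := (tendsto_self_mul_const_pow_of_lt_one (by positivity) h1).const_mul 8
    rwa [mul_zero] at this
  · intro x k hx1 hx2 hk
    have hx : 0 < x := by linarith
    have hk1 : (0 : ℝ) < k := by exact_mod_cast hk
    rw [Qui_abs2 hx k hk, Qui_abs3 hx k hk]
    have h2 : ((1 + x)⁻¹) ^ k ≤ ((1 + 4 * β) / (4 * (1 + β))) ^ k * (4 / (1 + 4 * x)) ^ k := by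
      rw [← mul_pow]
      refine pow_le_pow_left₀ (by positivity) ?_ _
      rw [inv_eq_one_div, div_mul_div_comm, div_le_div_iff₀ (by positivity) (by positivity)]
      nlinarith
    have h3 : 1 ≤ √(1 + 4 * x) := Real.one_le_sqrt.2 (by linarith)
    have h4 : 1 / (8 * (k : ℝ) ^ 2) ≤ √(1 + 4 * x) / 2 * |Tri_b k| := by
      calc 1 / (8 * (k : ℝ) ^ 2) = 1 / 2 * (1 / (4 * (k : ℝ) ^ 2)) := by
            field_simp
            norm_num
        _ ≤ √(1 + 4 * x) / 2 * |Tri_b k| :=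
            mul_le_mul (by linarith) (Tri_b_abs k hk).1 (by positivity) (by positivity)
    calc 1 / (k : ℝ) * ((1 + x)⁻¹) ^ k
        ≤ 1 / (k : ℝ) * (((1 + 4 * β) / (4 * (1 + β))) ^ k * (4 / (1 + 4 * x)) ^ k) :=
          mul_le_mul_of_nonneg_left h2 (by positivity)
      _ = 8 * (k * ((1 + 4 * β) / (4 * (1 + β))) ^ k) *
          (1 / (8 * (k : ℝ) ^ 2) * (4 / (1 + 4 * x)) ^ k) := by
          field_simp
      _ ≤ 8 * (k * ((1 + 4 * β) / (4 * (1 + β))) ^ k) *
          (√(1 + 4 * x) / 2 * |Tri_b k| * (4 / (1 + 4 * x)) ^ k) := by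
          refine mul_le_mul_of_nonneg_left ?_ (by positivity)
          exact mul_le_mul_of_nonneg_right h4 (by positivity)

theorem Qui_r34 (α β : ℝ) (hα : 0 < α) (hαβ : α < β) : Qui_R α β Qui_c3 Qui_c4 := by
  have hβ : 0 < β := by linarith
  refine Qui_R_of (fun k => Real.exp β * ((2 * (1 + β)) ^ k / k.factorial)) ?_ ?_
  · have := (FloorSemiring.tendsto_pow_div_factorial_atTop (2 * (1 + β))).const_mul (Real.exp β)
    rwa [mul_zero] at this
  · intro x k hx1 hx2 hk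
    have hx : 0 < x := by linarith
    have hk1 : (0 : ℝ) < k := by exact_mod_cast hk
    have hf : (0 : ℝ) < k.factorial := by exact_mod_cast Nat.factorial_pos k
    have h3 : (k : ℝ) ≤ 2 ^ k := by exact_mod_cast (Nat.lt_two_pow_self (n := k)).le
    rw [Qui_abs4, Qui_abs3 hx k hk]
    have h4 : 1 ≤ 2 ^ k * (1 + β) ^ k * (1 / (k : ℝ) * ((1 + x)⁻¹) ^ k) := by
      have h5 : 1 ≤ (2 : ℝ) ^ k * (1 / (k : ℝ)) := by
        rw [mul_one_div, le_div_iff₀ hk1, one_mul]
        exact h3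
      have h6 : 1 ≤ (1 + β) ^ k * ((1 + x)⁻¹) ^ k := by
        rw [← mul_pow]
        refine one_le_pow₀ ?_
        rw [← div_eq_mul_inv, le_div_iff₀ (by positivity)]
        linarith
      calc (1 : ℝ) = 1 * 1 := by norm_num
        _ ≤ ((2 : ℝ) ^ k * (1 / (k : ℝ))) * ((1 + β) ^ k * ((1 + x)⁻¹) ^ k) :=
            mul_le_mul h5 h6 (by norm_num) (by positivity)
        _ = _ := by ring
    calc Real.exp x * (1 / (k.factorial : ℝ)) ≤ Real.exp β * (1 / (k.factorial : ℝ)) * 1 := by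
          rw [mul_one]
          exact mul_le_mul_of_nonneg_right (Real.exp_le_exp.2 hx2) (by positivity)
      _ ≤ Real.exp β * (1 / (k.factorial : ℝ)) *
          (2 ^ k * (1 + β) ^ k * (1 / (k : ℝ) * ((1 + x)⁻¹) ^ k)) :=
          mul_le_mul_of_nonneg_left h4 (by positivity)
      _ = _ := by
          rw [mul_pow]
          ring

/-- G7 -/
theorem qui : S_QUI := by
  intro α β hα hαβ
  choose B D hB hD hup using Qui_upper α β hα hαβ
  choose A hA hlo using Qui_lower α β hα hαβ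
  have hα' : 0 < 1 / α := by positivity
  have hBD : ∀ j, 0 ≤ (B j + 1) * D j := fun j =>
    mul_nonneg (by linarith [hB j]) (by linarith [hD j])
  have hS : ∀ j, (B j + 1) * D j ≤ ∑ i, (B i + 1) * D i := fun j =>
    Finset.single_le_sum (f := fun i => (B i + 1) * D i) (fun i _ => hBD i) (Finset.mem_univ j)
  have hS0 : 0 ≤ ∑ i, (B i + 1) * D i := Finset.sum_nonneg fun i _ => hBD i
  have hSA : ∀ j, A j ≤ ∑ i, A i := fun j =>
    Finset.single_le_sum (f := A) (fun i _ => hA i) (Finset.mem_univ j)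
  refine ⟨Qui_c, (∑ i, (B i + 1) * D i) + 1 / α + 1, ∑ i, A i, 1, by linarith,
    Finset.sum_nonneg fun i _ => hA i, ?_, ?_, ?_, ?_⟩
  · intro j x k hx1 hx2
    refine (hup j x k hx1 hx2).trans ((Qui_up (hB j) (hD j) k).trans ?_)
    exact pow_le_pow_left₀ (hBD j) (by linarith [hS j]) _
  · intro j x k hx1 hx2 hk
    refine le_trans ?_ (hlo j x k hx1 hx2 hk)
    rw [Real.exp_le_exp, neg_le_neg_iff]
    exact mul_le_mul_of_nonneg_right (hSA j) (by positivity)
  · intro j x y hx1 hx2 hy hCy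
    have hx : 0 < x := by linarith
    have hyα : y < α := by
      have h1 : 1 / α * y ≤ ((∑ i, (B i + 1) * D i) + 1 / α + 1) * y :=
        mul_le_mul_of_nonneg_right (by linarith) hy
      have h2 : 1 / α * y < 1 := lt_of_le_of_lt h1 hCy
      rw [div_mul_eq_mul_div, one_mul, div_lt_one hα] at h2
      exact h2
    have hyx : y < x := by linarith
    fin_cases j
    · exact Tri_inv x y hx hy hyx
    · exact Tri_sqrt x y hx hy hyx
    · exact Qui_h2 x y hx hy hyx
    · exact Qui_h3 x y hx hy hyx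
    · exact Tri_exp x y
  · have r01 := Qui_r01 α β hα hαβ
    have r12 := Qui_r12 α β hα hαβ
    have r23 := Qui_r23 α β hα hαβ
    have r34 := Qui_r34 α β hα hαβ
    have r02 := r01.trans r12
    have r03 := r02.trans r23
    have r04 := r03.trans r34
    have r13 := r12.trans r23
    have r14 := r13.trans r34
    have r24 := r23.trans r34
    intro i j hij
    fin_cases i <;> fin_cases j <;>
      first
        | exact absurd hij (by decide)
        | exact r01
        | exact r02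
        | exact r03
        | exact r04
        | exact r12
        | exact r13
        | exact r14
        | exact r23
        | exact r24
        | exact r34

end Pool.Agent.N586.GF
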