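import Pool.Agent.N586.GF.Stm
import Pool.Agent.N507.KO.Scal
import Pool.Agent.N507.KO.Box

/-!
# Project GF (helper586), G3: the second moment method in blocks (helper170)
(adaptation of helper507's files for the project KO)
-/

set_option autoImplicit false

namespace Pool.Agent.N586.GF

open Finset MeasureTheory
open Pool.Agent.Y933.KD (e ind measurable_ind Leb e_zero e_add norm_e e_neg)
open Pool.Agent.Y951.TU
open Pool.Agent.N507.KO

/-- box counts from exponential sums, for vectors -/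
theorem smbBox (w : ℕ) (ε : ℝ) (hε : 0 < ε) : ∃ (K : ℕ) (D : ℝ), 0 < D ∧ ∀ (s : Finset ℕ)
    (x : ℕ → Fin w → ℝ), s.Nonempty → (∀ h : Fin w → ℤ, (∀ j, |h j| ≤ K) → h ≠ 0 →
      ‖∑ n ∈ s, e (∑ j : Fin w, (h j : ℝ) * x n j)‖ ≤ D * s.card) →
    ∀ u v : Fin w → ℝ, (∀ j, 0 ≤ u j) → (∀ j, u j ≤ v j) → (∀ j, v j ≤ 1) →
      |((s.filter (fun n => ∀ j : Fin w, u j ≤ Int.fract (x n j) ∧
        Int.fract (x n j) < v j)).card : ℝ) - s.card * ∏ j, (v j - u j)| ≤ ε * s.card := by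
  classical
  obtain ⟨K0, hK0, hK0'⟩ : ∃ K0 : ℕ, 0 < K0 ∧ (w : ℝ) * (12 / K0) ≤ ε / 2 := by
    refine ⟨⌈24 * w / ε⌉₊ + 1, Nat.succ_pos _, ?_⟩
    have h1 : 24 * w / ε ≤ (⌈24 * w / ε⌉₊ : ℝ) := Nat.le_ceil _
    rw [mul_div_assoc', div_le_iff₀ (by positivity)]
    rw [div_le_iff₀ hε] at h1
    push_cast
    nlinarith
  have hKR : (0 : ℝ) < K0 := by exact_mod_cast hK0
  obtain ⟨A, hA⟩ : ∃ A : ℝ, A = (2 * (K0 : ℝ) ^ 3 + 1) ^ w + w * 5 := ⟨_, rfl⟩
  have hA0 : 0 < A := by rw [hA]; positivity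
  refine ⟨K0 ^ 3, ε / 2 / A, by positivity, ?_⟩
  intro s x hs hS u v hu huv hv
  have hsc : (0 : ℝ) < s.card := by exact_mod_cast Finset.card_pos.2 hs
  obtain ⟨Δ, hΔdef⟩ : ∃ Δ : ℝ, Δ = ε / 2 / A := ⟨_, rfl⟩
  have hΔ0 : 0 ≤ Δ := by rw [hΔdef]; positivity
  have hprob := unif_prob hs x
  have hq : ∀ i : Fin w, ∀ h : ℤ, h ≠ 0 → h • (Pi.single i 1 : Fin w → ℤ) ≠ 0 := by
    intro i h hh h0
    have h1 := congrFun h0 i
    rw [Pi.smul_apply, Pi.single_eq_same, Pi.zero_apply, smul_eq_mul, mul_one] at h1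
    exact hh h1
  have hsum : ∀ h : Fin w → ℤ, ∑ i, h i • (Pi.single i 1 : Fin w → ℤ) = h := by
    intro h
    funext j
    rw [Finset.sum_apply, sum_eq_single j]
    · rw [Pi.smul_apply, Pi.single_eq_same, smul_eq_mul, mul_one]
    · intro i _ hi
      rw [Pi.smul_apply, Pi.single_eq_of_ne (Ne.symm hi), smul_zero]
    · intro hj
      exact absurd (mem_univ j) hj
  have hΔ : ∀ h : Fin w → ℤ, (∀ i, |h i| ≤ (K0 : ℤ) ^ 3) →
      ∑ i, h i • (Pi.single i 1 : Fin w → ℤ) ≠ 0 →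
      ‖hat (lin w) (unif s x) (∑ i, h i • (Pi.single i 1 : Fin w → ℤ))‖ ≤ Δ := by
    intro h hh hne
    rw [hsum] at hne ⊢
    unfold hat
    rw [integral_unif, norm_mul]
    have h1 : ‖(1 / (s.card : ℂ))‖ = 1 / s.card := by simp
    rw [h1, one_div_mul_eq_div, div_le_iff₀ hsc, hΔdef]
    have h2 := hS h (fun j => by have := hh j; push_cast; exact this) hne
    refine le_trans (le_of_eq ?_) h2
    congr 1
  have key := test hK0 measurable_lin (unif s x) (Cube w) hat_Cube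
    (fun i => (Pi.single i 1 : Fin w → ℤ)) hq Δ hΔ hΔ0 u v hu hv
  rw [int_Cube hu huv hv, integral_ind measurable_lin] at key
  have h3 := real_unif s x (measurableSet_Ev measurable_lin
    (fun i => (Pi.single i 1 : Fin w → ℤ)) u v)
  rw [h3] at key
  have h4 : s.filter (fun m => x m ∈ Ev (lin w) (fun i => (Pi.single i 1 : Fin w → ℤ)) u v) =
      s.filter (fun n => ∀ j : Fin w, u j ≤ Int.fract (x n j) ∧
        Int.fract (x n j) < v j) := by
    refine filter_congr fun n _ => ?_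
    have h5 : ∀ (i : Fin w), lin w (Pi.single i 1) (x n) = x n i := by
      intro i
      rw [lin_apply, sum_eq_single i]
      · rw [Pi.single_eq_same, Int.cast_one, one_mul]
      · intro j _ hj
        rw [Pi.single_eq_of_ne hj, Int.cast_zero, zero_mul]
      · intro h
        exact absurd (mem_univ i) h
    unfold Ev
    show (∀ i, u i ≤ Int.fract (lin w (Pi.single i 1) (x n)) ∧
      Int.fract (lin w (Pi.single i 1) (x n)) < v i) ↔ _
    simp only [h5]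
  rw [h4] at key
  have h6 : (2 * (K0 : ℝ) ^ 3 + 1) ^ w * Δ + w * (12 / K0 + 5 * Δ) ≤ ε := by
    have h7 : (2 * (K0 : ℝ) ^ 3 + 1) ^ w * Δ + w * (12 / K0 + 5 * Δ) =
        A * Δ + w * (12 / K0) := by rw [hA]; ring
    rw [h7, hΔdef, mul_div_cancel₀ _ hA0.ne']
    linarith
  have h8 := key.trans h6
  have h9 : ∀ c V : ℝ, c - s.card * V = (c / s.card - V) * s.card := by
    intro c V
    field_simp
  rw [h9, abs_mul, abs_of_pos hsc]
  exact mul_le_mul_of_nonneg_right h8 hsc.le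

/-- the family of frequencies -/
noncomputable def smbL (w K : ℕ) : Finset (Fin w → ℤ) :=
  (Fintype.piFinset fun _ : Fin w => Icc (-(K : ℤ)) K).filter (fun h => h ≠ 0)

theorem smbL_mem {w K : ℕ} {h : Fin w → ℤ} : h ∈ smbL w K ↔ (∀ j, |h j| ≤ K) ∧ h ≠ 0 := by
  unfold smbL
  rw [mem_filter, Fintype.mem_piFinset]
  simp only [mem_Icc, abs_le]

/-- the measure of one exceptional event -/
theorem smbEvent {w K : ℕ} {h : Fin w → ℤ} (hh : h ∈ smbL w K) {D : ℝ} (hD : 0 < D) {I : Finset ℕ}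
    {z : ℕ → ℕ → Fin w → ℝ} {s0 N1 ℓ : ℕ} {η : ℝ} (hℓ : 1 ≤ ℓ) (hη : 0 ≤ η)
    (hyp : ∀ h : Fin w → ℤ, (∀ j, |h j| ≤ K) → h ≠ 0 → ∀ n n' : ℕ, s0 ≤ n' → n' < n → n ≤ N1 →
      ‖∑ a ∈ I, e (∑ j, (h j : ℝ) * (z a n j - z a n' j))‖ ≤ η * (I.card : ℝ))
    {i : ℕ} (hi : s0 + (i + 1) * ℓ ≤ N1) :
    ((I.filter (fun a => D * (ℓ : ℝ) <
      ‖∑ n ∈ Ico (s0 + i * ℓ) (s0 + (i + 1) * ℓ), e (∑ j : Fin w, (h j : ℝ) * z a n j)‖)).card : ℝ) ≤
      (I.card : ℝ) / D ^ 2 * (1 / (ℓ : ℝ) + η) := by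
  rw [smbL_mem] at hh
  have hcard : (Ico (s0 + i * ℓ) (s0 + (i + 1) * ℓ)).card = ℓ := by
    rw [Nat.card_Ico, Nat.succ_mul]
    omega
  have hc0 : (0 : ℝ) < ℓ := by exact_mod_cast hℓ
  have h1 := moment I (Ico (s0 + i * ℓ) (s0 + (i + 1) * ℓ))
    (fun a n => e (∑ j : Fin w, (h j : ℝ) * z a n j)) η hη
    (fun a n => norm_e _) (by
      intro n hn n' hn' hlt
      rw [mem_Ico] at hn hn'
      have h2 := hyp h hh.1 hh.2 n n' (by nlinarith [hn'.1]) hlt (by omega)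
      refine le_trans (le_of_eq ?_) h2
      congr 1
      refine sum_congr rfl fun a _ => ?_
      rw [← e_neg, ← e_add]
      congr 1
      rw [← sub_eq_add_neg, ← sum_sub_distrib]
      exact sum_congr rfl fun j _ => by ring)
  rw [hcard] at h1
  have h2 := markov I (fun a => ‖∑ n ∈ Ico (s0 + i * ℓ) (s0 + (i + 1) * ℓ),
    e (∑ j : Fin w, (h j : ℝ) * z a n j)‖) (D * (ℓ : ℝ)) (by positivity)
  have h3 := h2.trans h1
  have h5 : (I.card : ℝ) / D ^ 2 * (1 / (ℓ : ℝ) + η) =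
      I.card * (ℓ + η * (ℓ : ℝ) ^ 2) / (D * ℓ) ^ 2 := by
    field_simp
  rw [h5, le_div_iff₀ (by positivity)]
  exact h3

/-- counts over windows from counts over blocks -/
theorem smbWin (P : ℕ → Prop) [DecidablePred P] {V ε : ℝ} (hV0 : 0 ≤ V) (hV1 : V ≤ 1)
    (hε : 0 ≤ ε) {s0 N1 ℓ : ℕ} (hℓ : 1 ≤ ℓ)
    (hb : ∀ i, s0 + (i + 1) * ℓ ≤ N1 →
      |(((Ico (s0 + i * ℓ) (s0 + (i + 1) * ℓ)).filter P).card : ℝ) - ℓ * V| ≤ ε * ℓ)
    {s N : ℕ} (hs : s0 ≤ s) (hN : s + N ≤ N1) :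
    |(((Ico s (s + N)).filter P).card : ℝ) - N * V| ≤ ε * N + 2 * ℓ := by
  have hadd : ∀ a b c : ℕ, a ≤ b → b ≤ c → ((Ico a c).filter P).card =
      ((Ico a b).filter P).card + ((Ico b c).filter P).card := by
    intro a b c h1 h2
    rw [← Ico_union_Ico_eq_Ico h1 h2, filter_union, card_union_of_disjoint]
    exact disjoint_filter_filter (Ico_disjoint_Ico_consecutive a b c)
  have hle : ∀ a b : ℕ, ((Ico a b).filter P).card ≤ b - a := by
    intro a b
    refine (card_filter_le _ _).trans ?_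
    rw [Nat.card_Ico]
  have hℓR : (1 : ℝ) ≤ ℓ := by exact_mod_cast hℓ
  -- sums of blocks
  have hblocks : ∀ i0 f : ℕ, s0 + (i0 + f) * ℓ ≤ N1 →
      |(((Ico (s0 + i0 * ℓ) (s0 + (i0 + f) * ℓ)).filter P).card : ℝ) - (f * ℓ) * V| ≤
        ε * (f * ℓ) := by
    intro i0 f
    induction f with
    | zero => intro _; simp
    | succ f ih =>
      intro h
      have h1 : s0 + (i0 + f) * ℓ ≤ s0 + (i0 + (f + 1)) * ℓ := by
        gcongr; omega
      have h2 : s0 + i0 * ℓ ≤ s0 + (i0 + f) * ℓ := by gcongr; omega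
      have h3 := ih (h1.trans h)
      have h4 := hb (i0 + f) (by rw [add_assoc]; exact h)
      rw [hadd _ _ _ h2 h1]
      rw [← add_assoc i0 f 1]
      push_cast
      have e1 : ((((Ico (s0 + i0 * ℓ) (s0 + (i0 + f) * ℓ)).filter P).card : ℝ) +
          (((Ico (s0 + (i0 + f) * ℓ) (s0 + (i0 + f + 1) * ℓ)).filter P).card : ℝ)) -
          ((f + 1) * ℓ) * V =
          ((((Ico (s0 + i0 * ℓ) (s0 + (i0 + f) * ℓ)).filter P).card : ℝ) - (f * ℓ) * V) +
          ((((Ico (s0 + (i0 + f) * ℓ) (s0 + (i0 + f + 1) * ℓ)).filter P).card : ℝ) - ℓ * V) := by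
        ring
      rw [e1]
      refine (abs_add_le _ _).trans ?_
      have e2 : ε * ((f + 1) * ℓ) = ε * (f * ℓ) + ε * ℓ := by ring
      rw [e2]
      exact add_le_add h3 h4
  by_cases h2ℓ : N ≤ 2 * ℓ
  · have h1 := hle s (s + N)
    rw [Nat.add_sub_cancel_left] at h1
    have h1R : (((Ico s (s + N)).filter P).card : ℝ) ≤ N := by exact_mod_cast h1
    have h2 : (0 : ℝ) ≤ (((Ico s (s + N)).filter P).card : ℝ) := by positivity
    have h3 : (N : ℝ) ≤ 2 * ℓ := by exact_mod_cast h2ℓ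
    have hNR : (0 : ℝ) ≤ N := by positivity
    have h4 : (N : ℝ) * V ≤ N := mul_le_of_le_one_right hNR hV1
    have h5 : 0 ≤ (N : ℝ) * V := by positivity
    have h6 : 0 ≤ ε * N := by positivity
    rw [abs_le]
    constructor <;> linarith
  · push Not at h2ℓ
    -- the full blocks
    obtain ⟨i0, hi0, hi0'⟩ : ∃ i0 : ℕ, s ≤ s0 + i0 * ℓ ∧ s0 + i0 * ℓ < s + ℓ := by
      refine ⟨(s - s0 + (ℓ - 1)) / ℓ, ?_, ?_⟩
      · have h1 := Nat.div_add_mod (s - s0 + (ℓ - 1)) ℓ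
        have h2 := Nat.mod_lt (s - s0 + (ℓ - 1)) (by omega : 0 < ℓ)
        rw [mul_comm ℓ] at h1
        omega
      · have h1 := Nat.div_mul_le_self (s - s0 + (ℓ - 1)) ℓ
        omega
    obtain ⟨i1, hi1, hi1'⟩ : ∃ i1 : ℕ, s0 + i1 * ℓ ≤ s + N ∧ s + N < s0 + i1 * ℓ + ℓ := by
      refine ⟨(s + N - s0) / ℓ, ?_, ?_⟩
      · have h1 := Nat.div_mul_le_self (s + N - s0) ℓ
        omega
      · have h1 := Nat.div_add_mod (s + N - s0) ℓ
        have h2 := Nat.mod_lt (s + N - s0) (by omega : 0 < ℓ)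
        rw [mul_comm ℓ] at h1
        omega
    have hi01 : i0 ≤ i1 := by
      by_contra hcon
      push Not at hcon
      have : (i1 + 1) * ℓ ≤ i0 * ℓ := Nat.mul_le_mul_right _ hcon
      rw [Nat.succ_mul] at this
      omega
    obtain ⟨f, rfl⟩ := Nat.exists_eq_add_of_le hi01
    have hfull := hblocks i0 f (hi1.trans hN)
    have hmul : (i0 + f) * ℓ = i0 * ℓ + f * ℓ := by ring
    have hsplit : ((Ico s (s + N)).filter P).card = ((Ico s (s0 + i0 * ℓ)).filter P).card +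
        (((Ico (s0 + i0 * ℓ) (s0 + (i0 + f) * ℓ)).filter P).card +
          ((Ico (s0 + (i0 + f) * ℓ) (s + N)).filter P).card) := by
      rw [hadd s (s0 + i0 * ℓ) (s + N) hi0 (by omega),
        hadd (s0 + i0 * ℓ) (s0 + (i0 + f) * ℓ) (s + N) (by omega) hi1]
    have hA := hle s (s0 + i0 * ℓ)
    have hC := hle (s0 + (i0 + f) * ℓ) (s + N)
    have hg : ((Ico s (s0 + i0 * ℓ)).filter P).card +
        ((Ico (s0 + (i0 + f) * ℓ) (s + N)).filter P).card + f * ℓ ≤ N := by omega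
    have hg2 : N ≤ f * ℓ + 2 * ℓ := by omega
    have hgR : ((((Ico s (s0 + i0 * ℓ)).filter P).card : ℝ) +
        ((Ico (s0 + (i0 + f) * ℓ) (s + N)).filter P).card) + f * ℓ ≤ N := by exact_mod_cast hg
    have hg2R : (N : ℝ) ≤ f * ℓ + 2 * ℓ := by exact_mod_cast hg2
    have hA0 : (0 : ℝ) ≤ (((Ico s (s0 + i0 * ℓ)).filter P).card : ℝ) := by positivity
    have hC0 : (0 : ℝ) ≤ (((Ico (s0 + (i0 + f) * ℓ) (s + N)).filter P).card : ℝ) := by positivity
    rw [hsplit]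
    push_cast
    have hfN : (f * ℓ : ℝ) ≤ N := by linarith
    have h7 : ε * (f * ℓ) ≤ ε * N := mul_le_mul_of_nonneg_left hfN hε
    have h8 := abs_le.1 hfull
    have h9 : ((N : ℝ) - f * ℓ) * V ≤ 2 * ℓ := by
      have h10 : ((N : ℝ) - f * ℓ) * V ≤ ((N : ℝ) - f * ℓ) * 1 :=
        mul_le_mul_of_nonneg_left hV1 (by linarith)
      linarith
    have h11 : 0 ≤ ((N : ℝ) - f * ℓ) * V := mul_nonneg (by linarith) hV0
    rw [abs_le]
    constructor <;> nlinarith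

open Classical in
theorem smb : S_SMB := by
  intro r ε _ hε
  obtain ⟨K, D, hD, hbox⟩ := smbBox r ε hε
  refine ⟨K, ((smbL r K).card : ℝ) / D ^ 2, by positivity, ?_⟩
  intro I z s0 N1 ℓ η hℓ hs0 hη hyp
  have hℓR : (1 : ℝ) ≤ ℓ := by exact_mod_cast hℓ
  set m := (N1 - s0) / ℓ with hm
  have hmi : ∀ i, s0 + (i + 1) * ℓ ≤ N1 ↔ i < m := by
    intro i
    rw [hm, Nat.lt_iff_add_one_le, Nat.le_div_iff_mul_le (by omega)]
    omega
  have hsub : I.filter (fun a => ¬ EqB ε (2 * ℓ) s0 N1 (z a)) ⊆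
      (range m ×ˢ smbL r K).biUnion (fun p => I.filter (fun a =>
        D * (ℓ : ℝ) < ‖∑ n ∈ Ico (s0 + p.1 * ℓ) (s0 + (p.1 + 1) * ℓ),
          e (∑ j : Fin r, (p.2 j : ℝ) * z a n j)‖)) := by
    intro a ha
    rw [mem_filter] at ha
    rw [mem_biUnion]
    by_contra hcon
    push Not at hcon
    apply ha.2
    intro s N u v hs hN hu huv hv
    have hV0 : 0 ≤ ∏ j, (v j - u j) := prod_nonneg fun j _ => sub_nonneg.2 (huv j)
    have hV1 : ∏ j, (v j - u j) ≤ 1 :=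
      prod_le_one (fun j _ => sub_nonneg.2 (huv j)) fun j _ => by linarith [hu j, hv j]
    have hwin := smbWin (fun n => ∀ j, u j ≤ Int.fract (z a n j) ∧ Int.fract (z a n j) < v j)
      hV0 hV1 hε.le (s0 := s0) (N1 := N1) hℓ (by
        intro i hi
        have hcard : (Ico (s0 + i * ℓ) (s0 + (i + 1) * ℓ)).card = ℓ := by
          rw [Nat.card_Ico, Nat.succ_mul]
          omega
        have h1 := hbox (Ico (s0 + i * ℓ) (s0 + (i + 1) * ℓ)) (z a) (by
          rw [← card_pos, hcard]; omega) (fun h h2 h3 => by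
            rw [hcard]
            have h4 := hcon (i, h) (mem_product.2 ⟨mem_range.2 ((hmi i).1 hi),
              smbL_mem.2 ⟨h2, h3⟩⟩)
            rw [mem_filter, not_and, not_lt] at h4
            exact h4 ha.1) u v hu huv hv
        rw [hcard] at h1
        exact h1) hs hN
    have hconv : ((range N).filter (fun n => ∀ j, u j ≤ Int.fract (z a (s + n) j) ∧
        Int.fract (z a (s + n) j) < v j)).card = ((Ico s (s + N)).filter (fun n => ∀ j,
        u j ≤ Int.fract (z a n j) ∧ Int.fract (z a n j) < v j)).card := by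
      refine Finset.card_nbij' (fun n => s + n) (fun n => n - s) ?_ ?_ ?_ ?_
      · intro n hn
        simp only [coe_filter, mem_range, mem_Ico, Set.mem_ofPred_eq] at hn ⊢
        exact ⟨by omega, hn.2⟩
      · intro n hn
        simp only [coe_filter, mem_range, mem_Ico, Set.mem_ofPred_eq] at hn ⊢
        refine ⟨by omega, ?_⟩
        have h1 : s + (n - s) = n := by omega
        rw [h1]
        exact hn.2
      · intro n _
        simp
      · intro n hn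
        simp only [coe_filter, mem_Ico, Set.mem_ofPred_eq] at hn
        simp only
        omega
    rw [hconv]
    exact hwin
  have h1 : ((I.filter (fun a => ¬ EqB ε (2 * ℓ) s0 N1 (z a))).card : ℝ) ≤
      ∑ p ∈ range m ×ˢ smbL r K, (I.card : ℝ) / D ^ 2 * (1 / (ℓ : ℝ) + η) := by
    refine le_trans (Nat.cast_le.2 ((card_le_card hsub).trans card_biUnion_le)) ?_
    rw [Nat.cast_sum]
    refine sum_le_sum fun p hp => ?_
    rw [mem_product, mem_range] at hp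
    exact smbEvent hp.2 hD hℓ hη hyp ((hmi p.1).2 hp.1)
  refine h1.trans ?_
  rw [sum_const, card_product, card_range, nsmul_eq_mul]
  have h2 : (m : ℝ) ≤ (N1 : ℝ) / ℓ + 1 := by
    have h3 : (m : ℝ) ≤ ((N1 - s0 : ℕ) : ℝ) / ℓ := by rw [hm]; exact Nat.cast_div_le
    have h4 : ((N1 - s0 : ℕ) : ℝ) / ℓ ≤ (N1 : ℝ) / ℓ := by
      refine div_le_div_of_nonneg_right ?_ (by positivity)
      exact_mod_cast Nat.sub_le _ _
    linarith
  have h5 : 0 ≤ ((smbL r K).card : ℝ) / D ^ 2 * (I.card : ℝ) * (1 / (ℓ : ℝ) + η) := by positivity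
  calc ((m * (smbL r K).card : ℕ) : ℝ) * ((I.card : ℝ) / D ^ 2 * (1 / (ℓ : ℝ) + η))
      = (m : ℝ) * (((smbL r K).card : ℝ) / D ^ 2 * (I.card : ℝ) * (1 / (ℓ : ℝ) + η)) := by
        push_cast; ring
    _ ≤ ((N1 : ℝ) / ℓ + 1) * (((smbL r K).card : ℝ) / D ^ 2 * (I.card : ℝ) * (1 / (ℓ : ℝ) + η)) :=
        mul_le_mul_of_nonneg_right h2 h5
    _ = _ := by ring

end Pool.Agent.N586.GF
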