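import Pool.Agent.N586.GF.SrOne

/-!
# Project SR, second part: all small tuples at the same time
-/

set_option autoImplicit false

namespace Pool.Agent.N586.GF

open Finset Real Filter
open Pool.Agent.Y933.KD (e wd)
open Pool.Agent.N586.RT (logpow log_ge)
open Pool.Agent.N586.JT (S_BT)

/-- the first digits of a word -/
lemma wd_div {b w k n : ℕ} (hb : 1 ≤ b) (hwk : w ≤ k) (y : ℝ) :
    wd b k n y / b ^ (k - w) = wd b w n y := by
  have hb0 : (0 : ℝ) < (b : ℝ) ^ (k - w) := by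
    have : (0 : ℝ) < b := by exact_mod_cast hb
    positivity
  unfold wd
  rw [← Nat.floor_div_natCast]
  congr 1
  push_cast
  have h1 : (b : ℝ) ^ k = (b : ℝ) ^ w * (b : ℝ) ^ (k - w) := by
    rw [← pow_add]
    congr 1
    omega
  rw [h1]
  field_simp

/-- long words are rare -/
lemma NwW.all {r b w n0 : ℕ} {L ε E : ℝ} {y : Fin r → ℝ} (hb : 2 ≤ b) (hw : 1 ≤ w)
    (h : NwW b w n0 L (ε / 2) E y) (hε : 1 / ((b : ℝ) ^ w) ^ r ≤ ε / 2) (hε0 : 0 ≤ ε)
    (w' : ℕ) : NwW b w' n0 L ε E y := by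
  classical
  intro k s N D hk _ hD hs hsN
  have hN : (0 : ℝ) ≤ N := Nat.cast_nonneg N
  have hbR : (2 : ℝ) ≤ b := by exact_mod_cast hb
  rcases Nat.lt_or_ge w k with hwk | hkw
  · have h1 := h w s N (fun j => D j / b ^ (k - w)) hw le_rfl (fun j => by
      rw [Nat.div_lt_iff_lt_mul (by positivity), ← pow_add]
      have h2 : w + (k - w) = k := by omega
      rw [h2]
      exact hD j) hs hsN
    have hsub : (Finset.range N).filter (fun i => ∀ j, wd b k (s + i) (y j) = D j) ⊆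
        (Finset.range N).filter (fun i => ∀ j, wd b w (s + i) (y j) = D j / b ^ (k - w)) := by
      intro i hi
      rw [Finset.mem_filter] at hi ⊢
      refine ⟨hi.1, fun j => ?_⟩
      rw [← hi.2 j, wd_div (by omega) hwk.le]
    have h2 : (((Finset.range N).filter (fun i => ∀ j, wd b k (s + i) (y j) = D j)).card : ℝ) ≤
        (((Finset.range N).filter (fun i => ∀ j, wd b w (s + i) (y j) =
          D j / b ^ (k - w))).card : ℝ) := by
      exact_mod_cast Finset.card_le_card hsub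
    have h3 := (abs_le.1 h1).2
    have h4 : (N : ℝ) / ((b : ℝ) ^ w) ^ r ≤ ε / 2 * N := by
      calc (N : ℝ) / ((b : ℝ) ^ w) ^ r = 1 / ((b : ℝ) ^ w) ^ r * N := by ring
        _ ≤ ε / 2 * N := mul_le_mul_of_nonneg_right hε hN
    have h5 : (N : ℝ) / ((b : ℝ) ^ k) ^ r ≤ (N : ℝ) / ((b : ℝ) ^ w) ^ r := by
      apply div_le_div_of_nonneg_left hN (by positivity)
      exact pow_le_pow_left₀ (by positivity) (pow_le_pow_right₀ (by linarith) hwk.le) r
    have h6 : (0 : ℝ) ≤ (N : ℝ) / ((b : ℝ) ^ k) ^ r := by positivity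
    have h7 : (0 : ℝ) ≤ (((Finset.range N).filter
        (fun i => ∀ j, wd b k (s + i) (y j) = D j)).card : ℝ) := Nat.cast_nonneg _
    have hE : 0 ≤ ε / 2 * N + E := (abs_nonneg _).trans h1
    have hE2 : -(ε * N + E) ≤ -((N : ℝ) / ((b : ℝ) ^ k) ^ r) := by
      have h8 := (abs_le.1 h1).1
      have h9 : 0 ≤ E := by
        have h10 := h w s 0 (fun j => D j / b ^ (k - w)) hw le_rfl (fun j => by
          rw [Nat.div_lt_iff_lt_mul (by positivity), ← pow_add]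
          have h2 : w + (k - w) = k := by omega
          rw [h2]
          exact hD j) hs (by push_cast; linarith)
        have := (abs_nonneg _).trans h10
        simpa using this
      nlinarith
    rw [abs_le]
    constructor <;> linarith
  · refine (h k s N D hk hkw hD hs hsN).trans ?_
    nlinarith

lemma exists_width (r b : ℕ) (hr : 1 ≤ r) (hb : 2 ≤ b) (ε : ℝ) (hε : 0 < ε) :
    ∃ w : ℕ, 1 ≤ w ∧ 1 / ((b : ℝ) ^ w) ^ r ≤ ε := by
  obtain ⟨w, hw⟩ := exists_pow_lt_of_lt_one hε (by norm_num : (1 / 2 : ℝ) < 1)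
  have hbR : (2 : ℝ) ≤ b := by exact_mod_cast hb
  refine ⟨w + 1, by omega, ?_⟩
  have h1 : (2 : ℝ) ^ w ≤ ((b : ℝ) ^ (w + 1)) ^ r := by
    calc (2 : ℝ) ^ w ≤ (b : ℝ) ^ w := pow_le_pow_left₀ (by norm_num) hbR w
      _ ≤ (b : ℝ) ^ (w + 1) := pow_le_pow_right₀ (by linarith) (by omega)
      _ ≤ ((b : ℝ) ^ (w + 1)) ^ r := le_self_pow₀ (one_le_pow₀ (by linarith)) (by omega)
  calc 1 / ((b : ℝ) ^ (w + 1)) ^ r ≤ 1 / (2 : ℝ) ^ w :=
        one_div_le_one_div_of_le (by positivity) h1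
    _ = (1 / 2 : ℝ) ^ w := by rw [one_div_pow]
    _ ≤ ε := hw.le

/-- the data of a tuple -/
def SmS {r s : ℕ} (V : ℝ) (t : Fin s → ℕ) (p : Fin r → Fin s → ℤ) (nn : Fin r → ℕ) : Prop :=
  Function.Injective t ∧ (∀ i, (t i : ℝ) ≤ V) ∧ (∀ j i, |(p j i : ℝ)| ≤ V) ∧ (∀ j, 1 ≤ nn j) ∧
    (∀ j, (nn j : ℝ) ≤ V) ∧ LinearIndependent ℤ p

/-- all windows between `C0 * l` and `L`, all bases up to `B` -/
def NwA {r : ℕ} (B n0 : ℕ) (L ε E : ℝ) (y : Fin r → ℝ) : Prop :=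
  ∀ b w : ℕ, 2 ≤ b → b ≤ B → NwW b w n0 L ε E y

open Classical in
theorem sr2_main (hS : S_SUM2) (hC : S_CR2) (hBT : S_BT) (σ κ δ β : ℝ)
    (hσ : ∀ n : ℕ, σ ≠ n) (hκ : 0 ≤ κ) (hδ : 0 < δ) (hβ : 0 < β)
    (hδβ : 2 * δ + β < 1) (r s B : ℕ) (hr : 1 ≤ r) (hs : 1 ≤ s) (ε : ℝ) (hε : 0 < ε) :
    ∃ C0 : ℝ, 0 < C0 ∧ ∃ M0 : ℕ, ∀ M : ℕ, M0 ≤ M → ∀ lam : ℝ, (M : ℝ) ^ (-κ) ≤ |lam| →
      |lam| ≤ (M : ℝ) ^ κ → ∀ M' : ℕ, (M : ℝ) ^ (4 / 5 : ℝ) ≤ M' → M' ≤ M →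
      (((Finset.Icc (M + 1) (M + M')).filter (fun m : ℕ => ¬ ∀ (t : Fin s → ℕ)
        (p : Fin r → Fin s → ℤ) (nn : Fin r → ℕ), SmS (exp ((log M) ^ β)) t p nn →
        NwA B ⌈C0 * log M⌉₊ ((log M) ^ (1 + δ)) ε (ε * log M)
        (fun j => lam / nn j * ∑ i, (p j i : ℝ) * ((m : ℝ) + t i) ^ σ))).card : ℝ) ≤
        M' * Real.exp (-(log M) ^ β) := by
  set γ : ℝ := (1 - 2 * δ - β) / 8 with hγ
  have hγ0 : 0 < γ := by rw [hγ]; linarith
  obtain ⟨C0, hC0⟩ : ∃ C0 : ℝ, C0 = ((⌈κ + |σ|⌉₊ + s + 5 : ℕ) : ℝ) / log 2 := ⟨_, rfl⟩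
  have hlog2 : 0 < log 2 := Real.log_pos (by norm_num)
  have hC00 : 0 < C0 := by rw [hC0]; positivity
  refine ⟨C0, hC00, ?_⟩
  -- one base
  have hone : ∀ b : ℕ, ∃ (c : ℝ) (M0 : ℕ), 0 < c ∧ (2 ≤ b → ∀ M : ℕ, M0 ≤ M → ∀ lam : ℝ,
      (M : ℝ) ^ (-κ) ≤ |lam| → |lam| ≤ (M : ℝ) ^ κ → ∀ M' : ℕ, (M : ℝ) ^ (4 / 5 : ℝ) ≤ M' →
      M' ≤ M → ∀ (t : Fin s → ℕ) (p : Fin r → Fin s → ℤ) (nn : Fin r → ℕ),
      SmS (exp ((log M) ^ β)) t p nn →
      (((Finset.Icc (M + 1) (M + M')).filter (fun m : ℕ => ¬ ∀ w, NwW b w ⌈C0 * log M⌉₊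
        ((log M) ^ (1 + δ)) ε (ε * log M)
        (fun j => lam / nn j * ∑ i, (p j i : ℝ) * ((m : ℝ) + t i) ^ σ))).card : ℝ) ≤
        M' * ((log M) ^ (1 + δ) * Real.exp (-(c * (log M) ^ (β + γ))))) := by
    intro b
    by_cases hb : 2 ≤ b
    · obtain ⟨w, hw1, hw2⟩ := exists_width r b hr hb (ε / 2) (by positivity)
      obtain ⟨c, hc, M0, h⟩ := sr2_one hS hC hBT σ κ δ β γ C0 hσ hκ hδ hβ hγ0
        (by rw [hγ]; linarith) w r s b hr hs hb (ε / 2) (by positivity) hC0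
      refine ⟨c, M0, hc, fun _ M hM lam h1 h2 M' h3 h4 t p nn h5 => ?_⟩
      obtain ⟨h5a, h5b, h5c, h5d, h5e, h5f⟩ := h5
      refine le_trans (Nat.cast_le.2 (card_le_card ?_))
        (h M hM lam h1 h2 M' h3 h4 t p nn h5a h5b h5c h5d h5e h5f)
      intro m hm
      rw [Finset.mem_filter] at hm ⊢
      refine ⟨hm.1, fun h8 => hm.2 fun w' => ?_⟩
      have hlogM : 0 ≤ log (M : ℝ) := Real.log_natCast_nonneg M
      exact (h8.mono (E' := ε * log M) (by nlinarith)).all hb hw1 hw2 hε.le w'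
    · exact ⟨1, 0, one_pos, fun h => absurd h hb⟩
  choose c M0 hc0 hone using hone
  set SB : Finset ℕ := Finset.Icc 2 B with hSB
  -- a common constant
  obtain ⟨c1, hc1, hcb⟩ : ∃ c1 : ℝ, 0 < c1 ∧ ∀ b ∈ SB, c1 ≤ c b := by
    rcases SB.eq_empty_or_nonempty with h | h
    · exact ⟨1, one_pos, fun b hb => by rw [h] at hb; exact absurd hb (Finset.notMem_empty b)⟩
    · obtain ⟨b0, hb0, hb1⟩ := SB.exists_min_image c h
      exact ⟨c b0, hc0 b0, fun b hb => hb1 b hb⟩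
  have hMb : ∀ b ∈ SB, M0 b ≤ ∑ b ∈ SB, M0 b := fun b hb =>
    single_le_sum (f := M0) (fun i _ => Nat.zero_le _) hb
  set K0 : ℝ := log ((B : ℝ) + 1) with hK0
  have hK00 : 0 ≤ K0 := Real.log_nonneg (by have : (0 : ℝ) ≤ B := Nat.cast_nonneg _; linarith)
  obtain ⟨M2, hM2⟩ := eventually_atTop.1 ((((logpow (by linarith : β < β + γ)
    ((K0 + (2 * s + 2 * (s * r) + r) + (1 + δ) + 1) / c1)).and (log_ge 1)).and
    (eventually_ge_atTop 2)).and (logpow hβ 2))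
  have hll : ∀ᶠ M : ℕ in atTop, Real.log (Real.log M) ≤ (Real.log M) ^ β := by
    have hlog : Tendsto (fun N : ℕ => Real.log (N : ℝ)) atTop atTop :=
      Real.tendsto_log_atTop.comp tendsto_natCast_atTop_atTop
    have h1 := (isLittleO_log_rpow_atTop hβ).bound
      (by norm_num : (0 : ℝ) < 1)
    filter_upwards [hlog.eventually h1, log_ge 1] with M h2 h3
    rw [one_mul, Real.norm_eq_abs, Real.norm_eq_abs] at h2
    rw [abs_of_nonneg (Real.rpow_nonneg (by linarith) _)] at h2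
    exact (le_abs_self _).trans h2
  obtain ⟨M3, hM3⟩ := eventually_atTop.1 hll
  refine ⟨max (∑ b ∈ SB, M0 b) (max M2 M3), fun M hM lam hlam1 hlam2 M' hM'1 hM'2 => ?_⟩
  obtain ⟨⟨⟨hb, hL1⟩, hH2⟩, hv⟩ := hM2 M (le_of_max_le_left (le_of_max_le_right hM))
  have hcl := hM3 M (le_of_max_le_right (le_of_max_le_right hM))
  have hMR : (2 : ℝ) ≤ M := by exact_mod_cast hH2
  have hone' := fun b (hb : b ∈ SB) => hone b (Finset.mem_Icc.1 hb).1 M
    ((hMb b hb).trans (le_of_max_le_left hM)) lam hlam1 hlam2 M' hM'1 hM'2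
  obtain ⟨L, hL⟩ : ∃ L : ℝ, L = Real.log M := ⟨_, rfl⟩
  rw [← hL] at hb hL1 hcl hv hone' ⊢
  rw [Real.rpow_zero, mul_one] at hv
  have hL0 : 0 < L := by linarith
  obtain ⟨V, hV⟩ : ∃ V : ℝ, V = Real.exp (L ^ β) := ⟨_, rfl⟩
  rw [← hV] at hone' ⊢
  have hV3 : (3 : ℝ) ≤ V := by
    rw [hV]
    have := Real.add_one_le_exp (L ^ β)
    linarith
  have hV0 : 0 < V := by linarith
  set T : ℝ := L ^ (1 + δ) with hT'
  have hT1 : 1 ≤ T := Real.one_le_rpow hL1 (by positivity)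
  set R : ℝ := M' * (T * Real.exp (-(c1 * L ^ (β + γ)))) with hR
  have hR0 : 0 ≤ R := by positivity
  have hLβγ : 0 ≤ L ^ (β + γ) := by positivity
  set S : Finset (((Fin s → ℕ) × (Fin r → Fin s → ℤ)) × (Fin r → ℕ) × ℕ) :=
    ((Fintype.piFinset fun _ => Finset.range (⌊V⌋₊ + 1)) ×ˢ
      (Fintype.piFinset fun _ => Fintype.piFinset fun _ => Finset.Icc (-⌊V⌋) ⌊V⌋)) ×ˢ
      ((Fintype.piFinset fun _ => Finset.Icc 1 ⌊V⌋₊) ×ˢ SB) with hS'
  set bad : ((Fin s → ℕ) × (Fin r → Fin s → ℤ)) × (Fin r → ℕ) × ℕ → Finset ℕ := fun z =>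
    (Finset.Icc (M + 1) (M + M')).filter (fun m => SmS V z.1.1 z.1.2 z.2.1 ∧
      ¬ ∀ w, NwW z.2.2 w ⌈C0 * L⌉₊ T ε (ε * L)
        (fun j => lam / z.2.1 j * ∑ i, (z.1.2 j i : ℝ) * ((m : ℝ) + z.1.1 i) ^ σ)) with hbad
  have hsub : (Finset.Icc (M + 1) (M + M')).filter (fun m : ℕ => ¬ ∀ (t : Fin s → ℕ)
      (p : Fin r → Fin s → ℤ) (nn : Fin r → ℕ), SmS V t p nn →
        NwA B ⌈C0 * L⌉₊ T ε (ε * L)
        (fun j => lam / nn j * ∑ i, (p j i : ℝ) * ((m : ℝ) + t i) ^ σ)) ⊆ S.biUnion bad := by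
    intro m hm
    rw [Finset.mem_filter] at hm
    obtain ⟨hm1, hm2⟩ := hm
    unfold NwA at hm2
    simp only [not_forall] at hm2
    obtain ⟨t, p, nn, hsml, b, w, hb2, hbB, hno⟩ := hm2
    rw [Finset.mem_biUnion]
    refine ⟨((t, p), (nn, b)), ?_, ?_⟩
    · rw [hS', Finset.mem_product, Finset.mem_product, Finset.mem_product]
      refine ⟨⟨?_, ?_⟩, ?_, ?_⟩
      · rw [Fintype.mem_piFinset]
        intro i
        rw [Finset.mem_range]
        exact Nat.lt_succ_of_le (Nat.le_floor (hsml.2.1 i))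
      · rw [Fintype.mem_piFinset]
        intro j
        rw [Fintype.mem_piFinset]
        intro i
        have h1 := abs_le.1 (hsml.2.2.1 j i)
        rw [Finset.mem_Icc]
        constructor
        · rw [neg_le]
          apply Int.le_floor.2
          push_cast
          linarith [h1.1]
        · exact Int.le_floor.2 h1.2
      · rw [Fintype.mem_piFinset]
        intro j
        rw [Finset.mem_Icc]
        exact ⟨hsml.2.2.2.1 j, Nat.le_floor (hsml.2.2.2.2.1 j)⟩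
      · exact Finset.mem_Icc.2 ⟨hb2, hbB⟩
    · rw [hbad]
      simp only [Finset.mem_filter]
      exact ⟨hm1, hsml, fun hcon => hno (hcon w)⟩
  have hbadc : ∀ z ∈ S, ((bad z).card : ℝ) ≤ R := by
    intro z hz
    by_cases hsm : SmS V z.1.1 z.1.2 z.2.1
    · have hzb : z.2.2 ∈ SB := by
        rw [hS', Finset.mem_product, Finset.mem_product, Finset.mem_product] at hz
        exact hz.2.2
      have key := hone' z.2.2 hzb z.1.1 z.1.2 z.2.1 hsm
      refine le_trans (Nat.cast_le.2 (Finset.card_le_card fun m hm => ?_)) (key.trans ?_)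
      · rw [hbad] at hm
        simp only [Finset.mem_filter] at hm
        rw [Finset.mem_filter]
        exact ⟨hm.1, hm.2.2⟩
      · rw [hR]
        have h1 : Real.exp (-(c z.2.2 * L ^ (β + γ))) ≤ Real.exp (-(c1 * L ^ (β + γ))) := by
          apply Real.exp_le_exp.2
          have := mul_le_mul_of_nonneg_right (hcb z.2.2 hzb) hLβγ
          linarith
        gcongr
    · have h1 : bad z = ∅ := by
        rw [hbad]
        simp only
        rw [Finset.filter_eq_empty_iff]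
        rintro m _ ⟨h2, _⟩
        exact hsm h2
      rw [h1, Finset.card_empty, Nat.cast_zero]
      exact hR0
  have hScard : ((S.card : ℕ) : ℝ) ≤ (B + 1) * V ^ (2 * s + 2 * (s * r) + r) := by
    rw [hS', Finset.card_product, Finset.card_product, Finset.card_product,
      Fintype.card_piFinset_const, Fintype.card_piFinset_const, Fintype.card_piFinset_const,
      Fintype.card_piFinset_const, Nat.card_Icc, Nat.add_sub_cancel, Finset.card_range,
      Int.card_Icc, hSB, Nat.card_Icc]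
    have h2 := Nat.floor_le hV0.le
    have h3 := Int.floor_le V
    have h0 : 0 ≤ ⌊V⌋ := Int.floor_nonneg.2 hV0.le
    have h4 : (((⌊V⌋ + 1 - -⌊V⌋).toNat : ℕ) : ℝ) ≤ V ^ 2 := by
      have h5 : (((⌊V⌋ + 1 - -⌊V⌋).toNat : ℕ) : ℤ) = 2 * ⌊V⌋ + 1 := by
        rw [Int.toNat_of_nonneg (by omega)]
        ring
      have h6 : (((⌊V⌋ + 1 - -⌊V⌋).toNat : ℕ) : ℝ) = 2 * (⌊V⌋ : ℝ) + 1 := by
        have : ((((⌊V⌋ + 1 - -⌊V⌋).toNat : ℕ) : ℤ) : ℝ) = ((2 * ⌊V⌋ + 1 : ℤ) : ℝ) := by rw [h5]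
        rw [Int.cast_natCast] at this
        rw [this]
        push_cast
        ring
      rw [h6]
      nlinarith
    have h5 : (((⌊V⌋₊ + 1 : ℕ)) : ℝ) ≤ V ^ 2 := by
      push_cast
      nlinarith
    have h6 : (((B + 1 - 2 : ℕ)) : ℝ) ≤ B + 1 := by
      have : B + 1 - 2 ≤ B + 1 := by omega
      exact_mod_cast this
    push_cast
    calc (((⌊V⌋₊ : ℝ) + 1) ^ s * (((((⌊V⌋ + 1 - -⌊V⌋).toNat : ℕ) : ℝ) ^ s) ^ r)) *
          ((⌊V⌋₊ : ℝ) ^ r * (((B + 1 - 2 : ℕ)) : ℝ))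
        ≤ ((V ^ 2) ^ s * (((V ^ 2) ^ s) ^ r)) * (V ^ r * (B + 1)) := by
          push_cast at h5
          gcongr
      _ = _ := by ring
  have hfin : (B + 1) * V ^ (2 * s + 2 * (s * r) + r) * (T * Real.exp (-(c1 * L ^ (β + γ)))) ≤
      Real.exp (-L ^ β) := by
    have e1 : V ^ (2 * s + 2 * (s * r) + r) = Real.exp ((2 * s + 2 * (s * r) + r) * L ^ β) := by
      rw [hV, ← Real.exp_nat_mul]
      congr 1
      push_cast
      ring
    have e2 : T = Real.exp ((1 + δ) * Real.log L) := by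
      rw [hT', Real.rpow_def_of_pos hL0]
      congr 1
      ring
    have e3 : (B : ℝ) + 1 = Real.exp K0 := by
      rw [hK0, Real.exp_log (by positivity)]
    rw [e1, e2, e3, ← Real.exp_add, ← Real.exp_add, ← Real.exp_add]
    apply Real.exp_le_exp.2
    have h1 : (1 + δ) * Real.log L ≤ (1 + δ) * L ^ β := by gcongr
    have h2 : (K0 + (2 * s + 2 * (s * r) + r) + (1 + δ) + 1) * L ^ β ≤ c1 * L ^ (β + γ) := by
      have h3 : (K0 + (2 * s + 2 * (s * r) + r) + (1 + δ) + 1) * L ^ β =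
          c1 * ((K0 + (2 * s + 2 * (s * r) + r) + (1 + δ) + 1) / c1 * L ^ β) := by
        field_simp
      rw [h3]
      exact mul_le_mul_of_nonneg_left hb hc1.le
    have h4 : (1 : ℝ) ≤ L ^ β := Real.one_le_rpow hL1 hβ.le
    have h5 : K0 ≤ K0 * L ^ β := le_mul_of_one_le_right hK00 h4
    linarith
  calc _ ≤ ((S.biUnion bad).card : ℝ) := by exact_mod_cast Finset.card_le_card hsub
    _ ≤ ∑ z ∈ S, ((bad z).card : ℝ) := by exact_mod_cast Finset.card_biUnion_le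
    _ ≤ ∑ _z ∈ S, R := sum_le_sum hbadc
    _ = (S.card : ℝ) * R := by rw [sum_const, nsmul_eq_mul]
    _ ≤ ((B + 1) * V ^ (2 * s + 2 * (s * r) + r)) * R := by gcongr
    _ = M' * ((B + 1) * V ^ (2 * s + 2 * (s * r) + r) *
        (T * Real.exp (-(c1 * L ^ (β + γ))))) := by rw [hR]; ring
    _ ≤ M' * Real.exp (-L ^ β) := by gcongr

end Pool.Agent.N586.GF
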