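import Pool.Agent.N586.GF.FamS

/-!
# Project SR, second part: one tuple, exceptional sets of size `exp (-(log M) ^ β)`
-/

set_option autoImplicit false

namespace Pool.Agent.N586.GF

open Finset Real Filter
open Pool.Agent.Y933.KD (e wd)
open Pool.Agent.Y933.KD.VdC (ev_le)
open Pool.Agent.N586.RT (logpow log_ge)
open Pool.Agent.N586.KO (MM)
open Pool.Agent.N586.JT (S_BT)

lemma NwW.mono {r b w n0 : ℕ} {L ε E E' : ℝ} {y : Fin r → ℝ} (h : NwW b w n0 L ε E y)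
    (hE : E ≤ E') : NwW b w n0 L ε E' y := by
  intro k s N D hk hkw hD hs hsN
  exact (h k s N D hk hkw hD hs hsN).trans (by linarith)

/-- the combination of a tuple of combinations -/
lemma comb_eq {r s : ℕ} (h : Fin r → ℤ) (p : Fin r → Fin s → ℤ) (nn : Fin r → ℕ)
    (hnn : ∀ j, 1 ≤ nn j) (lam : ℝ) (X : Fin s → ℝ) :
    ∑ j, (h j : ℝ) * (lam / nn j * ∑ i, (p j i : ℝ) * X i) =
      lam / (∏ j, (nn j : ℝ)) *
        ∑ i, ((∑ j, h j * (∏ j' ∈ univ.erase j, (nn j' : ℤ)) * p j i : ℤ) : ℝ) * X i := by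
  have hnn0 : ∀ j, (nn j : ℝ) ≠ 0 := fun j => by
    have : (0 : ℝ) < nn j := by exact_mod_cast hnn j
    exact this.ne'
  have h1 : ∀ j, lam / (nn j : ℝ) = lam / (∏ j, (nn j : ℝ)) * ∏ j' ∈ univ.erase j, (nn j' : ℝ) := by
    intro j
    have h2 : ∏ j, (nn j : ℝ) = nn j * ∏ j' ∈ univ.erase j, (nn j' : ℝ) :=
      (mul_prod_erase univ (fun j => (nn j : ℝ)) (mem_univ j)).symm
    have h3 : ∏ j' ∈ univ.erase j, (nn j' : ℝ) ≠ 0 := prod_ne_zero_iff.2 fun j' _ => hnn0 j'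
    rw [h2]
    have := hnn0 j
    field_simp
  simp only [h1, mul_sum]
  rw [sum_comm]
  refine sum_congr rfl fun i _ => ?_
  push_cast
  rw [sum_mul, mul_sum]
  refine sum_congr rfl fun j _ => ?_
  ring

lemma comb_ne {r s : ℕ} {h : Fin r → ℤ} {p : Fin r → Fin s → ℤ} {nn : Fin r → ℕ}
    (hnn : ∀ j, 1 ≤ nn j) (hp : LinearIndependent ℤ p) (hh : h ≠ 0) :
    (fun i => ∑ j, h j * (∏ j' ∈ univ.erase j, (nn j' : ℤ)) * p j i) ≠ 0 := by
  intro h0
  apply hh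
  have h1 := Fintype.linearIndependent_iff.1 hp
    (fun j => h j * ∏ j' ∈ univ.erase j, (nn j' : ℤ)) (by
      funext i
      have h2 := congrFun h0 i
      simp only [Pi.zero_apply] at h2
      rw [Finset.sum_apply, Pi.zero_apply, ← h2]
      refine sum_congr rfl fun j _ => ?_
      rw [Pi.smul_apply, smul_eq_mul])
  funext j
  have h3 : ∏ j' ∈ univ.erase j, (nn j' : ℤ) ≠ 0 := prod_ne_zero_iff.2 fun j' _ => by
    have := hnn j'
    omega
  exact (mul_eq_zero.1 (h1 j)).resolve_right h3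

lemma comb_le {r s : ℕ} {h : Fin r → ℤ} {p : Fin r → Fin s → ℤ} {nn : Fin r → ℕ} {V W : ℝ}
    (hV : 1 ≤ V) (hh : ∀ j, |(h j : ℝ)| ≤ W) (hpp : ∀ j i, |(p j i : ℝ)| ≤ V)
    (hnn2 : ∀ j, (nn j : ℝ) ≤ V) (i : Fin s) :
    |((∑ j, h j * (∏ j' ∈ univ.erase j, (nn j' : ℤ)) * p j i : ℤ) : ℝ)| ≤ r * (W * V ^ r * V) := by
  push_cast
  refine (abs_sum_le_sum_abs _ _).trans ?_
  calc ∑ j, |(h j : ℝ) * (∏ j' ∈ univ.erase j, (nn j' : ℝ)) * (p j i : ℝ)|
      ≤ ∑ _j : Fin r, W * V ^ r * V := by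
        refine sum_le_sum fun j _ => ?_
        have hW : 0 ≤ W := (abs_nonneg _).trans (hh j)
        rw [abs_mul, abs_mul]
        have h1 : |∏ j' ∈ univ.erase j, (nn j' : ℝ)| ≤ V ^ r := by
          rw [abs_of_nonneg (prod_nonneg fun _ _ => Nat.cast_nonneg _)]
          calc ∏ j' ∈ univ.erase j, (nn j' : ℝ) ≤ ∏ _j' ∈ univ.erase j, V :=
                prod_le_prod (fun _ _ => Nat.cast_nonneg _) fun j' _ => hnn2 j'
            _ = V ^ (univ.erase j).card := by rw [prod_const]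
            _ ≤ V ^ r := by
                apply pow_le_pow_right₀ hV
                refine (card_erase_le).trans ?_
                rw [card_univ, Fintype.card_fin]
        have h2 := hh j
        have h3 := hpp j i
        have h4 : (0 : ℝ) ≤ V ^ r := by positivity
        exact mul_le_mul (mul_le_mul h2 h1 (abs_nonneg _) hW) h3 (abs_nonneg _) (by positivity)
    _ = r * (W * V ^ r * V) := by rw [sum_const, card_univ, Fintype.card_fin, nsmul_eq_mul]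

open Classical in
/-- one tuple and one base -/
theorem sr2_one (hS : S_SUM2) (hC : S_CR2) (hBT : S_BT) (σ κ δ β γ C0 : ℝ)
    (hσ : ∀ n : ℕ, σ ≠ n) (hκ : 0 ≤ κ) (hδ : 0 < δ) (hβ : 0 < β) (hγ0 : 0 < γ)
    (hδβ : 2 * (δ + γ) + (β + 2 * γ) < 1) (w r s b : ℕ) (hr : 1 ≤ r)
    (hs : 1 ≤ s) (hb : 2 ≤ b) (ε : ℝ) (hε : 0 < ε)
    (hC0 : C0 = ((⌈κ + |σ|⌉₊ + s + 5 : ℕ) : ℝ) / log 2) :
    ∃ c : ℝ, 0 < c ∧ ∃ M0 : ℕ, ∀ M : ℕ, M0 ≤ M → ∀ lam : ℝ, (M : ℝ) ^ (-κ) ≤ |lam| →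
      |lam| ≤ (M : ℝ) ^ κ → ∀ M' : ℕ, (M : ℝ) ^ (4 / 5 : ℝ) ≤ M' → M' ≤ M →
      ∀ (t : Fin s → ℕ) (p : Fin r → Fin s → ℤ) (nn : Fin r → ℕ), Function.Injective t →
      (∀ i, (t i : ℝ) ≤ exp ((log M) ^ β)) → (∀ j i, |(p j i : ℝ)| ≤ exp ((log M) ^ β)) →
      (∀ j, 1 ≤ nn j) → (∀ j, (nn j : ℝ) ≤ exp ((log M) ^ β)) → LinearIndependent ℤ p →
      (((Finset.Icc (M + 1) (M + M')).filter (fun m : ℕ => ¬ NwW b w ⌈C0 * log M⌉₊
        ((log M) ^ (1 + δ)) ε (ε * log M)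
        (fun j => lam / nn j * ∑ i, (p j i : ℝ) * ((m : ℝ) + t i) ^ σ))).card : ℝ) ≤
        M' * ((log M) ^ (1 + δ) * Real.exp (-(c * (log M) ^ (β + γ)))) := by
  have hβ3 : β + 2 * γ < 1 := by linarith
  obtain ⟨Cc, A, hCc, hA, q4, hcom⟩ := hC σ (β + 2 * γ) s hσ (by linarith) hβ3 hs
  obtain ⟨q2, h2⟩ := hS Cc A (δ + γ) (β + 2 * γ) 1 hCc hA (by linarith) (by linarith) hδβ
  obtain ⟨c, hc, τ0, hfam⟩ := fam hBT b w r ε hb hr hε
  have hlog2 : 0 < log 2 := Real.log_pos (by norm_num)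
  have hbR : (2 : ℝ) ≤ b := by exact_mod_cast hb
  have hlogb : 0 ≤ log (b : ℝ) := Real.log_nonneg (by linarith)
  have hC00 : 0 ≤ C0 := by rw [hC0]; positivity
  have hσ0 := abs_nonneg σ
  refine ⟨c, hc, ?_⟩
  obtain ⟨q3, hq3⟩ := eventually_atTop.1 (((((((((log_ge 1).and
    (logpow (by linarith : (0 : ℝ) < β + γ) τ0)).and
    (logpow (by linarith : β + γ < 1) (1 / ε))).and
    (logpow (by linarith : β + γ < β + 2 * γ) (2 * r + 2))).and
    (logpow (by linarith : β < 1) r)).and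
    (logpow (by linarith : 1 + δ < 1 + (δ + γ)) ((C0 + 2) * log b + (κ + |σ|)))).and
    (logpow (by linarith : β + γ < 1) 100)).and
    (ev_le 4 (1 / 100) (by norm_num))).and
    (eventually_ge_atTop 2))
  refine ⟨max q2 (max q3 q4), fun M hMM lam hlam1 hlam2 M' hM'1 hM'2 t p nn ht htV hpV hnn hnnV
    hp => ?_⟩
  have hqq2 : q2 ≤ M := (le_max_left _ _).trans hMM
  have hqq4 : q4 ≤ M := (le_max_right _ _).trans ((le_max_right _ _).trans hMM)
  obtain ⟨⟨⟨⟨⟨⟨⟨⟨hL1, hτ1⟩, hτ2⟩, hτ3⟩, hVr⟩, hLb⟩, h100⟩, hq4⟩, hq2⟩ :=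
    hq3 M ((le_max_left _ _).trans ((le_max_right _ _).trans hMM))
  have hqR : (2 : ℝ) ≤ M := by exact_mod_cast hq2
  have hq0 : (0 : ℝ) < M := by linarith
  have h2q := h2 M hqq2
  have hcomq := hcom M hqq4 t
  obtain ⟨L, hL⟩ : ∃ L : ℝ, L = log M := ⟨_, rfl⟩
  rw [← hL] at hL1 hτ1 hτ2 hτ3 hVr hLb h100 h2q hcomq htV hpV hnnV ⊢
  rw [Real.rpow_zero, mul_one] at hτ1
  rw [Real.rpow_one] at hτ2 hVr h100
  have hL0 : 0 < L := by linarith
  have hMexp : ∀ x : ℝ, (M : ℝ) ^ x = Real.exp (x * L) := by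
    intro x
    rw [Real.rpow_def_of_pos hq0, hL, mul_comm]
  obtain ⟨τ, hτ⟩ : ∃ τ : ℝ, τ = L ^ (β + γ) := ⟨_, rfl⟩
  rw [← hτ] at hτ1 hτ2 hτ3 h100 ⊢
  have hτge1 : 1 ≤ τ := by rw [hτ]; exact Real.one_le_rpow hL1 (by linarith)
  obtain ⟨V, hV⟩ : ∃ V : ℝ, V = Real.exp (L ^ β) := ⟨_, rfl⟩
  rw [← hV] at htV hpV hnnV
  have hLβ0 : 0 ≤ L ^ β := by positivity
  have hLββ : L ^ β ≤ τ := by
    rw [hτ]; exact Real.rpow_le_rpow_of_exponent_le hL1 (by linarith)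
  have hV1 : 1 ≤ V := by rw [hV]; exact Real.one_le_exp hLβ0
  set T : ℝ := L ^ (1 + δ) with hT
  have hT1 : 1 ≤ T := Real.one_le_rpow hL1 (by linarith)
  have hTL : L ≤ T := by
    calc L = L ^ (1 : ℝ) := (Real.rpow_one L).symm
      _ ≤ L ^ (1 + δ) := Real.rpow_le_rpow_of_exponent_le hL1 (by linarith)
  set n0 : ℕ := ⌈C0 * L⌉₊ with hn0
  have hn0a : C0 * L ≤ n0 := Nat.le_ceil _
  have hn0b : (n0 : ℝ) ≤ C0 * L + 1 := (Nat.ceil_lt_add_one (by positivity)).le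
  have hcard : (((Finset.Icc (M + 1) (M + M')).card : ℕ) : ℝ) = (M' : ℝ) := by
    rw [Nat.card_Icc]
    congr 1
    omega
  have hM'pos : (1 : ℝ) ≤ M' := (Real.one_le_rpow (by linarith) (by norm_num)).trans hM'1
  have hI : (Finset.Icc (M + 1) (M + M')).Nonempty := by
    rw [Finset.nonempty_Icc]
    have : 1 ≤ M' := by exact_mod_cast hM'pos
    omega
  -- the numbers
  set N : ℝ := ∏ j, (nn j : ℝ) with hN
  have hNpos : 1 ≤ N := by
    rw [hN]
    refine Finset.prod_induction _ (fun x : ℝ => 1 ≤ x) (fun a b ha hb => ?_) le_rfl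
      (fun j _ => by exact_mod_cast hnn j)
    nlinarith
  have hNM : N ≤ M := by
    calc N ≤ ∏ _j : Fin r, V := prod_le_prod (fun _ _ => Nat.cast_nonneg _) fun j _ => hnnV j
      _ = V ^ r := by rw [prod_const, card_univ, Fintype.card_fin]
      _ = Real.exp (r * L ^ β) := by rw [hV, ← Real.exp_nat_mul]
      _ ≤ Real.exp L := Real.exp_le_exp.2 hVr
      _ = M := by rw [hL, Real.exp_log hq0]
  have hMMs : 2 * (MM M : ℝ) ^ 2 ≤ 1 / 2 * ((M' : ℝ) * Real.exp (-τ)) := by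
    have h3 := MM_small (q := M) (by omega)
    have h4 : (M : ℝ) ^ (4 / 5 : ℝ) = (M : ℝ) ^ (78 / 100 : ℝ) * ((M : ℝ) ^ (1 / 100 : ℝ) *
        (M : ℝ) ^ (1 / 100 : ℝ)) := by
      rw [← Real.rpow_add hq0, ← Real.rpow_add hq0]; norm_num
    have h5 : 0 < (M : ℝ) ^ (1 / 100 : ℝ) := by positivity
    have h6 : 0 < (M : ℝ) ^ (78 / 100 : ℝ) := by positivity
    have h7 : Real.exp τ ≤ (M : ℝ) ^ (1 / 100 : ℝ) := by
      rw [hMexp]
      apply Real.exp_le_exp.2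
      linarith
    have h8 : 4 * (MM M : ℝ) ^ 2 * Real.exp τ ≤ M' := by
      calc 4 * (MM M : ℝ) ^ 2 * Real.exp τ = (MM M : ℝ) ^ 2 * (4 * Real.exp τ) := by ring
        _ ≤ (M : ℝ) ^ (78 / 100 : ℝ) * ((M : ℝ) ^ (1 / 100 : ℝ) * (M : ℝ) ^ (1 / 100 : ℝ)) :=
          mul_le_mul h3 (mul_le_mul hq4 h7 (Real.exp_pos _).le h5.le) (by positivity) h6.le
        _ = (M : ℝ) ^ (4 / 5 : ℝ) := h4.symm
        _ ≤ M' := hM'1
    calc 2 * (MM M : ℝ) ^ 2 = 1 / 2 * (4 * (MM M : ℝ) ^ 2 * Real.exp τ * Real.exp (-τ)) := by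
          rw [mul_assoc (4 * (MM M : ℝ) ^ 2), ← Real.exp_add]
          norm_num
          ring
      _ ≤ 1 / 2 * ((M' : ℝ) * Real.exp (-τ)) := by
          have := mul_le_mul_of_nonneg_right h8 (Real.exp_pos (-τ)).le
          linarith
  have hexp3 : (M' : ℝ) * Real.exp (-L ^ (β + 2 * γ)) ≤ 1 / 2 * ((M' : ℝ) * Real.exp (-τ)) := by
    have h3 : Real.exp (-L ^ (β + 2 * γ)) ≤ Real.exp (-1) * Real.exp (-τ) := by
      rw [← Real.exp_add]
      apply Real.exp_le_exp.2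
      have h4 : (2 : ℝ) ≤ 2 * r + 2 := by
        have : (0 : ℝ) ≤ r := Nat.cast_nonneg _
        linarith
      nlinarith
    have h4 : Real.exp (-1) ≤ 1 / 2 := by
      rw [Real.exp_neg, inv_eq_one_div]
      apply one_div_le_one_div_of_le (by norm_num)
      have := Real.add_one_le_exp (1 : ℝ)
      linarith
    have h5 : Real.exp (-L ^ (β + 2 * γ)) ≤ 1 / 2 * Real.exp (-τ) :=
      h3.trans (mul_le_mul_of_nonneg_right h4 (Real.exp_pos _).le)
    calc (M' : ℝ) * Real.exp (-L ^ (β + 2 * γ)) ≤ M' * (1 / 2 * Real.exp (-τ)) :=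
          mul_le_mul_of_nonneg_left h5 (by linarith)
      _ = _ := by ring
  have hfamq := hfam τ hτ1 T hT1 (Finset.Icc (M + 1) (M + M'))
    (fun m j => lam / nn j * ∑ i, (p j i : ℝ) * ((m : ℝ) + t i) ^ σ) n0 hI (by
    intro n h hn hh hhW
    have hH0 := comb_ne hnn hp hh
    have hH1 := fun i => comb_le (p := p) (nn := nn) (V := V) (W := Real.exp τ) hV1 hhW hpV hnnV i
    set H : Fin s → ℤ := fun i => ∑ j, h j * (∏ j' ∈ univ.erase j, (nn j' : ℤ)) * p j i with hH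
    have hHb : ∀ i, |(H i : ℝ)| ≤ Real.exp (L ^ (β + 2 * γ)) := by
      intro i
      refine (hH1 i).trans ?_
      have h3 : (r : ℝ) ≤ Real.exp r := by
        have := Real.add_one_le_exp (r : ℝ)
        linarith
      calc (r : ℝ) * (Real.exp τ * V ^ r * V) ≤ Real.exp r * (Real.exp τ * V ^ r * V) :=
            mul_le_mul_of_nonneg_right h3 (by positivity)
        _ = Real.exp (r + (τ + r * L ^ β + L ^ β)) := by
            rw [hV, ← Real.exp_nat_mul, ← Real.exp_add, ← Real.exp_add, ← Real.exp_add]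
        _ ≤ _ := by
            apply Real.exp_le_exp.2
            refine le_trans ?_ hτ3
            have h4 : (0 : ℝ) ≤ r := Nat.cast_nonneg _
            have h5 : (r : ℝ) ≤ r * τ := le_mul_of_one_le_right h4 hτge1
            have h6 : r * L ^ β ≤ r * τ := mul_le_mul_of_nonneg_left hLββ h4
            linarith
    obtain ⟨i0, hi0, hexpn⟩ := hcomq H ht (fun i => (htV i).trans (by
      rw [hV]
      apply Real.exp_le_exp.2
      exact Real.rpow_le_rpow_of_exponent_le hL1 (by linarith))) hHb hH0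
    set θ0 : ℝ := (b : ℝ) ^ (n0 + n) with hθ0
    have hθ00 : 0 < θ0 := by rw [hθ0]; positivity
    have habs : |θ0 * (lam / N) * (M : ℝ) ^ (σ - i0)| = θ0 * (|lam| / N) * (M : ℝ) ^ (σ - i0) := by
      rw [abs_mul, abs_mul, abs_div, abs_of_pos hθ00, abs_of_pos (by linarith : (0 : ℝ) < N),
        abs_of_pos (by positivity : (0 : ℝ) < (M : ℝ) ^ (σ - i0))]
    have hθlow : (M : ℝ) ^ (1 + 2) ≤ |θ0 * (lam / N) * (M : ℝ) ^ (σ - i0)| := by
      rw [habs]
      have h3 : (M : ℝ) ^ (⌈κ + |σ|⌉₊ + s + 5) ≤ θ0 := by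
        rw [hθ0]
        refine (pow_lower (k := ⌈κ + |σ|⌉₊ + s + 5) (n := n0) hb hq0 ?_).trans
          (pow_le_pow_right₀ (by linarith) (by omega))
        rw [← hL, ← hC0]
        exact hn0a
      have h4 : (M : ℝ) ^ (1 + 2) ≤ (M : ℝ) ^ (⌈κ + |σ|⌉₊ + s + 5) *
          ((M : ℝ) ^ (-κ) / (M : ℝ) ^ (1 : ℝ)) * (M : ℝ) ^ (σ - i0) := by
        rw [← Real.rpow_natCast (M : ℝ) (⌈κ + |σ|⌉₊ + s + 5), ← Real.rpow_natCast (M : ℝ) (1 + 2),
          ← Real.rpow_sub hq0, ← Real.rpow_add hq0, ← Real.rpow_add hq0]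
        apply Real.rpow_le_rpow_of_exponent_le (by linarith)
        push_cast
        have h5 : κ + |σ| ≤ ⌈κ + |σ|⌉₊ := Nat.le_ceil _
        have h6 : -|σ| ≤ σ := neg_abs_le σ
        have h7 : (i0 : ℝ) ≤ s := by exact_mod_cast hi0.le
        linarith
      refine h4.trans ?_
      rw [Real.rpow_one]
      have h8 : (M : ℝ) ^ (-κ) / M ≤ |lam| / N :=
        div_le_div₀ (abs_nonneg _) hlam1 (by linarith) hNM
      have h9 : 0 ≤ (M : ℝ) ^ (-κ) / M := by positivity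
      exact mul_le_mul_of_nonneg_right (mul_le_mul h3 h8 h9 hθ00.le) (by positivity)
    have hθup : |θ0 * (lam / N) * (M : ℝ) ^ (σ - i0)| ≤ Real.exp (L ^ (1 + (δ + γ))) := by
      rw [habs]
      have h3 : θ0 ≤ Real.exp ((C0 + 2) * log b * T) := by
        have h4 : (b : ℝ) ^ (n0 + n) = Real.exp (((n0 + n : ℕ) : ℝ) * log b) := by
          rw [mul_comm, Real.exp_mul, Real.exp_log (by linarith), Real.rpow_natCast]
        rw [hθ0, h4]
        apply Real.exp_le_exp.2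
        have h5 : ((n0 + n : ℕ) : ℝ) ≤ (C0 + 2) * T := by
          push_cast
          have h6 : C0 * L ≤ C0 * T := mul_le_mul_of_nonneg_left hTL hC00
          linarith
        calc ((n0 + n : ℕ) : ℝ) * log b ≤ (C0 + 2) * T * log b :=
              mul_le_mul_of_nonneg_right h5 hlogb
          _ = _ := by ring
      have h6 : (M : ℝ) ^ (σ - i0) ≤ (M : ℝ) ^ (|σ|) := by
        apply Real.rpow_le_rpow_of_exponent_le (by linarith)
        have := le_abs_self σ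
        have h7 : (0 : ℝ) ≤ (i0 : ℝ) := Nat.cast_nonneg _
        linarith
      have h7 : |lam| / N ≤ (M : ℝ) ^ κ :=
        (div_le_self (abs_nonneg _) hNpos).trans hlam2
      calc θ0 * (|lam| / N) * (M : ℝ) ^ (σ - i0)
          ≤ Real.exp ((C0 + 2) * log b * T) * (M : ℝ) ^ κ * (M : ℝ) ^ (|σ|) := by gcongr
        _ = Real.exp ((C0 + 2) * log b * T + (κ + |σ|) * L) := by
            rw [hMexp, hMexp, ← Real.exp_add, ← Real.exp_add]
            congr 1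
            ring
        _ ≤ _ := by
            apply Real.exp_le_exp.2
            refine le_trans ?_ hLb
            have h9 : 0 ≤ κ + |σ| := by positivity
            have h10 := mul_le_mul_of_nonneg_left hTL h9
            linarith
    have hE1 : 1 ≤ (M : ℝ) ^ (1 / 500 : ℝ) := Real.one_le_rpow (by linarith) (by norm_num)
    have h3 := h2q (M + 1) (M + M') L ((M : ℝ) ^ (1 / 500 : ℝ)) (θ0 * (lam / N) * (M : ℝ) ^ (σ - i0))
      (fun y => θ0 * (lam / N) * ∑ i, (H i : ℝ) * (y + t i) ^ σ) le_rfl hE1 le_rfl hθlow hθup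
      (by
        intro m hm1 hm2
        obtain ⟨c, hc1, hc2⟩ := hexpn (m : ℝ) (by exact_mod_cast (by omega : M ≤ m))
          (by exact_mod_cast (by omega : m ≤ 3 * M))
        refine ⟨c, hc1, fun y hy0 hy => ?_⟩
        have h5 := (hc2 y hy0 hy).mul_left (θ0 * (lam / N))
        have h6 : (fun k : ℕ => θ0 * (lam / N) * ((M : ℝ) ^ (σ - i0) * c k * (y / M) ^ k)) =
            (fun k : ℕ => θ0 * (lam / N) * (M : ℝ) ^ (σ - i0) * c k * (y / M) ^ k) := by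
          funext k; ring
        have h7 : ∀ i, (m : ℝ) + t i + y = (m : ℝ) + y + t i := fun i => by ring
        rw [h6] at h5
        simp only [h7] at h5
        exact h5)
    have h4 : ∀ m : ℕ, (b : ℝ) ^ (n0 + n) *
        ∑ j, (h j : ℝ) * (lam / nn j * ∑ i, (p j i : ℝ) * ((m : ℝ) + t i) ^ σ) =
        θ0 * (lam / N) * ∑ i, (H i : ℝ) * ((m : ℝ) + t i) ^ σ := by
      intro m
      rw [comb_eq h p nn hnn lam (fun i => ((m : ℝ) + t i) ^ σ), mul_assoc]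
    have h10 : ∑ m ∈ Finset.Icc (M + 1) (M + M'), e ((b : ℝ) ^ (n0 + n) *
        ∑ j, (h j : ℝ) * (lam / nn j * ∑ i, (p j i : ℝ) * ((m : ℝ) + t i) ^ σ)) =
        ∑ m ∈ Finset.Icc (M + 1) (M + M'), e (θ0 * (lam / N) *
          ∑ i, (H i : ℝ) * ((m : ℝ) + t i) ^ σ) := sum_congr rfl fun m _ => by rw [h4 m]
    refine (le_of_eq (congrArg _ h10)).trans ?_
    refine h3.trans ?_
    rw [hcard]
    linarith)
  rw [hcard] at hfamq
  refine le_trans (Nat.cast_le.2 (card_le_card ?_)) hfamq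
  intro m hm
  rw [Finset.mem_filter] at hm ⊢
  refine ⟨hm.1, fun h8 => hm.2 (h8.mono ?_)⟩
  have h9 : 1 / ε * τ ≤ L := hτ2
  rw [one_div, inv_mul_le_iff₀ hε] at h9
  exact h9

end Pool.Agent.N586.GF
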