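import Pool.Agent.N586.KO.Stm

/-!
# Projects GF and SR: digits of the values of analytic functions at rational points, and of the powers
of consecutive integers, up to `(log q) ^ (1 + δ)` places. Statements.

GF: for almost all rational numbers `x = a / q` of denominator `q` the triple `(e ^ x, π / x, √(2 x))`
(which is `(e, π, √2)` at `x = 1`) is jointly normal up to `(log q) ^ (1 + δ)` digits, `δ < 1 / 2`; the same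
for all tuples of analytic functions whose integral combinations have Taylor coefficients which are not
too small.

SR: for almost all `m` in `(M, M + M ^ (4 / 5)]` the tuple `((m + t₁) ^ σ, …, (m + t_r) ^ σ)` is jointly
normal up to `(log M) ^ (1 + δ)` digits, for every real `σ` which is not a nonnegative integer.
-/

set_option autoImplicit false

namespace Pool.Agent.N586.GF

open Finset Filter
open Pool.Agent.Y933.KD (e)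
open Pool.Agent.N586.KO (MM S_TN4)

/-- bounds for the Taylor coefficients `c k`, the lower bound for `k0 ≤ k ≤ R` -/
structure Cf (C A R : ℝ) (k0 : ℕ) (c : ℕ → ℝ) : Prop where
  up : ∀ k : ℕ, |c k| ≤ C ^ (k + 1)
  lo : ∀ k : ℕ, k0 ≤ k → (k : ℝ) ≤ R → Real.exp (-(A * (k : ℝ) ^ 2)) ≤ |c k|

/-- G1: the bilinear sum at one point -/
def S_ONE : Prop := ∀ (C A δ β : ℝ) (k0 : ℕ), 1 ≤ C → 0 ≤ A → 0 < δ → 0 < β → 2 * δ + β < 1 →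
    ∃ q0 : ℕ, ∀ q : ℕ, q0 ≤ q → ∀ (c : ℕ → ℝ) (R θ : ℝ) (φ : ℝ → ℝ), Real.log q ≤ R →
    Cf C A R k0 c → (q : ℝ) ^ (k0 + 2) ≤ |θ| → |θ| ≤ Real.exp ((Real.log q) ^ (1 + δ)) →
    (∀ y : ℝ, 0 ≤ y → y ≤ (q : ℝ) ^ (4 / 5 : ℝ) →
      HasSum (fun k : ℕ => θ * c k * (y / q) ^ k) (φ y)) →
    ‖∑ y ∈ Finset.Icc 1 (MM q), ∑ z ∈ Finset.Icc 1 (MM q), e (φ ((y * z : ℕ) : ℝ))‖ ≤
      (MM q : ℝ) ^ 2 * Real.exp (-(Real.log q) ^ β)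

/-- G2: the exponential sums -/
def S_SUM : Prop := ∀ (C A δ β : ℝ) (k0 : ℕ), 1 ≤ C → 0 ≤ A → 0 < δ → 0 < β → 2 * δ + β < 1 →
    ∃ q0 : ℕ, ∀ q : ℕ, q0 ≤ q → ∀ (A' B' : ℕ) (R θ : ℝ) (Φ : ℝ → ℝ), Real.log q ≤ R →
    (q : ℝ) ^ (k0 + 2) ≤ |θ| → |θ| ≤ Real.exp ((Real.log q) ^ (1 + δ)) →
    (∀ a : ℕ, A' ≤ a → a ≤ B' → ∃ c : ℕ → ℝ, Cf C A R k0 c ∧
      ∀ y : ℝ, 0 ≤ y → y ≤ (q : ℝ) ^ (4 / 5 : ℝ) →
        HasSum (fun k : ℕ => θ * c k * (y / q) ^ k) (Φ ((a : ℝ) + y))) →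
    ‖∑ a ∈ Finset.Icc A' B', e (Φ a)‖ ≤ 2 * (MM q : ℝ) ^ 2 +
      ((Finset.Icc A' B').card : ℝ) * Real.exp (-(Real.log q) ^ β)

open Classical in
/-- the vectors `y s, …, y (s + N - 1)` are equidistributed modulo one, up to `ε N + E`, in all windows
inside `[s0, N1]` -/
def EqB {r : ℕ} (ε E : ℝ) (s0 N1 : ℕ) (y : ℕ → Fin r → ℝ) : Prop :=
  ∀ (s N : ℕ) (u v : Fin r → ℝ), s0 ≤ s → s + N ≤ N1 → (∀ j, 0 ≤ u j) → (∀ j, u j ≤ v j) →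
    (∀ j, v j ≤ 1) →
    |(((Finset.range N).filter (fun n => ∀ j, u j ≤ Int.fract (y (s + n) j) ∧
      Int.fract (y (s + n) j) < v j)).card : ℝ) - N * ∏ j, (v j - u j)| ≤ ε * N + E

open Classical in
/-- G3: the second moment method in blocks -/
def S_SMB : Prop := ∀ (r : ℕ) (ε : ℝ), 1 ≤ r → 0 < ε → ∃ (K : ℕ) (C : ℝ), 0 ≤ C ∧
    ∀ (I : Finset ℕ) (z : ℕ → ℕ → Fin r → ℝ) (s0 N1 ℓ : ℕ) (η : ℝ), 1 ≤ ℓ → s0 ≤ N1 → 0 ≤ η →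
    (∀ h : Fin r → ℤ, (∀ j, |h j| ≤ K) → h ≠ 0 → ∀ n n' : ℕ, s0 ≤ n' → n' < n → n ≤ N1 →
      ‖∑ a ∈ I, e (∑ j, (h j : ℝ) * (z a n j - z a n' j))‖ ≤ η * (I.card : ℝ)) →
    ((I.filter (fun a => ¬ EqB ε (2 * ℓ) s0 N1 (z a))).card : ℝ) ≤
      C * (I.card : ℝ) * ((N1 : ℝ) / ℓ + 1) * (1 / ℓ + η)

/-- all integral combinations of the functions `F j` have, at all points of `[α, β]`, power series
expansions with coefficients which are neither too large nor too small -/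
def Indep {r : ℕ} (α β : ℝ) (F : Fin r → ℝ → ℝ) : Prop :=
  ∀ h : Fin r → ℤ, h ≠ 0 → ∃ (C A : ℝ) (k0 : ℕ), 1 ≤ C ∧ 0 ≤ A ∧ ∀ x : ℝ, α ≤ x → x ≤ β →
    ∃ c : ℕ → ℝ, (∀ k, |c k| ≤ C ^ (k + 1)) ∧
      (∀ k, k0 ≤ k → Real.exp (-(A * (k : ℝ) ^ 2)) ≤ |c k|) ∧
      ∀ y : ℝ, 0 ≤ y → C * y < 1 → HasSum (fun k : ℕ => c k * y ^ k) (∑ j, (h j : ℝ) * F j (x + y))

/-- G4: the triple `(e ^ x, π / x, √(2 x))` -/
def S_TRI : Prop := ∀ α β : ℝ, 0 < α → α < β →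
    Indep α β ![Real.exp, fun x => Real.pi / x, fun x => √(2 * x)]

/-- R1: the powers of consecutive integers -/
def S_CR : Prop := ∀ (σ : ℝ) (r K : ℕ) (t : Fin r → ℕ), (∀ n : ℕ, σ ≠ n) → 1 ≤ r →
    Function.Injective t → ∃ (C A : ℝ), 1 ≤ C ∧ 0 ≤ A ∧ ∃ M0 : ℕ, ∀ M : ℕ, M0 ≤ M →
    ∀ h : Fin r → ℤ, (∀ j, |h j| ≤ K) → h ≠ 0 → ∃ i0 : ℕ, i0 < r ∧
    ∀ m : ℕ, M ≤ m → m ≤ 3 * M → ∃ c : ℕ → ℝ, Cf C A (Real.log M) 0 c ∧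
      ∀ y : ℝ, 0 ≤ y → y ≤ (M : ℝ) ^ (4 / 5 : ℝ) →
        HasSum (fun k : ℕ => (M : ℝ) ^ (σ - i0) * c k * (y / M) ^ k)
          (∑ j, (h j : ℝ) * ((m : ℝ) + t j + y) ^ σ)

end Pool.Agent.N586.GF
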