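import Pool.Agent.N586.GF.Stm

/-!
# Projects GF and SR: corrected statement R1
-/

set_option autoImplicit false

namespace Pool.Agent.N586.GF

open Finset Filter

/-- R1: the powers of consecutive integers -/
def S_CR' : Prop := ∀ (σ : ℝ) (r K : ℕ) (t : Fin r → ℕ), (∀ n : ℕ, σ ≠ n) → 1 ≤ r →
    Function.Injective t → ∃ (C A : ℝ), 1 ≤ C ∧ 0 ≤ A ∧ ∃ M0 : ℕ, ∀ M : ℕ, M0 ≤ M →
    ∀ h : Fin r → ℤ, (∀ j, |h j| ≤ K) → h ≠ 0 → ∃ i0 : ℕ, i0 < r ∧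
    ∀ m : ℕ, M ≤ m → m ≤ 3 * M → ∃ c : ℕ → ℝ, Cf C A (Real.log M) 1 c ∧
      ∀ y : ℝ, 0 ≤ y → y ≤ (M : ℝ) ^ (4 / 5 : ℝ) →
        HasSum (fun k : ℕ => (M : ℝ) ^ (σ - i0) * c k * (y / M) ^ k)
          (∑ j, (h j : ℝ) * ((m : ℝ) + t j + y) ^ σ)

end Pool.Agent.N586.GF
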