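import Pool.Agent.N586.GF.Stm2

/-!
# Projects GF and SR, second part: exceptional sets of size `exp (-(log M) ^ β)`, all small tuples at
once; the quintuple `(π / x, √(2 x), (1 + √(1 + 4 x)) / 2, log (1 + x), e ^ x)`. Statements.
-/

set_option autoImplicit false

namespace Pool.Agent.N586.GF

open Finset Filter
open Pool.Agent.Y933.KD (e)
open Pool.Agent.N586.KO (MM)

/-- bounds for the Taylor coefficients `c k` up to the factor `E`, the lower bound for `k0 ≤ k ≤ R` -/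
structure CfE (C A R E : ℝ) (k0 : ℕ) (c : ℕ → ℝ) : Prop where
  up : ∀ k : ℕ, |c k| ≤ E * C ^ (k + 1)
  lo : ∀ k : ℕ, k0 ≤ k → (k : ℝ) ≤ R → Real.exp (-(A * (k : ℝ) ^ 2)) ≤ E * |c k|

/-- G5: the exponential sums, with the factor `E ≤ q ^ (1 / 500)` -/
def S_SUM2 : Prop := ∀ (C A δ β : ℝ) (k0 : ℕ), 1 ≤ C → 0 ≤ A → 0 < δ → 0 < β → 2 * δ + β < 1 →
    ∃ q0 : ℕ, ∀ q : ℕ, q0 ≤ q → ∀ (A' B' : ℕ) (R E θ : ℝ) (Φ : ℝ → ℝ), Real.log q ≤ R →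
    1 ≤ E → E ≤ (q : ℝ) ^ (1 / 500 : ℝ) →
    (q : ℝ) ^ (k0 + 2) ≤ |θ| → |θ| ≤ Real.exp ((Real.log q) ^ (1 + δ)) →
    (∀ a : ℕ, A' ≤ a → a ≤ B' → ∃ c : ℕ → ℝ, CfE C A R E k0 c ∧
      ∀ y : ℝ, 0 ≤ y → y ≤ (q : ℝ) ^ (4 / 5 : ℝ) →
        HasSum (fun k : ℕ => θ * c k * (y / q) ^ k) (Φ ((a : ℝ) + y))) →
    ‖∑ a ∈ Finset.Icc A' B', e (Φ a)‖ ≤ 2 * (MM q : ℝ) ^ 2 +
      ((Finset.Icc A' B').card : ℝ) * Real.exp (-(Real.log q) ^ β)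

/-- R2: the sums of powers of nearby numbers, uniformly -/
def S_CR2 : Prop := ∀ (σ β : ℝ) (r : ℕ), (∀ n : ℕ, σ ≠ n) → 0 < β → β < 1 → 1 ≤ r →
    ∃ (C A : ℝ), 1 ≤ C ∧ 0 ≤ A ∧ ∃ M0 : ℕ, ∀ M : ℕ, M0 ≤ M →
    ∀ (t : Fin r → ℕ) (h : Fin r → ℤ), Function.Injective t →
    (∀ j, (t j : ℝ) ≤ Real.exp ((Real.log M) ^ β)) →
    (∀ j, |(h j : ℝ)| ≤ Real.exp ((Real.log M) ^ β)) → h ≠ 0 → ∃ i0 : ℕ, i0 < r ∧
    ∀ x : ℝ, (M : ℝ) ≤ x → x ≤ 3 * M → ∃ c : ℕ → ℝ,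
      CfE C A (Real.log M) ((M : ℝ) ^ (1 / 500 : ℝ)) 1 c ∧
      ∀ y : ℝ, 0 ≤ y → y ≤ (M : ℝ) ^ (4 / 5 : ℝ) →
        HasSum (fun k : ℕ => (M : ℝ) ^ (σ - i0) * c k * (y / M) ^ k)
          (∑ j, (h j : ℝ) * (x + t j + y) ^ σ)

/-- the functions `F j` have power series expansions at the points of `[α, β]`, with coefficients
`c j x k` which are neither too large nor too small, and the coefficients of each function are much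
smaller than those of the functions with smaller index -/
def Ordered {r : ℕ} (α β : ℝ) (F : Fin r → ℝ → ℝ) : Prop :=
  ∃ (c : Fin r → ℝ → ℕ → ℝ) (C A : ℝ) (k0 : ℕ), 1 ≤ C ∧ 0 ≤ A ∧
    (∀ j x k, α ≤ x → x ≤ β → |c j x k| ≤ C ^ (k + 1)) ∧
    (∀ j x k, α ≤ x → x ≤ β → k0 ≤ k → Real.exp (-(A * (k : ℝ) ^ 2)) ≤ |c j x k|) ∧
    (∀ j x y, α ≤ x → x ≤ β → 0 ≤ y → C * y < 1 →
      HasSum (fun k : ℕ => c j x k * y ^ k) (F j (x + y))) ∧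
    ∀ i j, i < j → ∀ η : ℝ, 0 < η → ∃ k1 : ℕ, ∀ x k, α ≤ x → x ≤ β → k1 ≤ k →
      |c j x k| ≤ η * |c i x k|

/-- G6: ordered tuples are independent -/
def S_ORD : Prop := ∀ (r : ℕ) (α β : ℝ) (F : Fin r → ℝ → ℝ), Ordered α β F → Indep α β F

/-- G7: the quintuple `(π / x, √(2 x), (1 + √(1 + 4 x)) / 2, log (1 + x), e ^ x)`, which is
`(π, √2, φ, log 2, e)` at `x = 1` -/
def S_QUI : Prop := ∀ α β : ℝ, 0 < α → α < β → Ordered α β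
    ![fun x => Real.pi / x, fun x => √(2 * x), fun x => (1 + √(1 + 4 * x)) / 2,
      fun x => Real.log (1 + x), Real.exp]

end Pool.Agent.N586.GF
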