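import Pool.Agent.N586.GF.Stm
import Pool.Agent.N586.KO.Exps

/-!
# Project GF, G2: from one point to the exponential sum (worker: helper701)
-/

set_option autoImplicit false

namespace Pool.Agent.N586.GF

open Finset Filter
open Pool.Agent.Y933.KD (e)
open Pool.Agent.N586.KO (MM)

theorem sum (h : S_ONE) : S_SUM := by
  intro C A δ β k0 hC hA hδ hβ hδβ
  obtain ⟨q0, hcore⟩ := h C A δ β k0 hC hA hδ hβ hδβ
  refine ⟨max q0 1, ?_⟩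
  intro q hq A' B' R θ Φ hR hθ1 hθ2 hΦ
  have hq0 : q0 ≤ q := (le_max_left _ _).trans hq
  have hq1 : 1 ≤ q := (le_max_right _ _).trans hq
  obtain ⟨M, hM⟩ : ∃ M, M = MM q := ⟨_, rfl⟩
  have hM1 : 1 ≤ M := by
    rw [hM]
    unfold Pool.Agent.N586.KO.MM
    apply Nat.le_floor
    rw [Nat.cast_one]
    exact Real.one_le_rpow (by exact_mod_cast hq1) (by norm_num)
  have hMr : (1 : ℝ) ≤ M := by exact_mod_cast hM1
  have hMpos : (0 : ℝ) < M := by linarith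
  obtain ⟨G, hG⟩ : ∃ G : ℝ → ℂ, G = fun t => e (Φ t) := ⟨_, rfl⟩
  have hG1 : ∀ t, ‖G t‖ = 1 := by
    intro t
    rw [hG]
    exact Pool.Agent.N586.KO.Exps_norm_e _
  obtain ⟨I, hI⟩ : ∃ I, I = Icc A' B' := ⟨_, rfl⟩
  obtain ⟨S, hS⟩ : ∃ S : ℂ, S = ∑ a ∈ I, G a := ⟨_, rfl⟩
  have hS' : ∑ a ∈ Finset.Icc A' B', e (Φ a) = S := by
    rw [hS, hI, hG]
  rw [hS', ← hM, ← hI]
  obtain ⟨D, hD⟩ : ∃ D : ℝ, D = Real.exp (-(Real.log q) ^ β) := ⟨_, rfl⟩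
  have hD0 : 0 ≤ D := by rw [hD]; exact (Real.exp_pos _).le
  rw [← hD]
  -- the double sums
  have hin : ∀ a ∈ I, ‖∑ y ∈ Icc 1 M, ∑ z ∈ Icc 1 M, G ((a : ℝ) + ((y * z : ℕ) : ℝ))‖ ≤
      (M : ℝ) ^ 2 * D := by
    intro a ha
    rw [hI, mem_Icc] at ha
    obtain ⟨c, hc, hs⟩ := hΦ a ha.1 ha.2
    have h5 := hcore q hq0 c R θ (fun y => Φ ((a : ℝ) + y)) hR hc hθ1 hθ2 hs
    rw [hG, hD, hM]
    exact h5
  have hsum : ‖∑ a ∈ I, ∑ y ∈ Icc 1 M, ∑ z ∈ Icc 1 M, G ((a : ℝ) + ((y * z : ℕ) : ℝ))‖ ≤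
      I.card * ((M : ℝ) ^ 2 * D) := by
    refine (norm_sum_le _ _).trans ((sum_le_sum hin).trans (le_of_eq ?_))
    rw [sum_const, nsmul_eq_mul]
  have hexch : ∑ a ∈ I, ∑ y ∈ Icc 1 M, ∑ z ∈ Icc 1 M, G ((a : ℝ) + ((y * z : ℕ) : ℝ)) =
      ∑ y ∈ Icc 1 M, ∑ z ∈ Icc 1 M, ∑ a ∈ I, G ((a : ℝ) + ((y * z : ℕ) : ℝ)) := by
    rw [sum_comm]
    refine sum_congr rfl fun y _ => ?_
    rw [sum_comm]
  have hdiff : ‖∑ y ∈ Icc 1 M, ∑ z ∈ Icc 1 M, (S - ∑ a ∈ I, G ((a : ℝ) + ((y * z : ℕ) : ℝ)))‖ ≤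
      2 * (M : ℝ) ^ 4 := by
    have h1 : ∀ y ∈ Icc 1 M, ∀ z ∈ Icc 1 M,
        ‖S - ∑ a ∈ I, G ((a : ℝ) + ((y * z : ℕ) : ℝ))‖ ≤ 2 * (M : ℝ) ^ 2 := by
      intro y hy z hz
      rw [mem_Icc] at hy hz
      rw [hS, hI]
      refine (Pool.Agent.N586.KO.Exps_shift G hG1 A' B' (y * z)).trans ?_
      have : y * z ≤ M * M := Nat.mul_le_mul hy.2 hz.2
      have h2 : ((y * z : ℕ) : ℝ) ≤ (M : ℝ) ^ 2 := by
        rw [pow_two]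
        exact_mod_cast this
      linarith
    refine (norm_sum_le _ _).trans ?_
    refine (sum_le_sum (fun y _ => norm_sum_le _ _)).trans ?_
    refine (sum_le_sum (fun y hy => sum_le_sum (fun z hz => h1 y hy z hz))).trans ?_
    simp only [sum_const, Nat.card_Icc, nsmul_eq_mul]
    rw [show M + 1 - 1 = M by omega]
    apply le_of_eq
    ring
  have hSS : ∑ y ∈ Icc 1 M, ∑ z ∈ Icc 1 M, S = ((M : ℂ)) ^ 2 * S := by
    simp only [sum_const, Nat.card_Icc, nsmul_eq_mul]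
    rw [show M + 1 - 1 = M by omega]
    ring
  have hmain : (M : ℝ) ^ 2 * ‖S‖ ≤ 2 * (M : ℝ) ^ 4 + I.card * ((M : ℝ) ^ 2 * D) := by
    have h1 : ((M : ℂ)) ^ 2 * S = ∑ y ∈ Icc 1 M, ∑ z ∈ Icc 1 M,
        (S - ∑ a ∈ I, G ((a : ℝ) + ((y * z : ℕ) : ℝ))) +
        ∑ a ∈ I, ∑ y ∈ Icc 1 M, ∑ z ∈ Icc 1 M, G ((a : ℝ) + ((y * z : ℕ) : ℝ)) := by
      rw [hexch, ← hSS, ← sum_add_distrib]
      refine sum_congr rfl fun y _ => ?_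
      rw [← sum_add_distrib]
      refine sum_congr rfl fun z _ => ?_
      ring
    have h2 : ‖((M : ℂ)) ^ 2 * S‖ = (M : ℝ) ^ 2 * ‖S‖ := by
      rw [norm_mul, norm_pow, Complex.norm_natCast]
    rw [← h2, h1]
    exact (norm_add_le _ _).trans (add_le_add hdiff hsum)
  have hM2 : (0 : ℝ) < (M : ℝ) ^ 2 := by positivity
  have : (M : ℝ) ^ 2 * ‖S‖ ≤ (M : ℝ) ^ 2 * (2 * (M : ℝ) ^ 2 + I.card * D) := by
    refine hmain.trans (le_of_eq ?_)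
    ring
  exact le_of_mul_le_mul_left this hM2

end Pool.Agent.N586.GF
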