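import Pool.Agent.N586.GF.Stm4
import Pool.Agent.N586.GF.One
import Pool.Agent.N586.KO.Exps

/-!
# Project FR, G8: the exponential sums with the tolerance `q ^ ((k + 1) / 200)` for the `k`-th coefficient
(helper572, after GF/Sum2 of helper595, GF/One of helper123 and GF/Sum of helper701)
-/

set_option autoImplicit false

namespace Pool.Agent.N586.GF

section one3

open Finset Real Filter
open Pool.Agent.Y933.KD (e norm_e e_add)
open Pool.Agent.Y957.VK (TT)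
open Pool.Agent.Y933.KD.VdC (ev_le)
open Pool.Agent.N586.RT (logpow log_ge ph ph_eq norm_e_sub)
open Pool.Agent.N586.AN (pair_TT pair_tail)
open Pool.Agent.N586.KO (MM S_TN4)

/-- the bilinear sum at one point -/
def Sum3_ONE : Prop := ∀ (δ β : ℝ) (k0 : ℕ), 0 < δ → 0 < β → 2 * δ + β < 1 →
    ∃ q0 : ℕ, ∀ q : ℕ, q0 ≤ q → ∀ (c : ℕ → ℝ) (R θ : ℝ) (φ : ℝ → ℝ), Real.log q ≤ R →
    CfQ q R k0 c → (q : ℝ) ^ (k0 + 2) ≤ |θ| → |θ| ≤ Real.exp ((Real.log q) ^ (1 + δ)) →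
    (∀ y : ℝ, 0 ≤ y → y ≤ (q : ℝ) ^ (4 / 5 : ℝ) →
      HasSum (fun k : ℕ => θ * c k * (y / q) ^ k) (φ y)) →
    ‖∑ y ∈ Finset.Icc 1 (MM q), ∑ z ∈ Finset.Icc 1 (MM q), e (φ ((y * z : ℕ) : ℝ))‖ ≤
      (MM q : ℝ) ^ 2 * Real.exp (-(Real.log q) ^ β)

/-- the bilinear sum at one point -/
theorem Sum3_one (h : S_TN4) : Sum3_ONE := by
  intro δ β k0 hδ hβ hδβ
  obtain ⟨c, hc0, C0, hC0, hC⟩ := h
  obtain ⟨q1, hq1⟩ := eventually_atTop.1 (((((((ev_le 16 (1 / 1000) (by norm_num)).and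
    (log_ge 1000)).and
    (logpow (by linarith : δ < 1) 4)).and
    (logpow (by linarith : β < 1 - 2 * δ) (8 / c))).and
    (logpow hβ (C0 + 16))).and
    (logpow (by linarith : β < 1) 2)).and (eventually_ge_atTop 2))
  refine ⟨q1, ?_⟩
  intro q hq co R θ φ hR hcf hθ1 hθ2 hφ
  obtain ⟨⟨⟨⟨⟨⟨hbig, hb8⟩, hbA⟩, hb9⟩, hb10⟩, hb11⟩, hq2⟩ := hq1 q hq
  have hqR : (2 : ℝ) ≤ q := by exact_mod_cast hq2
  have hq0 : (0 : ℝ) < q := by linarith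
  have hq1R : (1 : ℝ) ≤ q := by linarith
  obtain ⟨L, hL⟩ : ∃ L : ℝ, L = log q := ⟨_, rfl⟩
  rw [← hL] at hb8 hbA hb9 hb10 hb11 hR hθ2 ⊢
  rw [Real.rpow_one] at hb11 hbA
  rw [Real.rpow_zero, mul_one] at hb10
  have hLp : 0 < L := by linarith
  have hexp : ∀ x : ℝ, (q : ℝ) ^ x = Real.exp (x * L) := by
    intro x
    rw [Real.rpow_def_of_pos hq0, hL, mul_comm]
  have hadd : ∀ x y : ℝ, (q : ℝ) ^ x * (q : ℝ) ^ y = (q : ℝ) ^ (x + y) :=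
    fun x y => (Real.rpow_add hq0 x y).symm
  have hmono : ∀ x y : ℝ, x ≤ y → (q : ℝ) ^ x ≤ (q : ℝ) ^ y := fun x y hxy =>
    Real.rpow_le_rpow_of_exponent_le hq1R hxy
  have hpos : ∀ x : ℝ, 0 < (q : ℝ) ^ x := fun x => Real.rpow_pos_of_pos hq0 x
  -- the length
  obtain ⟨M, hM⟩ : ∃ M : ℕ, M = MM q := ⟨_, rfl⟩
  rw [← hM]
  have hMhi : (M : ℝ) ≤ (q : ℝ) ^ (39 / 100 : ℝ) := by
    rw [hM]
    exact Nat.floor_le (by positivity)
  have hMlo : (q : ℝ) ^ (39 / 100 : ℝ) ≤ 2 * M := by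
    have h1 := Nat.lt_floor_add_one ((q : ℝ) ^ (39 / 100 : ℝ))
    have h2 : (⌊(q : ℝ) ^ (39 / 100 : ℝ)⌋₊ : ℝ) = M := by rw [hM]; rfl
    rw [h2] at h1
    have := hmono (1 / 1000) (39 / 100) (by norm_num)
    linarith
  have hM1R : (1 : ℝ) ≤ M := by
    have := hmono (1 / 1000) (39 / 100) (by norm_num)
    linarith
  have hM1 : 1 ≤ M := by exact_mod_cast hM1R
  have hM2 : (M : ℝ) ^ 2 ≤ (q : ℝ) ^ (78 / 100 : ℝ) := by
    calc (M : ℝ) ^ 2 ≤ ((q : ℝ) ^ (39 / 100 : ℝ)) ^ 2 := by gcongr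
      _ = _ := by rw [sq, hadd]; norm_num
  -- the amplitude
  have hθp : 0 < |θ| := lt_of_lt_of_le (by positivity) hθ1
  obtain ⟨κ, hκ⟩ : ∃ κ : ℝ, κ = log |θ| / L := ⟨_, rfl⟩
  have hκθ : (q : ℝ) ^ κ = |θ| := by
    rw [hexp, hκ, div_mul_cancel₀ _ hLp.ne', Real.exp_log hθp]
  have hκk : (k0 : ℝ) + 2 ≤ κ := by
    rw [hκ, le_div_iff₀ hLp]
    have h1 := Real.log_le_log (by positivity) hθ1
    rw [Real.log_pow, ← hL] at h1
    push_cast at h1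
    exact h1
  have hk00 : (0 : ℝ) ≤ k0 := Nat.cast_nonneg _
  have hκ2 : 2 ≤ κ := by linarith
  have hκp : 0 < κ := by linarith
  have hκδ : κ ≤ L ^ δ := by
    rw [hκ, div_le_iff₀ hLp]
    have h1 := Real.log_le_log hθp hθ2
    rw [Real.log_exp] at h1
    calc log |θ| ≤ L ^ (1 + δ) := h1
      _ = L ^ δ * L := by rw [add_comm, Real.rpow_add hLp, Real.rpow_one]
  have hLδ1 : 1 ≤ L ^ δ := Real.one_le_rpow (by linarith) hδ.le
  have hκL4 : 4 * κ ≤ L := by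
    refine le_trans ?_ hbA
    gcongr
  -- the coefficients
  obtain ⟨b, hb⟩ : ∃ b : ℕ → ℝ, b = fun k => θ * co k / (q : ℝ) ^ k := ⟨_, rfl⟩
  have hbabs : ∀ k, |b k| = |θ| * |co k| / (q : ℝ) ^ k := by
    intro k
    rw [hb]
    simp only
    rw [abs_div, abs_mul, abs_of_pos (by positivity : (0 : ℝ) < (q : ℝ) ^ k)]
  obtain ⟨X, hX⟩ : ∃ X : ℝ, X = 2 * (q : ℝ) ^ (199 / 200 : ℝ) := ⟨_, rfl⟩
  have hX0 : 0 < X := by rw [hX]; exact mul_pos two_pos (hpos _)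
  have hX2 : 2 / X = (q : ℝ) ^ (-(199 / 200) : ℝ) := by
    rw [hX, Real.rpow_neg hq0.le]
    have := hpos (199 / 200)
    field_simp
  have G2 : ∀ k : ℕ, |b k| ≤ (|θ| * (q : ℝ) ^ (1 / 200 : ℝ)) * (2 / X) ^ k := by
    intro k
    rw [hbabs, hX2]
    have h1 : ((q : ℝ) ^ (-(199 / 200) : ℝ)) ^ k = (q : ℝ) ^ (-(199 / 200) * (k : ℝ) : ℝ) := by
      rw [← Real.rpow_natCast, ← Real.rpow_mul hq0.le]
    have h2 : ((q : ℝ) ^ k)⁻¹ = (q : ℝ) ^ (-(k : ℝ)) := by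
      rw [Real.rpow_neg hq0.le, Real.rpow_natCast]
    calc |θ| * |co k| / (q : ℝ) ^ k ≤ |θ| * (q : ℝ) ^ (((k : ℝ) + 1) / 200) / (q : ℝ) ^ k := by
          have := hcf.up k
          gcongr
      _ = |θ| * ((q : ℝ) ^ (((k : ℝ) + 1) / 200) * (q : ℝ) ^ (-(k : ℝ))) := by
          rw [← h2, ← div_eq_mul_inv, mul_div_assoc]
      _ = |θ| * ((q : ℝ) ^ (1 / 200 : ℝ) * (q : ℝ) ^ (-(199 / 200) * (k : ℝ) : ℝ)) := by
          rw [hadd, hadd]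
          congr 2
          ring
      _ = _ := by rw [h1]; ring
  have F3 : ∀ n : ℕ, (n : ℝ) ≤ (M : ℝ) ^ 2 → HasSum (fun k => b k * (n : ℝ) ^ k) (φ (n : ℝ)) := by
    intro n hn
    have h1 := hφ n (Nat.cast_nonneg n)
      ((hn.trans hM2).trans (hmono _ _ (by norm_num)))
    have h2 : (fun k : ℕ => b k * (n : ℝ) ^ k) = fun k : ℕ => θ * co k * ((n : ℝ) / q) ^ k := by
      funext k
      rw [hb, div_pow]
      simp only
      ring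
    rw [h2]
    exact h1
  have key := hC q M κ b hq2 hκ2 hM1 ?_ ?_ ?_
  · -- the end
    obtain ⟨r, hr⟩ : ∃ r : ℕ, r = ⌈5 * κ⌉₊ + 5 := ⟨_, rfl⟩
    rw [← hr] at key
    have hr1 : 5 * κ + 6 ≤ ((r + 1 : ℕ) : ℝ) := by
      rw [hr]
      push_cast
      have := Nat.le_ceil (5 * κ)
      linarith
    have hMX : 2 * (M : ℝ) ^ 2 / X ≤ (q : ℝ) ^ (-(215 / 1000) : ℝ) := by
      have h1 : 2 * (M : ℝ) ^ 2 / X = (M : ℝ) ^ 2 * (2 / X) := by ring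
      rw [h1, hX2]
      calc (M : ℝ) ^ 2 * (q : ℝ) ^ (-(199 / 200) : ℝ) ≤
          (q : ℝ) ^ (78 / 100 : ℝ) * (q : ℝ) ^ (-(199 / 200) : ℝ) := by
            gcongr
        _ = (q : ℝ) ^ (-(215 / 1000) : ℝ) := by
            rw [hadd]
            norm_num
    have hMX2 : 2 * (M : ℝ) ^ 2 / X ≤ 1 / 2 := by
      refine hMX.trans ?_
      rw [Real.rpow_neg hq0.le, inv_le_comm₀ (hpos _) (by norm_num)]
      have := hmono (1 / 1000) (215 / 1000) (by norm_num)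
      linarith
    have hpair := one_pair (g := b) (h := fun m : ℕ => φ (m : ℝ))
      (A := |θ| * (q : ℝ) ^ (1 / 200 : ℝ)) (X := X) (r := r) (M := M) (by positivity) hX0 hMX2 G2 F3
    refine hpair.trans ?_
    have htail : 2 * π * (2 * (|θ| * (q : ℝ) ^ (1 / 200 : ℝ)) * (2 * (M : ℝ) ^ 2 / X) ^ (r + 1)) ≤
        16 * Real.exp (-(2 * L ^ β)) := by
      have hpi : 2 * π * 2 ≤ 16 := by
        have := Real.pi_le_four
        linarith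
      have hM3 : (2 * (M : ℝ) ^ 2 / X) ^ (r + 1) ≤ (q : ℝ) ^ (-(215 / 1000) * (5 * κ + 6) : ℝ) := by
        calc (2 * (M : ℝ) ^ 2 / X) ^ (r + 1) ≤ ((q : ℝ) ^ (-(215 / 1000) : ℝ)) ^ (r + 1) := by
              gcongr
          _ = (q : ℝ) ^ (-(215 / 1000) * ((r + 1 : ℕ) : ℝ) : ℝ) := by
              rw [← Real.rpow_natCast, ← Real.rpow_mul hq0.le]
          _ ≤ _ := by
              apply hmono
              linarith
      calc 2 * π * (2 * (|θ| * (q : ℝ) ^ (1 / 200 : ℝ)) * (2 * (M : ℝ) ^ 2 / X) ^ (r + 1)) =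
          (2 * π * 2) * ((q : ℝ) ^ (1 / 200 : ℝ) * |θ| * (2 * (M : ℝ) ^ 2 / X) ^ (r + 1)) := by
            ring
        _ ≤ 16 * ((q : ℝ) ^ (1 / 200 : ℝ) * (q : ℝ) ^ κ *
            (q : ℝ) ^ (-(215 / 1000) * (5 * κ + 6) : ℝ)) := by
            rw [hκθ]
            gcongr
        _ = 16 * (q : ℝ) ^ (1 / 200 + κ + -(215 / 1000) * (5 * κ + 6) : ℝ) := by
            rw [hadd, hadd]
        _ ≤ 16 * (q : ℝ) ^ (-1 : ℝ) := by
            have := hmono (1 / 200 + κ + -(215 / 1000) * (5 * κ + 6)) (-1) (by linarith)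
            linarith
        _ = 16 * Real.exp (-L) := by rw [hexp]; norm_num
        _ ≤ _ := by
            have := Real.exp_le_exp.2 (show -L ≤ -(2 * L ^ β) by linarith)
            linarith
    have hmain : (q : ℝ) ^ (-(c / (1 + κ) ^ 2) : ℝ) ≤ Real.exp (-(2 * L ^ β)) := by
      rw [hexp]
      apply Real.exp_le_exp.2
      have h5 : 1 + κ ≤ 2 * L ^ δ := by linarith
      have h8 : (1 + κ) ^ 2 ≤ 4 * L ^ (2 * δ) := by
        calc (1 + κ) ^ 2 ≤ (2 * L ^ δ) ^ 2 := by gcongr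
          _ = 4 * (L ^ δ) ^ 2 := by ring
          _ = 4 * L ^ (2 * δ) := by
              rw [← Real.rpow_natCast (L ^ δ) 2, ← Real.rpow_mul hLp.le, Nat.cast_ofNat, mul_comm δ 2]
      have h9 : L = L ^ (1 - 2 * δ) * L ^ (2 * δ) := by
        rw [← Real.rpow_add hLp]
        norm_num
      have h10 : 2 * L ^ β ≤ c / (1 + κ) ^ 2 * L := by
        rw [div_mul_eq_mul_div, le_div_iff₀ (by positivity)]
        have hb9' : 8 * L ^ β ≤ c * L ^ (1 - 2 * δ) := by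
          have h11 := mul_le_mul_of_nonneg_left hb9 hc0.le
          calc 8 * L ^ β = c * (8 / c * L ^ β) := by field_simp
            _ ≤ _ := h11
        calc 2 * L ^ β * (1 + κ) ^ 2 ≤ 2 * L ^ β * (4 * L ^ (2 * δ)) := by gcongr
          _ = (8 * L ^ β) * L ^ (2 * δ) := by ring
          _ ≤ (c * L ^ (1 - 2 * δ)) * L ^ (2 * δ) := by gcongr
          _ = c * (L ^ (1 - 2 * δ) * L ^ (2 * δ)) := by ring
          _ = c * L := by rw [← h9]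
      linarith
    calc ‖TT r M b‖ + (M : ℝ) ^ 2 * (2 * π * (2 * (|θ| * (q : ℝ) ^ (1 / 200 : ℝ)) * (2 * (M : ℝ) ^ 2 / X) ^ (r + 1))) ≤
        C0 * (M : ℝ) ^ 2 * Real.exp (-(2 * L ^ β)) + (M : ℝ) ^ 2 *
          (16 * Real.exp (-(2 * L ^ β))) := by
          refine add_le_add (key.trans ?_) ?_
          · gcongr
          · gcongr
      _ = (M : ℝ) ^ 2 * ((C0 + 16) * Real.exp (-(2 * L ^ β))) := by ring
      _ ≤ (M : ℝ) ^ 2 * (Real.exp (L ^ β) * Real.exp (-(2 * L ^ β))) := by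
          have h10 : C0 + 16 ≤ Real.exp (L ^ β) := by
            have := Real.add_one_le_exp (L ^ β)
            linarith
          gcongr
      _ = (M : ℝ) ^ 2 * Real.exp (-(L ^ β)) := by
          rw [← Real.exp_add]
          ring_nf
  · exact (hmono _ _ (by norm_num)).trans hMlo
  · exact hMhi.trans (hmono _ _ (by norm_num))
  · intro j hj hj2 hj3
    rw [Finset.mem_Icc] at hj
    have hj0 : (0 : ℝ) < j := by exact_mod_cast hj.1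
    have hj4 : (j : ℝ) + 1 ≤ 4 * κ := by linarith
    have hjk : k0 ≤ j := by
      have : (k0 : ℝ) ≤ j := by linarith
      exact_mod_cast this
    have hjR : (j : ℝ) ≤ R := by linarith
    have hqj : (0 : ℝ) < (q : ℝ) ^ j := by positivity
    rw [hbabs]
    constructor
    · have h4 : (q : ℝ) ^ (κ - κ / 20 - j : ℝ) = |θ| * (q : ℝ) ^ (-(κ / 20) : ℝ) / (q : ℝ) ^ j := by
        rw [Real.rpow_sub hq0, sub_eq_add_neg, ← hadd, hκθ, Real.rpow_natCast]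
      have h5 : (q : ℝ) ^ (-(κ / 20) : ℝ) ≤ |co j| := by
        refine le_trans (hmono _ _ ?_) (hcf.lo j hjk hjR)
        linarith
      rw [h4]
      gcongr
    · have h4 : (q : ℝ) ^ (κ + κ / 20 - j : ℝ) = |θ| * (q : ℝ) ^ (κ / 20 : ℝ) / (q : ℝ) ^ j := by
        rw [Real.rpow_sub hq0, Real.rpow_add hq0, hκθ, Real.rpow_natCast]
      have h5 : |co j| ≤ (q : ℝ) ^ (κ / 20 : ℝ) := by
        refine (hcf.up j).trans (hmono _ _ ?_)
        linarith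
      rw [h4]
      gcongr

end one3

section sum3

open Finset Filter
open Pool.Agent.Y933.KD (e)
open Pool.Agent.N586.KO (MM)

/-- **G8** -/
theorem sum3 (h : Pool.Agent.N586.KO.S_TN4) : S_SUM3 := by
  intro δ β k0 hδ hβ hδβ
  obtain ⟨q0, hcore⟩ := Sum3_one h δ β k0 hδ hβ hδβ
  refine ⟨max q0 1, ?_⟩
  intro q hq A' B' R θ Φ hR hθ1 hθ2 hΦ
  have hq0 : q0 ≤ q := (le_max_left _ _).trans hq
  have hq1 : 1 ≤ q := (le_max_right _ _).trans hq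
  obtain ⟨M, hM⟩ : ∃ M, M = MM q := ⟨_, rfl⟩
  have hM1 : 1 ≤ M := by
    rw [hM]
    unfold Pool.Agent.N586.KO.MM
    apply Nat.le_floor
    rw [Nat.cast_one]
    exact Real.one_le_rpow (by exact_mod_cast hq1) (by norm_num)
  have hMr : (1 : ℝ) ≤ M := by exact_mod_cast hM1
  have hMpos : (0 : ℝ) < M := by linarith
  obtain ⟨G, hG⟩ : ∃ G : ℝ → ℂ, G = fun t => e (Φ t) := ⟨_, rfl⟩
  have hG1 : ∀ t, ‖G t‖ = 1 := by
    intro t
    rw [hG]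
    exact Pool.Agent.N586.KO.Exps_norm_e _
  obtain ⟨I, hI⟩ : ∃ I, I = Icc A' B' := ⟨_, rfl⟩
  obtain ⟨S, hS⟩ : ∃ S : ℂ, S = ∑ a ∈ I, G a := ⟨_, rfl⟩
  have hS' : ∑ a ∈ Finset.Icc A' B', e (Φ a) = S := by
    rw [hS, hI, hG]
  rw [hS', ← hM, ← hI]
  obtain ⟨D, hD⟩ : ∃ D : ℝ, D = Real.exp (-(Real.log q) ^ β) := ⟨_, rfl⟩
  have hD0 : 0 ≤ D := by rw [hD]; exact (Real.exp_pos _).le
  rw [← hD]
  -- the double sums
  have hin : ∀ a ∈ I, ‖∑ y ∈ Icc 1 M, ∑ z ∈ Icc 1 M, G ((a : ℝ) + ((y * z : ℕ) : ℝ))‖ ≤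
      (M : ℝ) ^ 2 * D := by
    intro a ha
    rw [hI, mem_Icc] at ha
    obtain ⟨c, hc, hs⟩ := hΦ a ha.1 ha.2
    have h5 := hcore q hq0 c R θ (fun y => Φ ((a : ℝ) + y)) hR hc hθ1 hθ2 hs
    rw [hG, hD, hM]
    exact h5
  have hsum : ‖∑ a ∈ I, ∑ y ∈ Icc 1 M, ∑ z ∈ Icc 1 M, G ((a : ℝ) + ((y * z : ℕ) : ℝ))‖ ≤
      I.card * ((M : ℝ) ^ 2 * D) := by
    refine (norm_sum_le _ _).trans ((sum_le_sum hin).trans (le_of_eq ?_))
    rw [sum_const, nsmul_eq_mul]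
  have hexch : ∑ a ∈ I, ∑ y ∈ Icc 1 M, ∑ z ∈ Icc 1 M, G ((a : ℝ) + ((y * z : ℕ) : ℝ)) =
      ∑ y ∈ Icc 1 M, ∑ z ∈ Icc 1 M, ∑ a ∈ I, G ((a : ℝ) + ((y * z : ℕ) : ℝ)) := by
    rw [sum_comm]
    refine sum_congr rfl fun y _ => ?_
    rw [sum_comm]
  have hdiff : ‖∑ y ∈ Icc 1 M, ∑ z ∈ Icc 1 M, (S - ∑ a ∈ I, G ((a : ℝ) + ((y * z : ℕ) : ℝ)))‖ ≤
      2 * (M : ℝ) ^ 4 := by
    have h1 : ∀ y ∈ Icc 1 M, ∀ z ∈ Icc 1 M,
        ‖S - ∑ a ∈ I, G ((a : ℝ) + ((y * z : ℕ) : ℝ))‖ ≤ 2 * (M : ℝ) ^ 2 := by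
      intro y hy z hz
      rw [mem_Icc] at hy hz
      rw [hS, hI]
      refine (Pool.Agent.N586.KO.Exps_shift G hG1 A' B' (y * z)).trans ?_
      have : y * z ≤ M * M := Nat.mul_le_mul hy.2 hz.2
      have h2 : ((y * z : ℕ) : ℝ) ≤ (M : ℝ) ^ 2 := by
        rw [pow_two]
        exact_mod_cast this
      linarith
    refine (norm_sum_le _ _).trans ?_
    refine (sum_le_sum (fun y _ => norm_sum_le _ _)).trans ?_
    refine (sum_le_sum (fun y hy => sum_le_sum (fun z hz => h1 y hy z hz))).trans ?_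
    simp only [sum_const, Nat.card_Icc, nsmul_eq_mul]
    rw [show M + 1 - 1 = M by omega]
    apply le_of_eq
    ring
  have hSS : ∑ y ∈ Icc 1 M, ∑ z ∈ Icc 1 M, S = ((M : ℂ)) ^ 2 * S := by
    simp only [sum_const, Nat.card_Icc, nsmul_eq_mul]
    rw [show M + 1 - 1 = M by omega]
    ring
  have hmain : (M : ℝ) ^ 2 * ‖S‖ ≤ 2 * (M : ℝ) ^ 4 + I.card * ((M : ℝ) ^ 2 * D) := by
    have h1 : ((M : ℂ)) ^ 2 * S = ∑ y ∈ Icc 1 M, ∑ z ∈ Icc 1 M,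
        (S - ∑ a ∈ I, G ((a : ℝ) + ((y * z : ℕ) : ℝ))) +
        ∑ a ∈ I, ∑ y ∈ Icc 1 M, ∑ z ∈ Icc 1 M, G ((a : ℝ) + ((y * z : ℕ) : ℝ)) := by
      rw [hexch, ← hSS, ← sum_add_distrib]
      refine sum_congr rfl fun y _ => ?_
      rw [← sum_add_distrib]
      refine sum_congr rfl fun z _ => ?_
      ring
    have h2 : ‖((M : ℂ)) ^ 2 * S‖ = (M : ℝ) ^ 2 * ‖S‖ := by
      rw [norm_mul, norm_pow, Complex.norm_natCast]
    rw [← h2, h1]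
    exact (norm_add_le _ _).trans (add_le_add hdiff hsum)
  have hM2 : (0 : ℝ) < (M : ℝ) ^ 2 := by positivity
  have : (M : ℝ) ^ 2 * ‖S‖ ≤ (M : ℝ) ^ 2 * (2 * (M : ℝ) ^ 2 + I.card * D) := by
    refine hmain.trans (le_of_eq ?_)
    ring
  exact le_of_mul_le_mul_left this hM2

end sum3

end Pool.Agent.N586.GF
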