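import Pool.Agent.N586.GF.Words

/-!
# Project SR: all bases
-/

set_option autoImplicit false

namespace Pool.Agent.N586.GF

open Finset Real Filter

/-- SR, all bases -/
theorem sr_all (hS : S_SUM) (hM : S_SMB) (hC : S_CR') (σ : ℝ) (hσ : ∀ n : ℕ, σ ≠ n) (r : ℕ)
    (hr : 1 ≤ r) (t : Fin r → ℕ) (ht : Function.Injective t) (κ : ℝ) (hκ : 0 ≤ κ) (δ : ℝ)
    (hδ : 0 < δ) (hδ2 : δ < 1 / 2) (B : ℕ) (ε : ℝ) (hε : 0 < ε) :
    ∃ C : ℝ, 0 < C ∧ ∃ M0 : ℕ, ∀ M : ℕ, M0 ≤ M → ∀ lam : ℝ, (M : ℝ) ^ (-κ) ≤ |lam| →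
      |lam| ≤ (M : ℝ) ^ κ → ∀ M' : ℕ, (M : ℝ) ^ (4 / 5 : ℝ) ≤ M' → M' ≤ M →
      (({m : ℕ | M < m ∧ m ≤ M + M' ∧ ¬ NormalIn B (C * log M) ((log M) ^ (1 + δ)) ε (ε * log M)
        (fun j => lam * ((m : ℝ) + t j) ^ σ)}.ncard : ℕ) : ℝ) ≤ C * M' * (log M) ^ (δ - 1) := by
  classical
  have h0 : ∀ b : ℕ, ∃ (C : ℝ) (M0 : ℕ), 0 < C ∧ (2 ≤ b → ∀ M : ℕ, M0 ≤ M → ∀ lam : ℝ,
      (M : ℝ) ^ (-κ) ≤ |lam| → |lam| ≤ (M : ℝ) ^ κ → ∀ M' : ℕ, (M : ℝ) ^ (4 / 5 : ℝ) ≤ M' →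
      M' ≤ M → (((Finset.Icc (M + 1) (M + M')).filter (fun m : ℕ => ¬ EqB ε (ε * log M)
        ⌈C * log M⌉₊ ⌊(log M) ^ (1 + δ)⌋₊
        (fun n j => (b : ℝ) ^ n * (lam * ((m : ℝ) + t j) ^ σ)))).card : ℝ) ≤
        C * M' * (log M) ^ (δ - 1)) := by
    intro b
    by_cases hb : 2 ≤ b
    · obtain ⟨C, hC0, M0, h⟩ := sr_main hS hM hC σ hσ r hr t ht κ hκ δ hδ hδ2 b hb ε hε
      refine ⟨C, M0, hC0, fun _ M hM lam h1 h2 M' h3 h4 => le_trans (le_of_eq ?_)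
        (h M hM lam h1 h2 M' h3 h4)⟩
      congr!
    · exact ⟨1, 0, one_pos, fun h => absurd h hb⟩
  choose C M0 hC0 h using h0
  set S : Finset ℕ := Finset.Icc 2 B with hS'
  have hCb : ∀ b ∈ S, C b ≤ 1 + ∑ b ∈ S, C b := fun b hb => by
    have := single_le_sum (f := C) (fun i _ => (hC0 i).le) hb
    linarith
  have hqb : ∀ b ∈ S, M0 b ≤ 1 + ∑ b ∈ S, M0 b := fun b hb => by
    have := single_le_sum (f := M0) (fun i _ => Nat.zero_le _) hb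
    omega
  have hCpos : 0 < 1 + ∑ b ∈ S, C b := by
    have := sum_nonneg (s := S) (f := C) fun i _ => (hC0 i).le
    linarith
  refine ⟨1 + ∑ b ∈ S, C b, hCpos, 1 + ∑ b ∈ S, M0 b, fun M hMM lam h1 h2 M' h3 h4 => ?_⟩
  have hM1 : 1 ≤ M := by omega
  have hMR : (1 : ℝ) ≤ M := by exact_mod_cast hM1
  have hlog : 0 ≤ log (M : ℝ) := Real.log_nonneg hMR
  have hsub : {m : ℕ | M < m ∧ m ≤ M + M' ∧ ¬ NormalIn B ((1 + ∑ b ∈ S, C b) * log M)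
      ((log M) ^ (1 + δ)) ε (ε * log M) (fun j => lam * ((m : ℝ) + t j) ^ σ)} ⊆
      ((S.biUnion fun b => (Finset.Icc (M + 1) (M + M')).filter (fun m : ℕ =>
        ¬ EqB ε (ε * log M) ⌈C b * log M⌉₊ ⌊(log M) ^ (1 + δ)⌋₊
        (fun n j => (b : ℝ) ^ n * (lam * ((m : ℝ) + t j) ^ σ))) : Finset ℕ) : Set ℕ) := by
    rintro m ⟨h5, h6, h7⟩
    by_contra hcon
    apply h7
    refine normalIn_of (C := C) (l := log M) (fun b hb hbB => ?_) (fun b hb hbB => ?_)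
    · exact mul_le_mul_of_nonneg_right (hCb b (Finset.mem_Icc.2 ⟨hb, hbB⟩)) hlog
    · by_contra h8
      apply hcon
      rw [Finset.mem_coe, Finset.mem_biUnion]
      refine ⟨b, Finset.mem_Icc.2 ⟨hb, hbB⟩, ?_⟩
      rw [Finset.mem_filter, Finset.mem_Icc]
      exact ⟨⟨by omega, h6⟩, h8⟩
  have h8 : 0 ≤ (log (M : ℝ)) ^ (δ - 1) := Real.rpow_nonneg hlog _
  have h9 := Set.ncard_le_ncard hsub (Finset.finite_toSet _)
  rw [Set.ncard_coe_finset] at h9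
  calc (({m : ℕ | M < m ∧ m ≤ M + M' ∧ ¬ NormalIn B ((1 + ∑ b ∈ S, C b) * log M)
      ((log M) ^ (1 + δ)) ε (ε * log M) (fun j => lam * ((m : ℝ) + t j) ^ σ)}.ncard : ℕ) : ℝ)
      ≤ (((S.biUnion fun b => (Finset.Icc (M + 1) (M + M')).filter (fun m : ℕ =>
        ¬ EqB ε (ε * log M) ⌈C b * log M⌉₊ ⌊(log M) ^ (1 + δ)⌋₊
        (fun n j => (b : ℝ) ^ n * (lam * ((m : ℝ) + t j) ^ σ)))).card : ℕ) : ℝ) :=
        Nat.cast_le.2 h9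
    _ ≤ ((∑ b ∈ S, ((Finset.Icc (M + 1) (M + M')).filter (fun m : ℕ =>
        ¬ EqB ε (ε * log M) ⌈C b * log M⌉₊ ⌊(log M) ^ (1 + δ)⌋₊
        (fun n j => (b : ℝ) ^ n * (lam * ((m : ℝ) + t j) ^ σ)))).card : ℕ) : ℝ) :=
        Nat.cast_le.2 Finset.card_biUnion_le
    _ = ∑ b ∈ S, (((Finset.Icc (M + 1) (M + M')).filter (fun m : ℕ =>
        ¬ EqB ε (ε * log M) ⌈C b * log M⌉₊ ⌊(log M) ^ (1 + δ)⌋₊
        (fun n j => (b : ℝ) ^ n * (lam * ((m : ℝ) + t j) ^ σ)))).card : ℝ) := by push_cast; rfl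
    _ ≤ ∑ b ∈ S, C b * M' * (log M) ^ (δ - 1) := by
        refine sum_le_sum fun b hb => ?_
        exact h b (Finset.mem_Icc.1 hb).1 M ((hqb b hb).trans hMM) lam h1 h2 M' h3 h4
    _ = (∑ b ∈ S, C b) * (M' * (log M) ^ (δ - 1)) := by
        rw [sum_mul]
        refine sum_congr rfl fun b _ => ?_
        ring
    _ ≤ (1 + ∑ b ∈ S, C b) * (M' * (log M) ^ (δ - 1)) := by
        apply mul_le_mul_of_nonneg_right (by linarith)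
        exact mul_nonneg (Nat.cast_nonneg _) h8
    _ = _ := by ring

end Pool.Agent.N586.GF
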